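import Pool.Agent.P.MP_67c9d4_al.MX.Iface

/-! Step ACY. -/

set_option autoImplicit false
set_option linter.unusedSectionVars false

namespace Pool.Agent.P.MP_67c9d4_al.MX

open Equiv Wr Multiplicative FC FR

lemma ACY_red {H V E : Type} [Group H] {D : TD H V E} {y : H} {c : ℤ → (E × Bool) × H} {l : ℕ}
    (h : D.Ax y c l) (i : ℕ) :
    D.lab (qa ⊥) (c (i + 1 : ℕ)) ((1 : H) : H ⧸ (⊥ : Subgroup H)) ≠
      ((D.lab (qa ⊥) (c i) ((1 : H) : H ⧸ ⊥)).1, !(D.lab (qa ⊥) (c i) ((1 : H) : H ⧸ ⊥)).2) := by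
  rw [← TD.lab_rev, Ne, TD.lab_eq inferInstance, TD.same_act, Nat.cast_succ]
  exact fun e => h.nb i e.symm

/-- Far points of an axis do not differ by a bounded element modulo the vertex group. -/
lemma ACY_far (hKAP : S_KAP) (hSEG : S_SEG) {H V E : Type} [Group H] {D : TD H V E} (hT : D.Tree)
    {y : H} {c : ℤ → (E × Bool) × H} {l : ℕ} (h : D.Ax y c l) {F : Set H} (hF : F.Finite) :
    ∃ m : ℕ, ∀ p ∈ D.G (D.vt (c 0).1), ∀ q ∈ D.G (D.vt (c 0).1), ∀ v ∈ F,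
      (c 0).2⁻¹ * (y ^ (m : ℤ) * (c 0).2) ≠ p * v * q := by
  obtain ⟨Ev, hM, hp, h1, -, hC, hr⟩ := hKAP H V E _ D (qa ⊥) hT
  choose K hK using hC (D.vt (c 0).1) (D.vt (c 0).1)
  obtain ⟨C, hC⟩ := (hF.image K).bddAbove
  refine ⟨2 * C + 1, fun p hp' q hq v hv e => ?_⟩
  have hm : 2 * C + 1 ≤ l * (2 * C + 1) := Nat.le_mul_of_pos_left _ h.pos
  have k1 := hr (fun i => c i) (l * (2 * C + 1)) (fun i _ => by simpa using h.lk i)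
    ((1 : H) : H ⧸ ⊥)
  have q1 := h.zper 0 (2 * C + 1 : ℕ)
  rw [zero_add, ← Nat.cast_mul] at q1
  simp only [q1, TD.act, Nat.cast_zero] at k1
  rw [e, ← hM _ (D.vt (c 0).1), ← hM _ (D.vt (c 0).1), mul_c, mul_c, h1 _ _ hp', h1 _ _ hq, one_mul,
    mul_one] at k1
  obtain ⟨L, hL, e1⟩ := hK v ((Ev (D.vt (c 0).1) (D.vt (c 0).1) p).p⁻¹
    (qa ⊥ (c 0).2⁻¹ ((1 : H) : H ⧸ ⊥)))
  rw [e1] at k1
  obtain ⟨d, -, hd⟩ := hSEG _ _ (fun i => D.lab (qa ⊥) (c i) ((1 : H) : H ⧸ ⊥)) _ 0 C L []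
    (fun i _ => ACY_red h i) (fun i hi => absurd hi (Nat.not_lt_zero _))
    (hL.trans (hC ⟨v, hv, rfl⟩)) (Nat.zero_le _)
    ((mul_one _).trans (k1.symm.trans (mul_one _).symm))
  obtain ⟨i', -, h2, -⟩ := hd C le_rfl (by omega)
  exact Nat.not_lt_zero _ h2

theorem p_ACY (hTHK : S_THK) (hPSC : S_PSC) (hCLOSE : S_CLOSE) (hKAP : S_KAP) (hSEG : S_SEG) :
    S_ACY := by
  intro T _ Γ C V E _ D f hT hf hA hTF hZ hP y c l h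
  obtain ⟨S, hS⟩ := hP (c 0).1
  obtain ⟨r₀, hr₀⟩ := sh_exists (Γ := Γ) (c 0).2
  obtain ⟨Y, hY, hY'⟩ := hTHK T Γ _ hA r₀
  obtain ⟨r, hr⟩ := hCLOSE T Γ C f Y hf hTF hZ hY
  obtain ⟨m, hm⟩ := ACY_far hKAP hSEG hT h (sh_finite (Γ := Γ) r)
  refine ⟨l * m + 1, fun k hk => by_contra fun hk1 => ?_⟩
  have e0 := hk 0 (Nat.succ_pos _)
  have e1 := hk (l * m) (Nat.lt_succ_self _)
  have q1 := h.zper 0 m
  rw [zero_add, ← Nat.cast_mul] at q1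
  rw [q1] at e1
  simp only [TD.St, TD.act, mem_cj, hS, Nat.cast_zero] at e0 e1
  have g0 := hY' _ hr₀
  have g1 : f y ^ (m : ℤ) * (c 0).2 ∈ Y := hY.inv _ ⟨y ^ (m : ℤ), map_zpow f y m⟩ _ g0
  have key : ∀ g ∈ Y, g⁻¹ * f k * g ∈ PS Γ S →
      Cvx Γ (Y ∩ {x | g⁻¹ * x ∈ PS Γ S}) ∧ (Y ∩ {x | g⁻¹ * x ∈ PS Γ S}).Nonempty ∧
        ∀ x ∈ Y ∩ {x | g⁻¹ * x ∈ PS Γ S}, f k * x ∈ Y ∩ {x | g⁻¹ * x ∈ PS Γ S} := by
    intro g hg hgk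
    refine ⟨(hPSC T Γ).2.2 _ _ hY.cvx ((hPSC T Γ).1 S g), ⟨g, hg, ?_⟩,
      fun x hx => ⟨hY.inv _ ⟨k, rfl⟩ _ hx.1, ?_⟩⟩
    · change g⁻¹ * g ∈ PS Γ S
      rw [inv_mul_cancel]
      exact one_mem _
    · change g⁻¹ * (f k * x) ∈ PS Γ S
      have := mul_mem hgk hx.2
      rwa [mul_assoc, mul_inv_cancel_left, mul_assoc] at this
  obtain ⟨a1, a2, a3⟩ := key _ g0 e0
  obtain ⟨b1, b2, b3⟩ := key _ g1 e1
  obtain ⟨p, hp, q, hq, hv⟩ := hr _ _ Set.inter_subset_left Set.inter_subset_left a1 b1 a2 b2 k hk1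
    a3 b3
  have le : PS Γ S ≤ D.G (D.vt (c 0).1) := hS ▸ D.le _
  refine hm _ (le hp.2) _ (inv_mem (le hq.2)) _ hv ?_
  group

end Pool.Agent.P.MP_67c9d4_al.MX
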