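import Pool.Agent.P.MP_67c9d4_al.MX.Iface
import Pool.Agent.P.MP_67c9d4_al.FC.ADDF

/-! Step ADDF2. -/

set_option autoImplicit false
set_option linter.unusedSectionVars false

namespace Pool.Agent.P.MP_67c9d4_al.MX

open Equiv Wr Multiplicative FC FR

theorem p_ADDF2 (hADDV2 : S_ADDV2) :
    S_ADDF2 := by
  intro C Ω _ e hC
  obtain ⟨H, i, x, h1, h2, h3, h4⟩ := hADDV2 C (Option Ω) hC
  refine ⟨H, h1.tw2, i, _, ADDFx.isFr_tw h2 fun ω => (e ω).toAdd - 1, h3, fun ω => ?_⟩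
  rw [ADDFx.tw, map_mul, map_zpow, h4, h4, ← ofAdd_zsmul, ← ofAdd_add]
  simp

end Pool.Agent.P.MP_67c9d4_al.MX
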