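import Pool.Agent.P.MP_67c9d4_al.MX.Iface

/-! Step ADDG. -/

set_option autoImplicit false
set_option linter.unusedSectionVars false

namespace Pool.Agent.P.MP_67c9d4_al.MX

open Equiv Wr Multiplicative FC FR

theorem p_ADDG (hCOPH : S_COPH) (hHEX : S_HEX) :
    S_ADDG := by
  intro B C B' S k k' hk H j n hT
  induction hT with
  | base => exact ⟨B', k, k', MonoidHom.id _, hk, PTow.base, fun _ => rfl, fun _ => rfl⟩
  | @step H₀ H j₀ n i₀ a y s hT hc ha hy hH hχ hs ih =>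
    obtain ⟨H₀', i₁, i₁', j₀', ⟨h0, h3, h3'⟩, h1, h2, h4⟩ := ih
    obtain ⟨H', i₂, s', h5, h6, h7⟩ := hHEX H₀' (i₁ a) (i₁ y) (by rw [h3, h3, ha, hy])
    obtain ⟨i, e1, e2, h8⟩ := hCOPH _ _ _ _ _ i₁ i₁' i₀ i₂ a y s s' h0 hH h5
    refine ⟨H', i, i₂.comp i₁', i₂.comp j₀', ⟨h8, fun c => ?_, fun c => (h6 _).trans (h3' c)⟩,
      PTow.step i₂ (i₁ a) (i₁ y) s' h1 ?_ ((h3 _).trans ha) ((h3 _).trans hy) h5 h6 h7,
      fun b => (congrArg i₂ (h2 b)).trans (e1 _).symm, fun c => congrArg i₂ (h4 c)⟩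
    · refine DFunLike.congr_fun (hH.ext (F := H'.χ.comp i) (fun c => ?_) ?_) c
      · rw [MonoidHom.comp_apply, e1, h6, h3, hχ]
      · rw [MonoidHom.comp_apply, e2, h7, hs]
    · obtain ⟨a₀, ha₀, hc⟩ := hc
      exact ⟨k a₀, ⟨a₀, ha₀, rfl⟩, by rw [h2]; exact i₁.map_isConj hc⟩

end Pool.Agent.P.MP_67c9d4_al.MX
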