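import Pool.Agent.P.MP_67c9d4_al.MX.Iface

/-! Step ADDV2. -/

set_option autoImplicit false
set_option linter.unusedSectionVars false

namespace Pool.Agent.P.MP_67c9d4_al.MX

open Equiv Wr Multiplicative FC FR

lemma ADDV2_free {A H Ω : Type} [Group A] [Group H] {i : A →* H} {i' : FreeGroup Ω →* H}
    (h : IsCop i i') : IsFr i (fun w => i' (FreeGroup.of w)) := by
  refine ⟨?_, fun W _ f y => ?_⟩
  · rw [eq_top_iff, ← h.gen, Subgroup.closure_le]
    rintro _ (⟨a, rfl⟩ | ⟨c, rfl⟩)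
    · exact Subgroup.subset_closure (Or.inl ⟨a, rfl⟩)
    · induction c using FreeGroup.induction_on with
      | C1 => rw [map_one]; exact one_mem _
      | of w => exact Subgroup.subset_closure (Or.inr ⟨w, rfl⟩)
      | inv_of w hw => rw [map_inv]; exact inv_mem hw
      | mul a b ha hb => rw [map_mul]; exact mul_mem ha hb
  · obtain ⟨F, h1, h2⟩ := h.up W f (FreeGroup.lift y)
    exact ⟨F, h1, fun w => by rw [h2, FreeGroup.lift_apply_of]⟩

lemma ADDV2_comp {C B B' V Ω : Type} [Group C] [Group B] [Group B'] {k : C →* B} {τ : V → B}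
    {k1 : B →* B'} {x : Ω → B'} (h : IsFr k τ) (h' : IsFr k1 x) :
    IsFr (k1.comp k) (Sum.elim (fun v => k1 (τ v)) x) := by
  refine ⟨?_, fun W _ f y => ?_⟩
  · rw [eq_top_iff, ← h'.gen, Subgroup.closure_le]
    rintro _ (⟨b, rfl⟩ | ⟨w, rfl⟩)
    · have hb : b ∈ Subgroup.closure (Set.range k ∪ Set.range τ) := by rw [h.gen]; trivial
      induction hb using Subgroup.closure_induction with
      | mem z hz =>
        rcases hz with ⟨c, rfl⟩ | ⟨v, rfl⟩
        · exact Subgroup.subset_closure (Or.inl ⟨c, rfl⟩)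
        · exact Subgroup.subset_closure (Or.inr ⟨Sum.inl v, rfl⟩)
      | one => rw [map_one]; exact one_mem _
      | mul a b _ _ ha hb => rw [map_mul]; exact mul_mem ha hb
      | inv a _ ha => rw [map_inv]; exact inv_mem ha
    · exact Subgroup.subset_closure (Or.inr ⟨Sum.inr w, rfl⟩)
  · obtain ⟨F, h1, h2⟩ := h.up W f (fun v => y (Sum.inl v))
    obtain ⟨F', h3, h4⟩ := h'.up W F (fun w => y (Sum.inr w))
    refine ⟨F', fun c => by rw [MonoidHom.comp_apply, h3, h1], ?_⟩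
    rintro (v | w)
    · rw [Sum.elim_inl, h3, h2]
    · rw [Sum.elim_inr, h4]

theorem p_ADDV2 (hADDG : S_ADDG) (hPTW : S_PTW) :
    S_ADDV2 := by
  intro C Ω _ hC
  obtain ⟨V, hV, C₀, B, k, τ, j, n, h1, h2, h3, h4, h5, -⟩ := hC
  obtain ⟨B', k1, k2, hk⟩ := exists_cop B (B0 Ω)
  obtain ⟨H', i, i', j', hi, hT, e1, e2⟩ := hADDG B (B0 Ω) B' _ k1 k2 hk C j n h5
  have hχ : ∀ w : Ω, (B0 Ω).χ (FreeGroup.of w) = ofAdd 1 := fun w => FreeGroup.lift_apply_of
  refine ⟨H', i, fun w => i' (FreeGroup.of w), ?_, ADDV2_free hi.1, hi.2.1,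
    fun w => (hi.2.2 _).trans (hχ w)⟩
  refine ⟨V ⊕ Ω, inferInstance, C₀, B', k1.comp k,
    Sum.elim (fun v => k1 (τ v)) (fun w => k2 (FreeGroup.of w)), j', n, h1,
    ADDV2_comp h2 (ADDV2_free hk.1), fun c => ?_, ?_, ?_, ?_⟩
  · rw [MonoidHom.comp_apply, hk.2.1, h3]
  · rintro (v | w)
    · rw [Sum.elim_inl, hk.2.1, h4]
    · exact (hk.2.2 _).trans (hχ w)
  · refine (hPTW _ _ _ _ _ hT).2 _ ?_
    rintro _ ⟨_, ⟨v, rfl⟩, rfl⟩
    exact ⟨_, ⟨Sum.inl v, rfl⟩, IsConj.refl _⟩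
  · rintro _ ⟨w, rfl⟩
    exact ⟨Sum.inr w, e2 _⟩

end Pool.Agent.P.MP_67c9d4_al.MX
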