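import Pool.Agent.P.MP_67c9d4_al.MX.Iface

/-! Step APX2. -/

set_option autoImplicit false
set_option linter.unusedSectionVars false

namespace Pool.Agent.P.MP_67c9d4_al.MX

open Equiv Wr Multiplicative FC FR

theorem APX2_sep (hDCS2 : S_DCS2) {T : Type} [Finite T] (Γ : SimpleGraph T) (S : Set T)
    (p q : RAAG Γ) (B : Subgroup (RAAG Γ)) (w : RAAG Γ) (hB : CoC Γ B) :
    ∃ N, FN N ∧ ∀ g, w⁻¹ * g ∈ B → p⁻¹ * g * q ∈ PS Γ S ⊔ N →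
      ∃ g', w⁻¹ * g' ∈ B ∧ p⁻¹ * g' * q ∈ PS Γ S := by
  by_cases h : ∃ g', w⁻¹ * g' ∈ B ∧ p⁻¹ * g' * q ∈ PS Γ S
  · exact ⟨⊤, FN.top, fun _ _ _ => h⟩
  have h1 : ¬Dc B q (PS Γ S) (w⁻¹ * p) := by
    rintro ⟨a, ha, b, hb, e⟩
    refine h ⟨w * a, by simpa using ha, ?_⟩
    have e1 : p = w * (a * q * b) := by rw [← e]; group
    have e2 : p⁻¹ * (w * a) * q = b⁻¹ := by rw [e1]; group
    rw [e2]
    exact inv_mem hb
  obtain ⟨N, hN, h2⟩ := hDCS2 T Γ B S q _ hB h1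
  refine ⟨N, hN, fun g hg h3 => ?_⟩
  obtain ⟨b, hb, h4⟩ := (mem_sup_left' hN.1).1 h3
  exact absurd ⟨_, hg, _, inv_mem hb, by group⟩ (h2 _ (hN.1.conj_mem _ h4 b))

theorem APX2_mod {H : Type} [Group H] {P N N' : Subgroup H} (hN' : N'.Normal) (le : N ≤ N')
    {p q g g₂ : H} (h : p⁻¹ * g * q ∈ P ⊔ N) (h2 : g₂⁻¹ * g ∈ N') : p⁻¹ * g₂ * q ∈ P ⊔ N' := by
  have e : p⁻¹ * g₂ * q = (p⁻¹ * g * q) * (q⁻¹ * (g₂⁻¹ * g)⁻¹ * q) := by group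
  rw [e]
  exact mul_mem (sup_le_sup_left le P h)
    (Subgroup.mem_sup_right (hN'.conj_mem' _ (inv_mem h2) q))

theorem p_APX2 (hCI : S_CI) (hCF : S_CF) (hDCS2 : S_DCS2) :
    S_APX2 := by
  intro T _ Γ ι hι
  induction ι using Finite.induction_empty_option with
  | of_equiv e ih =>
    intro S p q A w hA
    obtain ⟨N, hN, h⟩ := ih (S ∘ e) (p ∘ e) (q ∘ e) A w hA
    refine ⟨N, hN, fun g hg h1 => ?_⟩
    obtain ⟨g', h2, h3⟩ := h g hg fun i => h1 (e i)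
    exact ⟨g', h2, fun i => by simpa using h3 (e.symm i)⟩
  | h_empty => exact fun S p q A w _ => ⟨⊤, FN.top, fun g hg _ => ⟨g, hg, fun i => i.elim⟩⟩
  | h_option ih =>
    intro S p q A w hA
    by_cases h : ∃ g₁, w⁻¹ * g₁ ∈ A ∧ (p none)⁻¹ * g₁ * q none ∈ PS Γ (S none)
    swap
    · obtain ⟨N, hN, h1⟩ := APX2_sep hDCS2 Γ (S none) (p none) (q none) A w hA
      exact ⟨N, hN, fun g hg h2 => absurd (h1 g hg (h2 none)) h⟩
    obtain ⟨g₁, hg₁, hs₁⟩ := h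
    obtain ⟨N', hN', h1⟩ := ih (fun i => S (some i)) (fun i => p (some i)) (fun i => q (some i))
      _ g₁ (hCI T Γ A hA (q none) (S none))
    have := hN'.1
    have := hN'.2
    have hB := (hCF T Γ).2.1 A N' hA hN'
    have h2 : ∀ ξ : RAAG Γ ⧸ N', ∃ a, ∀ a' ∈ A, (a' : RAAG Γ ⧸ N') = ξ →
        a ∈ A ∧ (a : RAAG Γ ⧸ N') = ξ := fun ξ => by
      by_cases h3 : ∃ a ∈ A, (a : RAAG Γ ⧸ N') = ξ
      · obtain ⟨a, ha⟩ := h3
        exact ⟨a, fun _ _ _ => ha⟩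
      · exact ⟨1, fun a' h4 h5 => absurd ⟨a', h4, h5⟩ h3⟩
    choose a ha using h2
    obtain ⟨N, hN, h3⟩ := FN.exists_forall (J := RAAG Γ ⧸ N')
      (p := fun ξ N => ∀ g, (w * a ξ)⁻¹ * g ∈ A ⊓ N' →
        (p none)⁻¹ * g * q none ∈ PS Γ (S none) ⊔ N →
        ∃ g', (w * a ξ)⁻¹ * g' ∈ A ⊓ N' ∧ (p none)⁻¹ * g' * q none ∈ PS Γ (S none))
      (fun ξ N N₁ le h g hg h4 => h g hg (sup_le_sup_left le _ h4))
      fun ξ => APX2_sep hDCS2 Γ _ _ _ _ _ hB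
    refine ⟨N ⊓ N', hN.inf hN', fun g hg h4 => ?_⟩
    obtain ⟨h5, h6⟩ := ha _ _ hg rfl
    set b := a ((w⁻¹ * g : RAAG Γ) : RAAG Γ ⧸ N')
    have h7 : (w * b)⁻¹ * g ∈ A ⊓ N' := by
      rw [mul_inv_rev, mul_assoc]
      exact ⟨A.mul_mem (A.inv_mem h5) hg, QuotientGroup.eq.1 h6⟩
    obtain ⟨g₂, h8, h9⟩ := h3 _ g h7 (sup_le_sup_left (inf_le_left : N ⊓ N' ≤ N) _ (h4 none))
    have h10 : g₂⁻¹ * g ∈ N' := by
      have e : g₂⁻¹ * g = ((w * b)⁻¹ * g₂)⁻¹ * ((w * b)⁻¹ * g) := by group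
      rw [e]
      exact mul_mem (inv_mem h8.2) h7.2
    have h11 : g₁⁻¹ * g₂ ∈ A ⊓ cj (q none) (PS Γ (S none)) := by
      refine ⟨?_, mem_cj.2 ?_⟩
      · have e : g₁⁻¹ * g₂ = (w⁻¹ * g₁)⁻¹ * b * ((w * b)⁻¹ * g₂) := by group
        rw [e]
        exact A.mul_mem (A.mul_mem (A.inv_mem hg₁) h5) h8.1
      · have e : (q none)⁻¹ * (g₁⁻¹ * g₂) * q none =
            ((p none)⁻¹ * g₁ * q none)⁻¹ * ((p none)⁻¹ * g₂ * q none) := by group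
        rw [e]
        exact mul_mem (inv_mem hs₁) h9
    obtain ⟨g', h12, h13⟩ := h1 g₂ h11 fun i => APX2_mod hN'.1 inf_le_right (h4 (some i)) h10
    refine ⟨g', ?_, fun i => ?_⟩
    · have e : w⁻¹ * g' = (w⁻¹ * g₁) * (g₁⁻¹ * g') := by group
      rw [e]
      exact mul_mem hg₁ h12.1
    · cases i with
      | some i => exact h13 i
      | none =>
        have e : (p none)⁻¹ * g' * q none =
            ((p none)⁻¹ * g₁ * q none) * ((q none)⁻¹ * (g₁⁻¹ * g') * q none) := by group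
        rw [e]
        exact mul_mem hs₁ (mem_cj.1 h12.2)

end Pool.Agent.P.MP_67c9d4_al.MX
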