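import Pool.Agent.P.MP_67c9d4_al.MX.Iface

/-! Step APX3. -/

set_option autoImplicit false
set_option linter.unusedSectionVars false

namespace Pool.Agent.P.MP_67c9d4_al.MX

open Equiv Wr Multiplicative FC FR

theorem p_APX3 (hCF : S_CF) (hAPX2 : S_APX2) :
    S_APX3 := by
  intro T _ Γ C V E _ D f hf hS ι _ e q K hK
  choose S hS using hS
  have := hK.2
  obtain ⟨N, hN, h⟩ := FN.exists_forall (J := C ⧸ K) (p := fun ξ N => ∀ g,
      (f ξ.out)⁻¹ * g ∈ K.map f → (∀ i, (e i).2⁻¹ * g * q i ∈ PS Γ (S (e i).1) ⊔ N) →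
        ∃ g', (f ξ.out)⁻¹ * g' ∈ K.map f ∧ ∀ i, (e i).2⁻¹ * g' * q i ∈ PS Γ (S (e i).1))
    (fun _ _ _ le h g h1 h2 => h g h1 fun i => sup_le_sup_left le _ (h2 i)) fun ξ =>
      hAPX2 T Γ ι (fun i => S (e i).1) (fun i => (e i).2) q _ _ ((hCF T Γ).2.2 C f K hf this)
  refine ⟨N, hN, fun g hg => ?_⟩
  have h1 : (g : C ⧸ K).out⁻¹ * g ∈ K := QuotientGroup.eq.1 (QuotientGroup.out_eq' _)
  obtain ⟨g', ⟨k, hk, e1⟩, h2⟩ := h g (f g) ⟨_, h1, by simp⟩ fun i => hS _ ▸ hg i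
  refine ⟨(g : C ⧸ K).out * k, fun i => ?_, ?_⟩
  · rw [map_mul, e1, mul_inv_cancel_left, hS]
    exact h2 i
  · rw [mul_inv_rev, mul_assoc]
    exact K.mul_mem (K.inv_mem hk) h1

end Pool.Agent.P.MP_67c9d4_al.MX
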