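import Pool.Agent.P.MP_67c9d4_al.MX.Iface

/-! Step BPIN. -/

set_option autoImplicit false
set_option linter.unusedSectionVars false

namespace Pool.Agent.P.MP_67c9d4_al.MX

open Equiv Wr Multiplicative FC FR

lemma BPIN_sub {G : Type} [Group G] (L : Subgroup G) [L.FiniteIndex] (χ : G →* MZ) :
    ∃ (K : Subgroup G) (M : ℕ), FN K ∧ 0 < M ∧ K ≤ L ∧ (∀ g, g ^ M ∈ K) ∧
      ∀ k ∈ K, (M : ℤ) ∣ (χ k).toAdd := by
  have hN := FN.core L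
  have h0 : L.normalCore.index ≠ 0 := hN.2.index_ne_zero
  have : NeZero L.normalCore.index := ⟨h0⟩
  let φ : G →* Multiplicative (ZMod L.normalCore.index) :=
    (AddMonoidHom.toMultiplicative (Int.castAddHom (ZMod L.normalCore.index))).comp χ
  have e : ∀ g, g ∈ φ.ker ↔ (L.normalCore.index : ℤ) ∣ (χ g).toAdd := fun g =>
    ZMod.intCast_zmod_eq_zero_iff_dvd _ _
  refine ⟨L.normalCore ⊓ φ.ker, L.normalCore.index, hN.inf (FN.ker φ), Nat.pos_of_ne_zero h0,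
    inf_le_left.trans L.normalCore_le, fun g => ⟨hN.pow_mem g, (e _).2 ?_⟩,
    fun k hk => (e k).1 hk.2⟩
  rw [map_pow, toAdd_pow, nsmul_eq_mul]
  exact dvd_mul_right _ _

lemma BPIN_eq {G : Type} [Group G] {χ : G →* MZ} {y z d : G} {M : ℕ} (hM : 0 < M) (h : Mal y)
    (hy : χ y = ofAdd 1) (hz : χ z = ofAdd 1) (e : d * z ^ M * d⁻¹ = y ^ M) :
    d * z * d⁻¹ = y := by
  refine h.eq hy ?_ (a := M) (by exact_mod_cast hM.ne') ?_
  · rw [map_mul, map_mul, map_inv, mul_inv_cancel_comm, hz]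
  · rw [zpow_natCast, ← e, ← conj_pow]
    exact (Commute.refl _).pow_right M

lemma BPIN_core (hCF : S_CF) (hCO : S_CO) (hIND : S_IND) (hMALZ : S_MALZ) {G : Type} [Group G]
    (hG : BP G) (χ : G →* MZ) {y : G} (hy : χ y = ofAdd 1) {Z : Set G} (hZ : Z.Finite)
    (h : ∀ z ∈ Z, χ z = ofAdd 1 ∧ ¬IsConj y z) {H₀ : Subgroup G} (h0 : FN H₀) :
    CoreOut y Z ∅ H₀ := by
  obtain ⟨tf, nz, L, hL, T, hT, Γ, f, hf, hc⟩ := hG
  have my := hMALZ G χ tf nz y hy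
  obtain ⟨K, M, hK, hM, le, hp, hd⟩ := BPIN_sub L χ
  obtain ⟨χ', hχ⟩ := exists_div χ M K hd
  have hn := hK.1
  have hi := hK.2
  have hM' : (M : ℤ) ≠ 0 := by exact_mod_cast hM.ne'
  have mem : ∀ z d : G, d⁻¹ * z ^ M * d ∈ K := fun z d => by
    simpa using hn.conj_mem _ (hp z) d⁻¹
  have one : ∀ (k : K) (z d : G), χ z = ofAdd 1 → (k : G) = d⁻¹ * z ^ M * d → χ' k = ofAdd 1 := by
    intro k z d hz e
    have h1 := hχ k
    have h3 : χ k = ofAdd (M : ℤ) := by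
      rw [e, map_mul, map_mul, map_inv, inv_mul_cancel_comm, chi_pow hz]
    rw [h3, toAdd_ofAdd] at h1
    have h2 : (χ' k).toAdd = 1 := by
      apply mul_left_cancel₀ hM'
      rw [← h1, mul_one]
    rw [← h2, ofAdd_toAdd]
  let Z' : Set K := {k | ∃ ξ : G ⧸ K, (∃ z ∈ Z, (k : G) = ξ.out⁻¹ * z ^ M * ξ.out) ∨
    (ξ.out ∉ Subgroup.zpowers y ⊔ K ∧ (k : G) = ξ.out⁻¹ * y ^ M * ξ.out)}
  have fin : Z'.Finite := by
    have h1 : ((insert y Z) ×ˢ (Set.univ : Set (G ⧸ K))).Finite :=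
      (hZ.insert y).prod Set.finite_univ
    refine (h1.image fun p => (⟨p.2.out⁻¹ * p.1 ^ M * p.2.out, mem _ _⟩ : K)).subset ?_
    rintro k ⟨ξ, ⟨z, hz, e⟩ | ⟨_, e⟩⟩
    · exact ⟨(z, ξ), ⟨Or.inr hz, trivial⟩, Subtype.ext e.symm⟩
    · exact ⟨(y, ξ), ⟨Or.inl rfl, trivial⟩, Subtype.ext e.symm⟩
  have rg : (f.comp (Subgroup.inclusion le)).range = (K.subgroupOf L).map f := by
    rw [MonoidHom.range_comp, Subgroup.inclusion_range]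
  refine hIND G K M hp hK hM y Z H₀ Z'
    (fun z hz ξ => ⟨⟨_, mem z ξ.out⟩, ⟨ξ, Or.inl ⟨z, hz, rfl⟩⟩, rfl⟩)
    (fun ξ hξ => ⟨⟨_, mem y ξ.out⟩, ⟨ξ, Or.inr ⟨hξ, rfl⟩⟩, rfl⟩) ?_
  refine hCO T Γ K (f.comp (Subgroup.inclusion le)) χ'
    (hf.comp (Subgroup.inclusion_injective le)) ?_ (tf.comap K.subtype_injective)
    (nz.comap K.subtype_injective) _ (one _ y 1 hy (by simp)) Z' fin ?_ _ (h0.comap K.subtype)
  · rw [rg]
    exact (hCF T Γ).2.2 L f _ hc inferInstance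
  · have key : ∀ (k : K) (z d : G), χ z = ofAdd 1 → (k : G) = d⁻¹ * z ^ M * d →
        IsConj (⟨y ^ M, hp y⟩ : K) k → ∃ c ∈ K, (d * c)⁻¹ * z * (d * c)⁻¹⁻¹ = y := by
      intro k z d hz e c
      obtain ⟨c, hc⟩ := isConj_iff.1 c
      refine ⟨c, c.2, BPIN_eq hM my hy hz ?_⟩
      have h1 : (c : G) * y ^ M * (c : G)⁻¹ = d⁻¹ * z ^ M * d := by
        rw [← e, ← hc]
        rfl
      calc (d * c)⁻¹ * z ^ M * (d * c)⁻¹⁻¹ = (c : G)⁻¹ * (d⁻¹ * z ^ M * d) * c := by group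
        _ = y ^ M := by rw [← h1]; group
    rintro k ⟨ξ, ⟨z, hz, e⟩ | ⟨hξ, e⟩⟩
    · refine ⟨one k z _ (h z hz).1 e, fun c => ?_⟩
      obtain ⟨c, _, e'⟩ := key k z _ (h z hz).1 e c
      exact (h z hz).2 (isConj_iff.2 ⟨_, e'⟩).symm
    · refine ⟨one k y _ hy e, fun c => hξ ?_⟩
      obtain ⟨c, hc, e'⟩ := key k y _ hy e c
      have h1 : (ξ.out * c)⁻¹ ∈ Subgroup.zpowers y := by
        refine my _ 1 one_ne_zero ?_
        rw [zpow_one]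
        exact mul_inv_eq_iff_eq_mul.1 e'
      have h2 : ξ.out = (ξ.out * c)⁻¹⁻¹ * c⁻¹ := by group
      rw [h2]
      exact Subgroup.mul_mem_sup (inv_mem h1) (inv_mem hc)

theorem p_BPIN (hCF : S_CF) (hCO : S_CO) (hIND : S_IND) (hMALZ : S_MALZ) (hHO1 : S_HO1) (hHOJ : S_HOJ) :
    S_BPIN := by
  intro G _ hG χ
  have sub : ∀ Z : Set G, ∀ z ∈ Z ∪ Set.range (Empty.elim : Empty → G),
      ∃ z₀ ∈ Z ∪ ∅, IsConj z₀ z := by
    rintro Z z (hz | ⟨v, _⟩)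
    · exact ⟨z, Or.inl hz, IsConj.refl _⟩
    · exact v.elim
  have core : ∀ y, Gen χ (Empty.elim : Empty → G) y → ∀ Z : Set G, Z.Finite →
      (∀ z ∈ Z, Gen χ (Empty.elim : Empty → G) z ∧ ¬IsConj y z) → ∀ H₀, FN H₀ →
      CoreOut y Z ∅ H₀ := fun y hy Z hZ h H₀ h0 =>
    BPIN_core hCF hCO hIND hMALZ hG χ hy.1 hZ (fun z hz => ⟨(h z hz).1.1, (h z hz).2⟩) h0
  obtain ⟨tf, nz, L, hL, T, hT, Γ, f, hf, -⟩ := hG
  refine ⟨hMALZ G χ tf nz, fun v => v.elim,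
    fun y hy Z hZ h H₀ h0 => (hHO1 G y Z _ H₀ (core y hy Z hZ h H₀ h0)).mono (sub Z),
    fun v => v.elim,
    fun y hy Z hZ h => (hHOJ G y Z _ ⊤ (core y hy Z hZ h ⊤ FN.top)).mono (sub Z),
    ⟨L, hL, T, hT, Γ, f, ∅, fun g => ?_⟩, fun v => v.elim⟩
  rw [PS_empty, map_eq_one_iff f hf, Subgroup.mem_bot, OneMemClass.coe_eq_one]

end Pool.Agent.P.MP_67c9d4_al.MX
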