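import Pool.Agent.P.MP_67c9d4_al.MX.Iface

/-! Step CF. -/

set_option autoImplicit false
set_option linter.unusedSectionVars false

namespace Pool.Agent.P.MP_67c9d4_al.MX

open Equiv Wr Multiplicative FC FR

theorem CF_one {T : Type} {Γ : SimpleGraph T} (A A' : Subgroup (RAAG Γ)) (h : CoC Γ A)
    (hle : A' ≤ A) (hi : (A'.subgroupOf A).FiniteIndex) : CoC Γ A' := by
  obtain ⟨Y, hY, h1, h2, F, hF, h3⟩ := h
  refine ⟨Y, hY, h1, fun a ha => h2 a (hle ha),
    Set.image2 (fun t u => t * u)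
      (Set.range fun q : A ⧸ A'.subgroupOf A => ((q.out : A) : RAAG Γ)⁻¹) F,
    (Set.finite_range _).image2 _ hF, fun x hx => ?_⟩
  obtain ⟨a, ha, u, hu, rfl⟩ := h3 x hx
  obtain ⟨b, hb⟩ := QuotientGroup.mk_out_eq_mul (A'.subgroupOf A) (⟨a, ha⟩ : A)⁻¹
  refine ⟨((b : A) : RAAG Γ), b.2, _, Set.mem_image2_of_mem
    ⟨QuotientGroup.mk (⟨a, ha⟩ : A)⁻¹, rfl⟩ hu, ?_⟩
  simp only [hb]
  simp [mul_assoc]

theorem p_CF :
    S_CF := by
  intro T Γ
  refine ⟨CF_one, fun A N hA hN => CF_one A _ hA inf_le_left ?_,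
    fun C _ f K hf hK => CF_one _ _ hf (Subgroup.map_le_range f K) ?_⟩
  · have := hN.2
    rw [Subgroup.inf_subgroupOf_left]
    infer_instance
  · have e : (K.map f).subgroupOf f.range = K.map f.rangeRestrict := by
      ext ⟨x, hx⟩
      simp [Subgroup.mem_subgroupOf, Subtype.ext_iff]
    rw [e]
    exact ⟨ne_zero_of_dvd_ne_zero hK.1 (Subgroup.index_map_dvd K f.rangeRestrict_surjective)⟩

end Pool.Agent.P.MP_67c9d4_al.MX
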