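import Pool.Agent.P.MP_67c9d4_al.MX.Iface

/-! Step CI. -/

set_option autoImplicit false
set_option linter.unusedSectionVars false

namespace Pool.Agent.P.MP_67c9d4_al.MX

open Equiv Wr Multiplicative FC FR

theorem p_CI (hTHK : S_THK) (hPSC : S_PSC) :
    S_CI := by
  intro T _ Γ A hA g S
  obtain ⟨r, hr⟩ := sh_exists g
  obtain ⟨Y, hY, hYr⟩ := hTHK T Γ A hA r
  obtain ⟨h1, -, h3⟩ := hPSC T Γ
  refine ⟨Y ∩ {x | g⁻¹ * x ∈ PS Γ S}, ⟨g, hYr g hr, by simp⟩, h3 _ _ hY.cvx (h1 S g), ?_, ?_⟩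
  · rintro a ⟨ha, ha'⟩ x ⟨hx, hx'⟩
    refine ⟨hY.inv a ha x hx, ?_⟩
    have := mul_mem (mem_cj.1 ha') hx'
    simpa [mul_assoc] using this
  · obtain ⟨F, hF, hYF⟩ := hY.fin
    have H : ∀ u : RAAG Γ, ∃ b ∈ A, (∃ a ∈ A, g⁻¹ * (a * u) ∈ PS Γ S) →
        g⁻¹ * (b * u) ∈ PS Γ S := fun u => by
      by_cases h : ∃ a ∈ A, g⁻¹ * (a * u) ∈ PS Γ S
      · obtain ⟨a, ha, ha'⟩ := h
        exact ⟨a, ha, fun _ => ha'⟩
      · exact ⟨1, one_mem _, fun h' => absurd h' h⟩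
    choose b hb hb' using H
    refine ⟨(fun u => b u * u) '' F, hF.image _, ?_⟩
    rintro x ⟨hx, hx'⟩
    obtain ⟨a, ha, u, hu, rfl⟩ := hYF x hx
    refine ⟨a * (b u)⁻¹, ⟨A.mul_mem ha (A.inv_mem (hb u)), mem_cj.2 ?_⟩, _, ⟨u, hu, rfl⟩, by group⟩
    have := (PS Γ S).mul_mem hx' ((PS Γ S).inv_mem (hb' u ⟨a, ha, hx'⟩))
    convert this using 1
    group

end Pool.Agent.P.MP_67c9d4_al.MX
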