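import Pool.Agent.P.MP_67c9d4_al.MX.Iface

/-! Step CLOSE. -/

set_option autoImplicit false
set_option linter.unusedSectionVars false

namespace Pool.Agent.P.MP_67c9d4_al.MX

open Equiv Wr Multiplicative FC FR

theorem p_CLOSE (hG2 : S_G2) (hG1 : S_G1) (hGATE : S_GATE) (hPSC : S_PSC) (hRECT : S_RECT) :
    S_CLOSE := by
  classical
  intro T Γ C _ f Y hf htf hz hc
  obtain ⟨F, hF, hFY⟩ := hc.fin
  refine ⟨hF.toFinset.card, fun Y₁ Y₂ s1 s2 c1 c2 ⟨p₀, hp₀⟩ ⟨q₀, hq₀⟩ k hk k1 k2 => ?_⟩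
  have ex : ∃ n, ∃ p ∈ Y₁, ∃ q ∈ Y₂, Sh Γ n (p⁻¹ * q) :=
    let ⟨L, hL⟩ := wd_surj (p₀⁻¹ * q₀); ⟨L.length, p₀, hp₀, q₀, hq₀, L, hL, le_rfl⟩
  obtain ⟨p, hp, q, hq, hpq⟩ := Nat.find_spec ex
  have gate : ∀ p ∈ Y₁, ∀ q ∈ Y₂, Sh Γ (Nat.find ex) (p⁻¹ * q) → ∀ p' ∈ Y₁, ∀ q' ∈ Y₂,
      Disjoint (Sp Γ p q) (Sp Γ p p') ∧ Sp Γ p q ⊆ Sp Γ p' q' := by
    intro p hp q hq h p' hp' q' hq'
    have d1 := (hGATE T Γ Y₁ c1 q).1 p hp
      (fun r c hc e => h.mono (Nat.find_min' ex ⟨c, hc, q, hq, e⟩)) p' hp'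
    have d2 := (hGATE T Γ Y₂ c2 p).1 q hq (fun r c hc e => by
      have := (h.mono (Nat.find_min' ex ⟨p, hp, c, hc, by simpa using e.inv⟩)).inv
      simpa using this) q' hq'
    refine ⟨d1, fun W hW => ?_⟩
    have e1 := Set.disjoint_left.1 d1 hW
    have e2 := Set.disjoint_left.1 d2 (Sp_comm p q ▸ hW)
    rw [Sp_xor p' p q', Sp_xor p q q', Sp_comm p' p]
    tauto
  have hk' : Sh Γ (Nat.find ex) ((f k * p)⁻¹ * (f k * q)) := by simpa [mul_assoc] using hpq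
  have g1 := gate p hp q hq hpq _ (k1 p hp) _ (k2 q hq)
  have g2 := gate _ (k1 p hp) _ (k2 q hq) hk' p hp q hq
  obtain ⟨L, gL, eL⟩ := (hG2 T Γ).1 (p⁻¹ * f k * p)
  obtain ⟨M, gM, eM⟩ := (hG2 T Γ).1 (p⁻¹ * q)
  have a1 : p * wd Γ L = f k * p := by rw [eL]; group
  have a2 : p * wd Γ M = q := by rw [eM]; group
  have a3 : p * (wd Γ L * wd Γ M) = f k * q := by rw [eL, eM]; group
  have adj := hRECT T Γ L M gL gM (Set.ext fun W => by
      rw [← smul_mem_Sp p, ← smul_mem_Sp p 1, a1, a2, a3, mul_one]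
      exact ⟨fun h => g2.2 h, fun h => g1.2 h⟩)
    (Set.disjoint_left.2 fun W h1 h2 => by
      rw [← smul_mem_Sp p, mul_one] at h1 h2
      rw [a1] at h1
      rw [a2] at h2
      exact Set.disjoint_left.1 g1.1 h2 h1)
  by_cases hl : M.length ≤ hF.toFinset.card
  · exact ⟨p, hp, q, hq, M, eM, hl⟩
  exfalso
  have mem : ∀ i, p * wd Γ (M.take i) ∈ Y := fun i =>
    hc.cvx p _ (M.drop i) (by rwa [List.take_append_drop]) (s1 hp)
      (by rw [List.take_append_drop, a2]; exact s2 hq)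
  choose α hα z hz' e using fun i => hFY _ (mem i)
  obtain ⟨i, hi, j, hj, ij, zz⟩ := Finset.exists_ne_map_eq_of_card_lt_of_maps_to
    (s := Finset.range (M.length + 1)) (t := hF.toFinset) (f := z)
    (by rw [Finset.card_range]; omega) fun i _ => hF.mem_toFinset.2 (hz' i)
  obtain ⟨a, ha⟩ := hα i
  obtain ⟨a', ha'⟩ := hα j
  obtain ⟨β, hβ⟩ : ∃ β, β = wd Γ (M.take j) * (wd Γ (M.take i))⁻¹ := ⟨_, rfl⟩
  have fb : f (a' * a⁻¹) = p * β * p⁻¹ := by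
    have e1 : f a = p * wd Γ (M.take i) * (z i)⁻¹ := by rw [e i, ha]; group
    have e2 : f a' = p * wd Γ (M.take j) * (z i)⁻¹ := by rw [e j, ha', zz]; group
    rw [map_mul, map_inv, e1, e2, hβ]; group
  have fk : f k = p * wd Γ L * p⁻¹ := by rw [a1]; group
  have geo : ∀ i, Geo Γ (M.take i) := fun i =>
    ((hG2 T Γ).2.2.2.1 _ (M.drop i) (by rwa [List.take_append_drop])).1
  have hb : a' * a⁻¹ ≠ 1 := fun h => by
    rw [h, map_one] at fb
    have e1 : β = 1 := by simpa using fb.symm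
    rw [hβ, mul_inv_eq_one] at e1
    have l1 := geo i _ e1
    have l2 := geo j _ e1.symm
    rw [List.length_take, List.length_take] at l1 l2
    rw [Finset.mem_range] at hi hj
    omega
  have mL : wd Γ L ∈ PS Γ {t | ∃ x ∈ L, x.1 = t} := wd_mem fun x hx => ⟨x, hx, rfl⟩
  have mM : β ∈ PS Γ {t | ∃ x ∈ M, x.1 = t} := hβ ▸ mul_mem
    (wd_mem fun x hx => ⟨x, List.mem_of_mem_take hx, rfl⟩)
    (inv_mem (wd_mem fun x hx => ⟨x, List.mem_of_mem_take hx, rfl⟩))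
  have cm : Commute (wd Γ L) β := by
    refine commute_PS (MonoidHom.id _) ?_ mM
    rintro _ ⟨y, hy, rfl⟩
    refine (commute_PS (MonoidHom.id _) (x := PresentedGroup.of y.1) ?_ mL).symm
    rintro _ ⟨x, hx, rfl⟩
    exact of_comm (adj x hx y hy).symm
  have cm' : Commute k (a' * a⁻¹) := hf (by
    rw [map_mul f k, map_mul f _ k, fb, fk]
    simp only [mul_assoc, inv_mul_cancel_left]
    rw [← mul_assoc (wd Γ L), cm.eq, mul_assoc])
  obtain ⟨m, n, hmn, e1⟩ := hz.comm cm'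
  have e2 : wd Γ L ^ m * β ^ n = 1 := by
    have := congrArg f e1
    rw [map_mul, map_zpow, map_zpow, fb, fk, conj_zpow, conj_zpow, map_one] at this
    have h2 : p * (wd Γ L ^ m * β ^ n) * p⁻¹ = 1 := by rw [← this]; group
    simpa using h2
  have e3 : wd Γ L ^ m = 1 := (hPSC T Γ).2.1 _ {t | ∃ x ∈ M, x.1 = t}
    (Set.disjoint_left.2 (by
      rintro _ ⟨x, hx, rfl⟩ ⟨y, hy, ey⟩
      exact (adj x hx y hy).ne ey.symm))
    _ (zpow_mem mL m) (by rw [eq_inv_of_mul_eq_one_left e2]; exact inv_mem (zpow_mem mM n))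
  have e4 : k ^ m = 1 := hf (by rw [map_zpow, fk, conj_zpow, e3, map_one]; group)
  rw [e4, one_mul] at e1
  exact hmn.elim (fun h => hk (htf.zpow h e4)) fun h => hb (htf.zpow h e1)

end Pool.Agent.P.MP_67c9d4_al.MX
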