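import Pool.Agent.P.MP_67c9d4_al.MX.Iface

/-! Step CO. -/

set_option autoImplicit false
set_option linter.unusedSectionVars false

namespace Pool.Agent.P.MP_67c9d4_al.MX

open Equiv Wr Multiplicative FC FR

theorem p_CO (hDA : S_DA) (hNEL : S_NEL) (hACY : S_ACY) (hAPX3 : S_APX3) (hCOREb : S_COREb) (hMALZ : S_MALZ) :
    S_CO := by
  intro T _ Γ C _ f χ hf hc htf hz y hy Z hZ hZ' H₀ hH
  have h1 : f y ≠ 1 := by
    intro e
    rw [hf (e.trans (map_one f).symm), map_one] at hy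
    simpa using congrArg toAdd hy
  obtain ⟨a, ha⟩ := hNEL T Γ (f y) h1
  obtain ⟨D, hT, hS, hG, hP⟩ := hDA T Γ a
  have hP' : ∀ k, ∃ S, D.P k = PS Γ S := fun k => ⟨_, hP k⟩
  have hne : ¬D.Ell (f y) := by
    rintro ⟨v, c, h⟩
    exact ha c (hG ▸ h)
  obtain ⟨X, hX, σ, n, w, S, e1, e2, e3, e4, -, e6⟩ := hCOREb C (RAAG Γ) Unit Unit D f χ hT hS
    (hAPX3 T Γ C Unit Unit D f hc hP') (hACY T Γ C Unit Unit D f hT hf hc htf hz hP') () y hne hy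
    (hMALZ C χ htf hz y hy) Z hZ hZ' H₀ hH
  exact ⟨X, hX, σ, n, w, S, e1, e2, e3, e4, fun _ h => h.elim, e6⟩

end Pool.Agent.P.MP_67c9d4_al.MX
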