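import Pool.Agent.P.MP_67c9d4_al.MX.Iface

/-! Step COPH. -/

set_option autoImplicit false
set_option linter.unusedSectionVars false

namespace Pool.Agent.P.MP_67c9d4_al.MX

open Equiv Wr Multiplicative FC FR

theorem p_COPH :
    S_COPH := by
  intro A C B A₁ B₁ _ _ _ _ _ i i' k i₁ a g s₀ s₁ hF h₀ h₂
  obtain ⟨j, e1, e2⟩ := h₀.up B₁ (i₁.comp i) s₁ h₂.rel
  refine ⟨j, e1, e2, ?_, fun W _ f z => ?_⟩
  · rw [eq_top_iff, ← h₂.gen, Subgroup.closure_le]
    rintro w (⟨w, rfl⟩ | rfl)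
    · have h1 : ⊤ ≤ (Subgroup.closure (Set.range j ∪ Set.range (i₁.comp i'))).comap i₁ := by
        rw [← hF.gen, Subgroup.closure_le]
        rintro w (⟨w, rfl⟩ | ⟨c, rfl⟩)
        · exact Subgroup.subset_closure (Or.inl ⟨_, e1 w⟩)
        · exact Subgroup.subset_closure (Or.inr ⟨c, rfl⟩)
      exact h1 trivial
    · exact Subgroup.subset_closure (Or.inl ⟨_, e2⟩)
  · obtain ⟨F₀, h1, h2⟩ := hF.up W (f.comp k) z
    obtain ⟨F, h3, h4⟩ := h₂.up W F₀ (f s₀) (by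
      rw [h1, h1, MonoidHom.comp_apply, MonoidHom.comp_apply, ← map_inv, ← map_mul, ← map_mul,
        h₀.rel])
    refine ⟨F, fun c => DFunLike.congr_fun (h₀.ext (F := F.comp j) (fun c => ?_) ?_) c,
      fun c => (h3 _).trans (h2 c)⟩
    · rw [MonoidHom.comp_apply, e1, MonoidHom.comp_apply, h3, h1, MonoidHom.comp_apply]
    · rw [MonoidHom.comp_apply, e2, h4]

end Pool.Agent.P.MP_67c9d4_al.MX
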