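import Pool.Agent.P.MP_67c9d4_al.MX.Iface
import Pool.Agent.P.MP_67c9d4_al.FC.CORE2

/-! Step CORE2b. -/

set_option autoImplicit false
set_option linter.unusedSectionVars false

namespace Pool.Agent.P.MP_67c9d4_al.MX

open Equiv Wr Multiplicative FC FR

open CORE2x in
theorem p_CORE2b (hKAP : S_KAP) (hETA : S_ETA) :
    S_CORE2b := by
  intro C H V E J _ _ _ D f N H₀ u c l j₀ hT hN hA hE hP
  have := hN.2
  have hN' : FN (N.comap f) := hN.comap f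
  have := hN'.2
  have := Fintype.ofFinite (C ⧸ N.comap f)
  let π : C ⧸ N.comap f → H ⧸ N := Quotient.map' f fun a b h => by
    rw [QuotientGroup.leftRel_apply] at h ⊢
    rw [← map_inv, ← map_mul]
    exact h
  have πm : ∀ a : C, π (a : C ⧸ N.comap f) = (f a : H ⧸ N) := fun _ => rfl
  have πq : ∀ h x, π (qa (N.comap f) h x) = qa N (f h) (π x) := fun h x => by
    obtain ⟨a, rfl⟩ := QuotientGroup.mk_surjective x
    rw [qa_mk, πm, πm, qa_mk, map_mul]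
  have π1 : π ((1 : C) : C ⧸ N.comap f) = ((1 : H) : H ⧸ N) := by rw [πm, map_one]
  obtain ⟨Ev, hM, hp, hv, -, -, hs⟩ := hKAP H V E (H ⧸ N) D (qa N) hT
  choose o r o0 r0 hor ho using fun j => exists_ord hN (f (u j))
  have uo : ∀ j, f (u j) ^ (o j : ℤ) ∈ N := fun j => (ho j _).2 dvd_rfl
  let w : J × (H ⧸ N) → ℕ → (E × Set (H ⧸ N)) × Bool := fun q i => TD.lab D (qa N) (c q.1 i) q.2
  let n : J × (H ⧸ N) → ℕ := fun q => l q.1 * o q.1
  let S₀ : Set (E × Set (H ⧸ N)) := {s | ∃ i, s = (TD.lab D (qa N) (c j₀ i) ((1 : H) : H ⧸ N)).1}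
  let P : J × (H ⧸ N) → Prop := fun q => ∃ i < n q, (w q i).1 ∉ S₀
  have inj : ∀ q, ∀ i < n q, ∀ i' < n q, (w q i).1 = (w q i').1 → i = i' := fun q =>
    lab_inj hN.1 (hA q.1) (hE q.1) (fun m => (ho q.1 m).1) q.2
  obtain ⟨Y, _, y₀, y₁, M, η, M0, -, hη, e1, e2, e3⟩ := hETA _ {q // P q} S₀
    (TD.lab D (qa N) (c j₀ 0) ((1 : H) : H ⧸ N)).1 (fun q => w q.1) (fun q => n q.1) ⟨0, rfl⟩
    (fun q => inj q.1) fun q => q.2
  obtain ⟨ε, ε0, hε⟩ : ∃ ε : ℤ, ε ≠ 0 ∧ ex (TD.lab D (qa N) (c j₀ 0) ((1 : H) : H ⧸ N)).1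
      (lt (TD.lab D (qa N) (c j₀ 0) ((1 : H) : H ⧸ N))) = ofAdd ε :=
    (ex_lt _).elim (fun h => ⟨1, by norm_num, h⟩) fun h => ⟨-1, by norm_num, h⟩
  let v₀ := D.vt (c j₀ 0).1
  let A : J × (H ⧸ N) → FreeGroup (E × Set (H ⧸ N)) := fun q =>
    (Ev v₀ (D.vt (c q.1 0).1) (c q.1 0).2).c q.2
  let κ : C →* Wr (C ⧸ N.comap f) (FreeGroup (E × Set (H ⧸ N))) :=
    Wr.pull (qa (N.comap f)) ((hM.hom v₀).comp f) π fun h x => by
      rw [πq, MonoidHom.comp_apply, hM.hom_apply, hp]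
  have κp : ∀ h, (κ h).p = qa (N.comap f) h := fun _ => rfl
  let σ : C →* Wr ((C ⧸ N.comap f) × Y) (FreeGroup Bool) := flat.comp ((push η).comp κ)
  have σc : ∀ h x, (σ h).c x = (η ((Ev v₀ v₀ (f h)).c (π x.1))).c x.2 := fun _ _ => rfl
  have σp : ∀ h x, ((σ h).p x).1 = qa (N.comap f) h x.1 := fun h x => rfl
  have val : ∀ j x, IsConj ((η (rd (w (j, π x.1)) (n (j, π x.1)) ^ M)).c
      ((η (A (j, π x.1))).p⁻¹ x.2) ^ r j) ((σ (u j ^ (N.index * M))).c x) := fun j x => by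
    have h1 := hs (fun i => c j i) (l j * o j) (fun i _ => by
      simpa only [Nat.cast_add, Nat.cast_one] using (hA j).lk i) (π x.1)
    have h2 := (hA j).zper 0 (o j)
    rw [zero_add, zpow_natCast] at h2
    simp only [Nat.cast_mul, Nat.cast_zero, h2, TD.act, ← mul_assoc] at h1
    rw [σc, map_pow f, ← hor j, mul_assoc, pow_mul, key hN.1 hM hp v₀ (D.vt (c j 0).1) (c j 0).2
      (by simpa using uo j), h1]
    exact eta_conj hη _ _ _ _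
  have out : ∀ j x, P (j, π x.1) → ∃ i : ℤ,
      IsConj ((al * be) ^ i) ((σ (u j ^ (N.index * M))).c x) := fun j x h => by
    obtain ⟨i, hi⟩ := e1 ⟨_, h⟩ ((η (A (j, π x.1))).p⁻¹ x.2)
    exact ⟨_, conj_zpow_pow hi (val j x)⟩
  have all : ∀ q, ¬P q → ∀ i : ℤ, (TD.lab D (qa N) (c q.1 i) q.2).1 ∈ S₀ := fun q h i => by
    obtain ⟨i', h1, h2⟩ := lab_mod hN.1 (hA q.1) (o0 _) (uo _) q.2 i
    rw [← h2]
    exact not_not.1 fun h3 => h ⟨i', h1, h3⟩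
  have par := fun j (g : C) (h : ¬P (j, f g)) => hP j g (all _ h)
  have mem : ∀ q, ¬P q → rd (w q) (n q) ^ M ∈ FS S₀ := fun q h =>
    pow_mem (rd_mem (fun i => all q h i) _) M
  have exv : ∀ x, ¬P (j₀, π x) → (ex (TD.lab D (qa N) (c j₀ 0) ((1 : H) : H ⧸ N)).1
      (rd (w (j₀, π x)) (n (j₀, π x)) ^ M)).toAdd = M * ε := fun x h => by
    obtain ⟨g, rfl⟩ := QuotientGroup.mk_surjective x
    obtain ⟨-, -, d, hd⟩ := par j₀ g h
    obtain ⟨i, h1, h2⟩ := lab_mod hN.1 (hA j₀) (o0 _) (uo _) (f g) (0 + d)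
    have h3 := ex_rd (inj (j₀, f g)) h1
    rw [show w (j₀, f g) i = _ from h2.trans (hd 0).symm] at h3
    rw [πm, map_pow, h3, hε, toAdd_pow, toAdd_ofAdd, nsmul_eq_mul]
  refine ⟨(C ⧸ N.comap f) × Y, inferInstance, σ, N.index * M, M * ε * r j₀,
    {x | ¬P (j₀, π x.1) ∧
      ((η (A (j₀, π x.1))).p⁻¹ x.2 = y₀ ∨ (η (A (j₀, π x.1))).p⁻¹ x.2 = y₁)},
    Nat.mul_pos (Nat.pos_of_ne_zero hN.2.index_ne_zero) M0,
    mul_ne_zero (mul_ne_zero (Nat.cast_ne_zero.2 M0.ne') ε0) (Nat.cast_ne_zero.2 (r0 _).ne'),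
    fun h => ?_, ⟨((1 : C), (η (A (j₀, π (1 : C)))).p y₀),
      fun ⟨i, _, hi⟩ => hi ⟨i, by rw [← π1]⟩, .inl (by simp)⟩, ?_, ?_, fun x hx => ?_, fun x hx => ?_, ?_, fun h => ?_⟩
  · have h1 : (κ (h ^ N.index)).p = 1 := by
      rw [κp, (qa_eq_one hN'.1).2 (Subgroup.mem_comap.2 (by rw [map_pow]; exact hN.pow_mem _))]
    have h2 : (κ (h ^ (N.index * M))).p = 1 := by
      rw [pow_mul, map_pow _ (h ^ N.index), pow_p, h1, one_pow]
    refine Equiv.ext fun x => ?_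
    change ((κ (h ^ (N.index * M))).p x.1, (η ((κ (h ^ (N.index * M))).c
      ((κ (h ^ (N.index * M))).p x.1))).p x.2) = x
    rw [h2, pow_mul, map_pow _ (h ^ N.index), pow_c h1, hη]
    rfl
  · rintro g ⟨v, p, hg⟩ m x hx
    have h1 : f (g ^ m) ∈ N :=
      Subgroup.mem_comap.1 ((qa_fix hN'.1 x.1).1 (by rw [← σp, hx]))
    have h2 : p⁻¹ * f (g ^ m) * p ∈ D.G v := by
      have h := pow_mem hg m
      rwa [← inv_inv p, inv_inv p⁻¹, conj_pow, inv_inv, ← map_pow] at h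
    rw [σc, conj_val hN.1 hM hp v₀ v p h1, hv v _ h2, mul_one, mul_inv_cancel, map_one, one_c]
  · rintro _ ⟨j, hj, rfl⟩ ⟨x, y⟩
    obtain ⟨g, rfl⟩ := QuotientGroup.mk_surjective x
    exact out j _ (not_not.1 fun h => hj (par j g h).1)
  · obtain ⟨-, h1, h2, -⟩ := e2 _ (mem _ hx.1)
    have h3 := val j₀ x
    rw [exv _ hx.1] at h1 h2
    refine hx.2.imp (fun h => ?_) fun h => ?_
    · rw [h, h1] at h3
      exact conj_zpow_pow (IsConj.refl _) h3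
    · rw [h, h2] at h3
      exact conj_zpow_pow (IsConj.refl _) h3
  · by_cases h : P (j₀, π x.1)
    · exact out j₀ x h
    have h3 := val j₀ x
    rw [(e2 _ (mem _ h)).2.2.2 _ (fun e => hx ⟨h, .inl e⟩) fun e => hx ⟨h, .inr e⟩, one_pow] at h3
    exact ⟨0, h3⟩
  · rintro h ⟨x, y⟩ h1 h2
    obtain ⟨g, rfl⟩ := QuotientGroup.mk_surjective x
    have h3 := h2.1
    rw [σp, qa_mk] at h3
    exact (Subgroup.mul_mem_cancel_right _ (par j₀ g h1.1).2.1).1 (par j₀ _ h3).2.1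
  · rw [tot_apply, Fintype.prod_prod_type]
    exact Finset.prod_eq_one fun x _ => e3 ((Ev v₀ v₀ (f h)).c (π x))

end Pool.Agent.P.MP_67c9d4_al.MX
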