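import Pool.Agent.P.MP_67c9d4_al.MX.Iface

/-! Step COREb. -/

set_option autoImplicit false
set_option linter.unusedSectionVars false

namespace Pool.Agent.P.MP_67c9d4_al.MX

open Equiv Wr Multiplicative FC FR

theorem p_COREb (hAXIS : S_AXIS) (hCORE1b : S_CORE1b) (hCORE2b : S_CORE2b) :
    S_COREb := by
  intro C H V E _ _ D f χ hT hSp hA hC v y hy hχ hM Z hZ hZ' H₀ hH₀
  have : Finite {z // z ∈ Z ∧ ¬D.Ell (f z)} :=
    (hZ.subset (t := {z | z ∈ Z ∧ ¬D.Ell (f z)}) fun z hz => hz.1).to_subtype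
  let u : Option {z // z ∈ Z ∧ ¬D.Ell (f z)} → C := fun j => j.elim y fun z => z.1
  have hu : ∀ j, ¬D.Ell (f (u j)) := by
    rintro (_ | z)
    · exact hy
    · exact z.2.2
  choose c l hc using fun j => hAXIS H V E D hT v (f (u j)) (hu j)
  have h1 : ∀ j, χ (u j) = ofAdd 1 := by
    rintro (_ | z)
    · exact hχ
    · exact (hZ' z.1 z.2.1).1
  have h2 : ∀ j, IsConj (u none) (u j) → j = none := by
    rintro (_ | z) h
    · rfl
    · exact absurd h (hZ' z.1 z.2.1).2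
  obtain ⟨N, hN, hE, hP⟩ := hCORE1b C H V E _ D f χ u c l none hT hSp hA hC hc h1 hM h2 H₀ hH₀
  obtain ⟨X, iX, σ, n, w, S, a1, a2, a3, a4, a5, a6, a7⟩ :=
    hCORE2b C H V E _ D f N H₀ u c l none hT hN hc hE hP
  refine ⟨X, iX, σ, n, w, S, a1, a2, a3, a4, a5, fun z hz x => ?_, a7⟩
  by_cases he : D.Ell (f z)
  · refine ⟨0, ?_⟩
    rw [zpow_zero, a5 z he n x (by rw [a3 z]; rfl)]
  · exact a6 z ⟨some ⟨z, hz, he⟩, by simp, rfl⟩ x

end Pool.Agent.P.MP_67c9d4_al.MX
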