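import Pool.Agent.P.MP_67c9d4_al.MX.Iface
import Pool.Agent.P.MP_67c9d4_al.SP.Spec

/-! Step CSC. -/

set_option autoImplicit false
set_option linter.unusedSectionVars false

namespace Pool.Agent.P.MP_67c9d4_al.MX

open Equiv Wr Multiplicative FC FR

section
variable {X : SqCx} {T : Type} {Γ : SimpleGraph T} {lb : X.D → T × Bool}

/-- Moves along labelled edges. -/
def CSC_mv (lb : X.D → T × Bool) (x : T × Bool) (y y' : X.V) : Prop :=
  ∃ a, X.o a = y ∧ lb a = x ∧ X.o (X.r a) = y'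

lemma CSC_cx (h : SP.Loc X Γ lb) : Cx Γ (CSC_mv lb) where
  det := by
    rintro _ _ _ _ ⟨a, rfl, rfl, rfl⟩ ⟨b, e, e', rfl⟩
    rw [h.inj _ _ e e']
  inv := by
    rintro _ _ _ ⟨a, rfl, rfl, rfl⟩
    exact ⟨X.r a, rfl, h.rev a, by rw [X.rr]⟩
  sq := by
    rintro _ _ _ _ _ adj ⟨a, rfl, rfl, rfl⟩ ⟨b, e, rfl, rfl⟩
    obtain ⟨c, d, hs⟩ := h.full a b e.symm adj
    have hs1 := X.rot _ _ _ _ hs
    have hs2 := X.rot _ _ _ _ hs1
    have hs3 := X.rot _ _ _ _ hs2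
    refine ⟨X.o d, ⟨X.r d, X.path _ _ _ _ hs3, ?_, by rw [X.rr]⟩,
      c, (X.path _ _ _ _ hs1).symm, ?_, X.path _ _ _ _ hs2⟩
    · rw [h.rev, (h.sq _ _ _ _ hs1).2]; simp
    · rw [(h.sq _ _ _ _ hs).2, h.rev]; simp

lemma CSC_walk {L : List (T × Bool)} {y y' : X.V} :
    Walk (CSC_mv lb) L y y' ↔ ∃ p, X.Pth y p y' ∧ p.map lb = L := by
  constructor
  · intro h
    induction h with
    | nil y => exact ⟨[], .nil y, rfl⟩
    | cons h _ ih =>
      obtain ⟨a, rfl, rfl, rfl⟩ := h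
      obtain ⟨p, hp, rfl⟩ := ih
      exact ⟨a :: p, .cons a hp, rfl⟩
  · rintro ⟨p, hp, rfl⟩
    induction hp with
    | nil v => exact .nil v
    | cons a _ ih => exact .cons ⟨a, rfl, rfl, rfl⟩ ih

lemma CSC_end {y y' : X.V} {p : List X.D} (h : X.Pth y p y') : y' = y ∨ y' ∈ Set.range X.o := by
  induction h with
  | nil v => exact .inl rfl
  | cons a _ ih => exact .inr (ih.elim (fun e => ⟨_, e.symm⟩) id)

end

theorem p_CSC (hCXC : S_CXC) :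
    S_CSC := by
  rintro K _ ⟨X, v, hfin, h, θ, h1, h2⟩
  choose p hp e using h1
  have key : ∀ q q', X.Pth v q v → X.Pth v q' v →
      (wd (SP.cross h) (q.map SP.lab) = wd _ (q'.map SP.lab) ↔ θ q = θ q') := fun q q' hq hq' =>
    ((SP.loc_lab h).iff hq hq').trans (h2 q q' hq hq').2.symm
  refine ⟨_, Quotient.finite _, SP.cross h,
    MonoidHom.mk' (fun k => wd _ ((p k).map SP.lab)) fun k l => ?_, fun k l hk => ?_, ?_⟩
  · rw [← wd_append, ← List.map_append, key _ _ (hp _) (SP.pth_append.2 ⟨_, hp k, hp l⟩),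
      (h2 _ _ (hp k) (hp l)).1, e, e, e]
  · rw [← e k, ← e l]; exact (key _ _ (hp k) (hp l)).1 hk
  · refine hCXC _ X.V _ (CSC_mv SP.lab) v (CSC_cx (SP.loc_lab h))
      (((Set.finite_range X.o).insert v).subset ?_) _ fun g => ⟨?_, ?_⟩
    · rintro y ⟨L, hL⟩
      obtain ⟨q, hq, -⟩ := CSC_walk.1 hL
      exact CSC_end hq
    · rintro ⟨k, rfl⟩
      exact ⟨_, rfl, CSC_walk.2 ⟨p k, hp k, rfl⟩⟩
    · rintro ⟨L, rfl, hL⟩
      obtain ⟨q, hq, rfl⟩ := CSC_walk.1 hL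
      exact ⟨θ q, (key _ _ (hp _) hq).2 (e _)⟩

end Pool.Agent.P.MP_67c9d4_al.MX
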