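import Pool.Agent.P.MP_67c9d4_al.MX.Iface

/-! Step CXC. -/

set_option autoImplicit false
set_option linter.unusedSectionVars false

namespace Pool.Agent.P.MP_67c9d4_al.MX

open Equiv Wr Multiplicative FC FR

theorem CXC_rev {T Y : Type} {Γ : SimpleGraph T} {Mv : T × Bool → Y → Y → Prop} (h : Cx Γ Mv)
    {L : List (T × Bool)} {y y' : Y} (w : Walk Mv L y y') : Walk Mv (FreeGroup.invRev L) y' y := by
  induction w with
  | nil y => exact Walk.nil y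
  | cons hm _ ih =>
    rw [FreeGroup.invRev_cons]
    exact ih.append (Walk.cons (h.inv _ _ _ hm) (Walk.nil _))

theorem CXC_split {T Y : Type} {Mv : T × Bool → Y → Y → Prop} (L₁ L₂ : List (T × Bool)) :
    ∀ {y y' : Y}, Walk Mv (L₁ ++ L₂) y y' → ∃ z, Walk Mv L₁ y z := by
  induction L₁ with
  | nil => exact fun {y _} _ => ⟨y, Walk.nil y⟩
  | cons x L ih =>
    intro y y' w
    cases w with
    | cons hm w =>
      obtain ⟨z, hz⟩ := ih w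
      exact ⟨z, Walk.cons hm hz⟩

theorem p_CXC (hGW : S_GW) :
    S_CXC := by
  intro T Y Γ Mv y₀ h hfin A hA
  refine ⟨{g | ∃ L y, wd Γ L = g ∧ Walk Mv L y₀ y}, ⟨1, [], y₀, rfl, Walk.nil _⟩, ?_, ?_, ?_⟩
  · rintro _ L₁ L₂ hg ⟨K₁, y₁, rfl, w₁⟩ ⟨K₂, y₂, e, w₂⟩
    obtain ⟨z, hz⟩ := CXC_split L₁ L₂ (hGW T Y Γ Mv h _ _ _ _ ((CXC_rev h w₁).append w₂) hg (by
      rw [wd_append (FreeGroup.invRev K₁), wd_invRev, e, inv_mul_cancel_left]))
    exact ⟨K₁ ++ L₁, z, wd_append _ _, w₁.append hz⟩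
  · rintro a ha _ ⟨L, y, rfl, w⟩
    obtain ⟨K, rfl, w'⟩ := (hA a).1 ha
    exact ⟨K ++ L, y, wd_append _ _, w'.append w⟩
  · have := hfin.to_subtype
    choose c hc using fun y : {y | ∃ L, Walk Mv L y₀ y} => y.2
    refine ⟨Set.range fun y => wd Γ (c y), Set.finite_range _, ?_⟩
    rintro _ ⟨L, y, rfl, w⟩
    refine ⟨_, (hA _).2 ⟨_, rfl, w.append (CXC_rev h (hc ⟨y, L, w⟩))⟩, _, ⟨⟨y, L, w⟩, rfl⟩, ?_⟩
    rw [wd_append, wd_invRev, inv_mul_cancel_right]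

end Pool.Agent.P.MP_67c9d4_al.MX
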