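import Pool.Agent.P.MP_67c9d4_al.MX.Iface

/-! Step DA. -/

set_option autoImplicit false
set_option linter.unusedSectionVars false

namespace Pool.Agent.P.MP_67c9d4_al.MX

open Equiv Wr Multiplicative FC FR

section
variable {T : Type} (Γ : SimpleGraph T) (a : T)

lemma DA_comm {g : RAAG Γ} (hg : g ∈ PS Γ (Γ.neighborSet a)) :
    Commute (PresentedGroup.of a : RAAG Γ) g :=
  commute_PS (MonoidHom.id _) (fun _ hb => of_comm hb) hg

lemma DA_eps (k : Unit × Bool) {g : RAAG Γ} (hg : g ∈ PS Γ (Γ.neighborSet a)) :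
    Commute (bif k.2 then (PresentedGroup.of a : RAAG Γ) else (PresentedGroup.of a)⁻¹) g := by
  obtain ⟨_, _ | _⟩ := k
  · exact (DA_comm Γ a hg).inv_left
  · exact DA_comm Γ a hg

lemma DA_le : PS Γ (Γ.neighborSet a) ≤ PS Γ {a}ᶜ :=
  Subgroup.closure_mono (Set.image_mono fun _ hb e => Γ.irrefl (v := a) (by
    have h : Γ.Adj a _ := hb
    rwa [Set.mem_singleton_iff.1 e] at h))

/-- The splitting along the letter `a`. -/
def DA_td : TD (RAAG Γ) Unit Unit where
  vt _ := ()
  G _ := PS Γ {a}ᶜ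
  P _ := PS Γ (Γ.neighborSet a)
  ε k := bif k.2 then PresentedGroup.of a else (PresentedGroup.of a)⁻¹
  le _ := DA_le Γ a
  inv k := by obtain ⟨_, _ | _⟩ := k <;> simp [bar]
  conj k g := by
    constructor
    · intro hg
      rwa [(DA_eps Γ a k hg).eq, mul_inv_cancel_right]
    · intro hg
      have h := (DA_eps Γ a k hg).eq
      rw [inv_mul_cancel_right, mul_left_cancel_iff] at h
      rwa [← h]

lemma DA_gen (h : RAAG Γ) : (DA_td Γ a).Pth () () h := by
  obtain ⟨L, rfl⟩ := wd_surj h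
  induction L with
  | nil => exact TD.Pth.vtx (one_mem _)
  | cons x L ih =>
    rw [wd_cons]
    refine TD.Pth.mul (v := ()) ?_ ih
    by_cases hx : x.1 = a
    · obtain ⟨b, _ | _⟩ := x
      · obtain rfl : b = a := hx
        rw [wd_false]
        exact TD.Pth.edge (D := DA_td Γ b) ((), false)
      · obtain rfl : b = a := hx
        exact TD.Pth.edge (D := DA_td Γ b) ((), true)
    · exact TD.Pth.vtx (wd_mem (S := {a}ᶜ) fun y hy => by
        rw [List.mem_singleton.1 hy]; exact hx)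

lemma DA_tree : (DA_td Γ a).Tree := by
  classical
  refine ⟨fun _ _ h => DA_gen Γ a h, fun W _ σ γ h1 h2 h3 => ?_⟩
  have hm : Hm (PS Γ {a}ᶜ) (σ ()) := h1 ()
  have hmem : ∀ b, b ≠ a → (PresentedGroup.of b : RAAG Γ) ∈ PS Γ {a}ᶜ := fun b hb =>
    Subgroup.subset_closure ⟨b, hb, rfl⟩
  have hc : ∀ b, Γ.Adj a b → Commute (γ ((), true)) (σ () (PresentedGroup.of b)) := by
    intro b hb
    have h := h3 ((), true) (PresentedGroup.of b) (Subgroup.subset_closure ⟨b, hb, rfl⟩)
    have e : (DA_td Γ a).ε ((), true) * PresentedGroup.of b * ((DA_td Γ a).ε ((), true))⁻¹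
        = PresentedGroup.of b := by
      change (PresentedGroup.of a : RAAG Γ) * _ * (PresentedGroup.of a)⁻¹ = _
      rw [(of_comm hb).eq, mul_inv_cancel_right]
    rw [e] at h
    exact (eq_mul_inv_iff_mul_eq.1 h).symm
  obtain ⟨F, hF⟩ := raag_lift (Γ := Γ)
    (fun b => if b = a then γ ((), true) else σ () (PresentedGroup.of b)) (by
      intro b c adj
      by_cases hb : b = a
      · subst hb
        rw [if_pos rfl, if_neg adj.ne']
        exact hc c adj
      · by_cases hc' : c = a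
        · subst hc'
          rw [if_pos rfl, if_neg hb]
          exact (hc b adj.symm).symm
        · rw [if_neg hb, if_neg hc']
          change _ * _ = _ * _
          rw [← hm _ (hmem b hb) _ (hmem c hc'), ← hm _ (hmem c hc') _ (hmem b hb),
            (of_comm adj).eq])
  refine ⟨fun _ _ h => F h, fun _ _ _ g h => (map_mul F g h).symm, fun _ g hg => ?_, fun k => ?_⟩
  · refine (hm_hom _ F).ext_closure hm le_rfl ?_ g hg
    rintro _ ⟨b, hb, rfl⟩
    rw [hF, if_neg (show ¬b = a from hb)]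
  · obtain ⟨_, _ | _⟩ := k
    · change F (PresentedGroup.of a)⁻¹ = γ (bar ((), true))
      rw [map_inv, hF, if_pos rfl, h2]
    · change F (PresentedGroup.of a) = γ ((), true)
      rw [hF, if_pos rfl]

end

theorem p_DA (hDCS : S_DCS) :
    S_DA := by
  intro T _ Γ a
  refine ⟨DA_td Γ a, DA_tree Γ a, fun k h hh => ?_, rfl, fun _ => rfl⟩
  obtain ⟨N, hN, h1⟩ := hDCS T Γ (Γ.neighborSet a) ∅ 1 h (by
    rintro ⟨b, hb, c, hc, e⟩
    rw [PS_empty.1 hb, one_mul, one_mul] at e
    exact hh (e ▸ hc))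
  refine ⟨N, hN, fun h2 => ?_⟩
  obtain ⟨c, hc, h3⟩ := (mem_sup_left' hN.1).1 h2
  exact h1 _ (inv_mem h3) ⟨1, one_mem _, c, hc, by group⟩

end Pool.Agent.P.MP_67c9d4_al.MX
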