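import Pool.Agent.P.MP_67c9d4_al.MX.Iface
import Pool.Agent.P.MP_67c9d4_al.FC.DBL

/-! Step DBL2. -/

set_option autoImplicit false
set_option linter.unusedSectionVars false

namespace Pool.Agent.P.MP_67c9d4_al.MX

open Equiv Wr Multiplicative FC FR

open DBLx in
theorem p_DBL2 (hDBL12 : S_DBL12) :
    S_DBL2 := by
  intro C I _
  induction I using Finite.induction_empty_option with
  | of_equiv e ih =>
    intro A B d hC hA hB
    obtain ⟨H, h1, i, x, σ, h2, h3, h4⟩ :=
      ih (A ∘ e) (B ∘ e) (d ∘ e) hC (fun k => hA _) fun k => hB _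
    exact ⟨H, h1, i, _, _, ext_equiv e h2, h3, fun k => by simp [h4]⟩
  | h_empty =>
    intro A B d hC _ _
    refine ⟨C, hC, MonoidHom.id _, PEmpty.elim, PEmpty.elim, ⟨fun k => k.elim, ?_,
      fun W _ f _ _ _ => ⟨f, fun _ => rfl, fun k => k.elim, fun k => k.elim⟩⟩, fun _ => rfl,
      fun k => k.elim⟩
    exact eq_top_iff.2 fun a _ => Subgroup.subset_closure (Or.inl (Or.inl ⟨a, rfl⟩))
  | h_option ih =>
    intro A B d hC hA hB
    obtain ⟨H, h1, i, x, σ, h2, h3, h4⟩ :=
      ih (A ∘ some) (B ∘ some) (d ∘ some) hC (fun k => hA _) fun k => hB _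
    obtain ⟨H', h5, j, x', σ', h6, h7, h8⟩ := hDBL12 H (i (A none)) (i (B none)) (d none) h1
      ((h3 _).trans (hA _)) ((h3 _).trans (hB _))
    refine ⟨H', h5, j.comp i, _, _, ext_option h2 h6, fun c => (h7 _).trans (h3 c), fun k => ?_⟩
    cases k with
    | none => exact h8
    | some k => exact (h7 _).trans (h4 k)

end Pool.Agent.P.MP_67c9d4_al.MX
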