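import Pool.Agent.P.MP_67c9d4_al.MX.Iface

/-! Step FCO. -/

set_option autoImplicit false
set_option linter.unusedSectionVars false

namespace Pool.Agent.P.MP_67c9d4_al.MX

open Equiv Wr Multiplicative FC FR

theorem p_FCO (hFTD : S_FTD) (hMAL : S_MAL) (hCORE : S_CORE) :
    S_FCO := by
  intro A C H _ _ _ i i' h hRF χ y hy hχ
  obtain ⟨D, hT, -, -, -, hI, hE, hS⟩ := hFTD A C H i i' h
  have hy' : ¬D.Ell y := fun e => hy ((hE y).1 e)
  have hM := hMAL H Bool Unit D χ hT hI true y hy' hχ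
  refine ⟨hM, fun Z hZ hZ' H₀ hH₀ => ?_⟩
  have e : {g | EllF i i' g} = {g | D.Ell g} := Set.ext fun g => (hE g).symm
  rw [e]
  exact hCORE H Bool Unit D χ hT (hS hRF) hI true y hy' hχ hM Z hZ hZ' H₀ hH₀

end Pool.Agent.P.MP_67c9d4_al.MX
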