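import Pool.Agent.P.MP_67c9d4_al.MX.Iface
import Pool.Agent.P.MP_67c9d4_al.FC.SPARSE

/-! Step FKL. -/

set_option autoImplicit false
set_option linter.unusedSectionVars false

namespace Pool.Agent.P.MP_67c9d4_al.MX

open Equiv Wr Multiplicative FC FR

theorem p_FKL (hFTD : S_FTD) (hAXIS : S_AXIS) (hKILL : S_KILL) :
    S_FKL := by
  intro A C H X _ _ _ _ i i' hc hRF σ x₀ H₀ Z hH₀ hZ hz
  obtain ⟨D, hT, hGt, hGf, hP, -, hE, hSp⟩ := hFTD A C H i i' hc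
  replace hSp := hSp hRF
  have ell : ∀ h, D.Ell (i h) := fun h => (hE _).2 (EllF.left i i' h)
  have ell' : ∀ h, D.Ell (i' h) := fun h => (hE _).2 (EllF.right i i' h)
  obtain ⟨r, r1, -⟩ := hc.retr
  obtain ⟨N, ⟨hN, _⟩, f3, f4⟩ : ∃ N, FN N ∧ N ≤ H₀ ∧ ∀ h, i h ∈ N → (σ h).p = 1 :=
    ⟨_, (FN.ker (pHom.comp (σ.comp r))).inf hH₀, inf_le_right, fun h e => by
      have := MonoidHom.mem_ker.1 e.1
      rwa [MonoidHom.comp_apply, MonoidHom.comp_apply, r1, pHom_apply] at this⟩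
  obtain ⟨σ₀, hp, c1, c2⟩ := SPARSEx.exists_base i σ x₀ N f4
  obtain ⟨σ₁, e1, e2⟩ := hc.up _ σ₀ (cst ((qa N).comp i') (1 : C →* MZ))
  have e3 : pHom.comp σ₁ = qa N := hc.ext (fun g => by
    rw [MonoidHom.comp_apply, e1, pHom_apply, hp]) (fun g => by
    rw [MonoidHom.comp_apply, e2]; rfl)
  have s1 : ∀ g, (σ₁ g).p = qa N g := fun g => DFunLike.congr_fun e3 g
  have s2 : ∀ h u, (σ₁ (i h)).c ((i u : H) : H ⧸ N) = (σ h).c ((σ u).p x₀) := fun h u => by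
    rw [e1, c1]
  have s3 : ∀ h x, (∀ u, x ≠ ((i u : H) : H ⧸ N)) → (σ₁ (i h)).c x = 1 := fun h x hx => by
    rw [e1, c2 _ _ hx]
  have val : ∀ (g : A) (n : ℕ) x, qa N (i g ^ n) x = x → (σ₁ (i g ^ n)).c x = 1 ∨ ∃ u,
      x = (i u : H) ∧ (σ (g ^ n)).p = 1 ∧ (σ₁ (i g ^ n)).c x = (σ (g ^ n)).c ((σ u).p x₀) := by
    intro g n x hx
    rw [← map_pow] at hx ⊢
    by_cases h : ∃ u, x = (i u : H)
    · obtain ⟨u, rfl⟩ := h
      exact Or.inr ⟨u, rfl, f4 _ ((qa_fix hN _).1 hx), s2 _ u⟩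
    · exact Or.inl (s3 _ x (not_exists.1 h))
  let ψ : Bool → H →* Wr (H ⧸ N) MZ := fun b => bif b then σ₁ else (push invMonoidHom).comp σ₁
  have p1 : ∀ f h, (ψ f h).p = qa N h := fun f h => by cases f <;> exact s1 h
  have p2 : ∀ f h x, (ψ f h).c x = (σ₁ h).c x ∨ (ψ f h).c x = ((σ₁ h).c x)⁻¹ := fun f h x => by
    cases f
    exacts [Or.inr rfl, Or.inl rfl]
  have p3 : ∀ f h x, (ψ f h).c x = 1 ↔ (σ₁ h).c x = 1 := fun f h x => by
    rcases p2 f h x with e | e <;> simp [e]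
  have agr : ∀ c x f f', D.Agr ψ c x f f' := by
    intro c x f f' g hg _
    rw [TD.St, hP, cj_bot, Subgroup.mem_bot] at hg
    rw [hg, map_one, map_one]
  have : Finite Z := hZ
  choose c l hcl using fun z : Z => hAXIS H _ _ D hT true z fun e => hz z z.2 ((hE _).1 e)
  obtain ⟨X', _, τ, π, k1, k2, k3⟩ := hKILL H _ _ _ Bool _ D (qa N) ψ Subtype.val c l hT hSp
    true p1 hcl (fun j x S hS n _ => by
      rcases S.eq_empty_or_nonempty with rfl | ⟨f, hf⟩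
      · rfl
      · rw [Finset.eq_univ_of_forall fun f' => hS 0 f f' (agr _ _ _ _) hf, Fintype.sum_bool]
        exact add_neg_cancel _) (i 1 : H)
  have fix : ∀ {g x}, (τ g).p x = x → qa N g (π x) = π x := fun h => by rw [← k1, h]
  have nz : ∀ g x, NZ τ (i g) x → ∃ u, π x = (i u : H) ∧ NZ σ g ((σ u).p x₀) := by
    rintro g x ⟨n, hx, h⟩
    obtain ⟨f, hf⟩ := (k3 _ (ell g)).1 x
    rw [hf n hx, Ne, p3] at h
    obtain ⟨u, e0, e1, e2⟩ := (val g n _ (fix hx)).resolve_left h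
    exact ⟨u, e0, n, by rw [e1]; rfl, e2 ▸ h⟩
  refine ⟨X', inferInstance, τ, fun z h => k2 ⟨z, h⟩, fun g n x hx => ?_, fun g n x hx => ?_,
    fun g h3 => ?_, fun g h x a b => ?_⟩
  · obtain ⟨f, hf⟩ := (k3 _ (ell' g)).1 x
    rw [hf n hx, p3, ← map_pow, e2]
    rfl
  · obtain ⟨f, hf⟩ := (k3 _ (ell g)).1 x
    rw [hf n hx]
    rcases val g n _ (fix hx) with e | ⟨u, -, e1, e2⟩
    · exact Or.inl ((p3 _ _ _).2 e)
    · refine Or.inr ⟨(σ u).p x₀, by rw [e1]; rfl, ?_⟩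
      rw [← e2]
      exact p2 f _ _
  · obtain ⟨x, e, hf⟩ := (k3 _ (ell g)).2 true
    have hx : (τ (i g ^ Nat.card (Perm X'))).p x = x := by rw [per_card τ]; rfl
    refine ⟨x, _, hx, ?_⟩
    have := f4 _ ((qa_fix hN _).1 (map_pow i _ _ ▸ fix hx))
    rw [hf _ hx, e, Ne, p3, ← map_pow, s2, map_one]
    exact (nz_iff Nat.card_pos (by rw [this]; rfl)).1 h3
  · obtain ⟨u, e1, a1⟩ := nz _ _ a
    obtain ⟨u', e2, a2⟩ := nz _ _ b
    rw [k1, e1, qa_mk, QuotientGroup.eq] at e2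
    refine ⟨u' * u⁻¹, _, a1, by simpa using a2, ?_⟩
    have h6 := f3 (hN.conj_mem _ (inv_mem e2) (i u))
    simpa [mul_assoc] using h6

end Pool.Agent.P.MP_67c9d4_al.MX
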