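import Pool.Agent.P.MP_67c9d4_al.MX.Iface

/-! Step FO1. -/

set_option autoImplicit false
set_option linter.unusedSectionVars false

namespace Pool.Agent.P.MP_67c9d4_al.MX

open Equiv Wr Multiplicative FC FR

theorem FO1_null {A C H X X' : Type} [Group A] [Group C] [Group H] {i : A →* H} {i' : C →* H}
    {σ : A →* Wr X MZ} {τ : H →* Wr X' MZ} {Z₀ : Set A} {Z : Set H} (h0 : ∀ z ∈ Z₀, Null σ z)
    (h1 : ∀ z ∈ Z, Null τ z) (h2 : ∀ c, Null τ (i' c))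
    (h3 : ∀ g (n : ℕ) x, (τ (i g ^ n)).p x = x → (τ (i g ^ n)).c x = 1 ∨
      ∃ x₁, (σ (g ^ n)).p x₁ = x₁ ∧ ((τ (i g ^ n)).c x = (σ (g ^ n)).c x₁ ∨
        (τ (i g ^ n)).c x = ((σ (g ^ n)).c x₁)⁻¹)) :
    ∀ z ∈ i '' Z₀ ∪ Set.range i' ∪ Z, Null τ z := by
  rintro z ((⟨g, hg, rfl⟩ | ⟨c, rfl⟩) | hz)
  · intro n x hx
    rcases h3 g n x hx with e | ⟨x₁, e1, e | e⟩
    · exact e
    · rw [e, h0 g hg n x₁ e1]
    · rw [e, h0 g hg n x₁ e1, inv_one]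
  · exact h2 c
  · exact h1 z hz

theorem p_FO1 (hFKL : S_FKL) :
    S_FO1 := by
  intro A C H _ _ _ i i' hc hR Z hZ hE
  refine ⟨?_, ?_⟩
  · rintro y₀ Z₀ H₀ hH ⟨X, _, σ, κ, a1, a2, ⟨x₀, a3⟩, a4⟩
    obtain ⟨X', _, τ, b1, b2, b3, b4, b5⟩ := hFKL A C H X i i' hc hR σ x₀ H₀ Z hH hZ hE
    refine ⟨X', inferInstance, τ, κ, FO1_null a1 b1 b2 b3, fun n x hx => ?_, b4 y₀ a3,
      fun h x a b => ?_⟩
    · rcases b3 y₀ n x hx with e | ⟨x₁, e1, e | e⟩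
      · exact Or.inl e
      · rw [e]
        exact a2 n x₁ e1
      · rw [e, inv_eq_one, toAdd_inv, Int.cast_neg, neg_inj, neg_eq_iff_eq_neg]
        exact (a2 n x₁ e1).imp_right Or.symm
    · obtain ⟨u, x₁, c1, c2, c3⟩ := b5 y₀ h x a b
      have h5 : Subgroup.zpowers y₀ ⊔ H₀.comap i ≤ (Subgroup.zpowers (i y₀) ⊔ H₀).comap i :=
        sup_le (Subgroup.zpowers_le.2 (Subgroup.mem_sup_left (Subgroup.mem_zpowers _)))
          (Subgroup.comap_mono le_sup_right)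
      simpa using mul_mem (Subgroup.mem_comap.1 (h5 (a4 u x₁ c1 c2))) (Subgroup.mem_sup_right c3)
  · rintro g Z₀ ⟨X, _, σ, a1, x₀, a3⟩
    obtain ⟨X', _, τ, b1, b2, b3, b4, -⟩ := hFKL A C H X i i' hc hR σ x₀ ⊤ Z FN.top hZ hE
    exact ⟨X', inferInstance, τ, FO1_null a1 b1 b2 b3, b4 g a3⟩

end Pool.Agent.P.MP_67c9d4_al.MX
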