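import Pool.Agent.P.MP_67c9d4_al.MX.Iface

/-! Step FOJ. -/

set_option autoImplicit false
set_option linter.unusedSectionVars false

namespace Pool.Agent.P.MP_67c9d4_al.MX

open Equiv Wr Multiplicative FC FR

lemma FOJ_one {H B X : Type} [Group H] [Group B] [Fintype X] (σ : H →* Wr X B) : tc σ 1 = 0 :=
  Null.tc fun n x _ => by rw [one_pow, map_one]; rfl

theorem p_FOJ (hFCO : S_FCO) (hHOJ : S_HOJ) :
    S_FOJ := by
  classical
  intro A C H _ _ _ i i' h hRF χ Z hZ hz y₀ Z₀ hO B _ a b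
  obtain ⟨ρ, r1, r2⟩ := h.retr
  obtain ⟨X, _, σ, q, q0, n0, e0, e1⟩ := hO B a b
  have hyp : ∀ u, χ u = ofAdd 1 → ¬EllF i i' u → ∀ Z' : Set H, Z'.Finite →
      (∀ z ∈ Z', χ z = ofAdd 1 ∧ ¬IsConj u z) → OJc u (Z' ∪ {g | EllF i i' g}) :=
    fun u h1 h2 Z' h3 h4 => hHOJ H u Z' _ ⊤ ((hFCO A C H i i' h hRF χ u h2 h1).2 Z' h3 h4 ⊤ FN.top)
  have key : ∀ Z' : Set H, Z'.Finite → (∀ z ∈ Z', χ z = ofAdd 1 ∧ ¬EllF i i' z) →
      ∃ (X' : Type) (_ : Fintype X') (τ : H →* Wr X' B) (r : ℚ), 0 < r ∧ Neu τ ∧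
        (∀ g, tc τ (i g) = r • tc σ g) ∧ (∀ c, tc τ (i' c) = 0) ∧ ∀ z ∈ Z', tc τ z = 0 := by
    intro Z' hZ'
    induction Z', hZ' using Set.Finite.induction_on with
    | empty =>
      exact fun _ => ⟨X, inferInstance, σ.comp ρ, 1, one_pos, fun W _ f g => n0 W f (ρ g),
        fun g => by rw [tc_comp, r1, one_smul], fun c => by rw [tc_comp, r2, FOJ_one],
        fun z h => h.elim⟩
    | @insert z Z' _ hf ih =>
      intro h
      obtain ⟨X', _, τ, r, r0, n2, e3, e3', e4⟩ := ih fun u hu => h u (Or.inr hu)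
      by_cases hc : ∃ u ∈ Z', IsConj z u
      · obtain ⟨u, u1, u2⟩ := hc
        refine ⟨X', inferInstance, τ, r, r0, n2, e3, e3', ?_⟩
        rintro w (rfl | hw)
        · rw [tc_conj τ u2, e4 u u1]
        · exact e4 w hw
      obtain ⟨c, X₃, _, σ₃, c0, n3, e5, e6⟩ := (hyp z (h z (Or.inl rfl)).1 (h z (Or.inl rfl)).2 Z'
        hf fun u hu => ⟨(h u (Or.inr hu)).1, fun e => hc ⟨u, hu, e⟩⟩).corr
        (neg_mem (n2.tc_mem z))
      refine ⟨_, inferInstance, Wr.sum (cp (Fin c) τ) σ₃, c * r, by positivity,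
        ((cp_cov _ τ).neu n2).sum n3, fun g => ?_, fun g => ?_, ?_⟩
      · rw [tc_sum, tc_cp, e3, e6 _ (Or.inr (EllF.left i i' g)), add_zero, mul_smul]
      · rw [tc_sum, tc_cp, e3', e6 _ (Or.inr (EllF.right i i' g)), add_zero, smul_zero]
      · rintro w (rfl | hw)
        · rw [tc_sum, tc_cp, e5, smul_neg, add_neg_cancel]
        · rw [tc_sum, tc_cp, e4 w hw, e6 w (Or.inl hw), smul_zero, add_zero]
  obtain ⟨X', _, τ, r, r0, n2, e3, e3', e4⟩ := key Z hZ hz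
  refine ⟨X', inferInstance, τ, r * q, by positivity, n2, by rw [e3, e0, mul_smul], ?_⟩
  rintro z ((⟨g, hg, rfl⟩ | ⟨c, rfl⟩) | h)
  · rw [e3, e1 g hg, smul_zero]
  · exact e3' c
  · exact e4 z h

end Pool.Agent.P.MP_67c9d4_al.MX
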