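import Pool.Agent.P.MP_67c9d4_al.MX.Iface

/-! Step FPG. -/

set_option autoImplicit false
set_option linter.unusedSectionVars false

namespace Pool.Agent.P.MP_67c9d4_al.MX

open Equiv Wr Multiplicative FC FR

section
variable {A C H : Type} [Group A] [Group C] [Group H] {i : A →* H} {i' : C →* H}

lemma FPG_chi (χ : H →* MZ) {a b : H} (c : IsConj a b) : χ a = χ b :=
  isConj_iff_eq.1 (χ.map_isConj c)

lemma FPG_split (i : A →* H) (i' : C →* H) {Z : Set H} (hZ : Z.Finite) :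
    ∃ (Z₀ : Set A) (Z₁ : Set H), Z₀.Finite ∧ Z₁.Finite ∧ (∀ a ∈ Z₀, ∃ z ∈ Z, IsConj (i a) z) ∧
      (∀ z ∈ Z₁, z ∈ Z ∧ ¬EllF i i' z) ∧
      ∀ S : Set A, Z₀ ⊆ S → ∀ z ∈ Z, ∃ z' ∈ i '' S ∪ Set.range i' ∪ Z₁, IsConj z' z := by
  have : Finite {z // z ∈ Z ∧ ∃ a, IsConj (i a) z} :=
    (hZ.subset fun z h => h.1 : {z | z ∈ Z ∧ ∃ a, IsConj (i a) z}.Finite)
  choose z₀ c1 using fun z : {z // z ∈ Z ∧ ∃ a, IsConj (i a) z} => z.2.2
  refine ⟨Set.range z₀, {z ∈ Z | ¬EllF i i' z}, Set.finite_range _, hZ.sep _, ?_, fun _ h => h,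
    fun S hS z hz => ?_⟩
  · rintro _ ⟨z, rfl⟩
    exact ⟨z, z.2.1, c1 z⟩
  · by_cases h : EllF i i' z
    · rcases h with h | ⟨c, h⟩
      · exact ⟨_, Or.inl (Or.inl ⟨_, hS ⟨⟨z, hz, h⟩, rfl⟩, rfl⟩), c1 ⟨z, hz, h⟩⟩
      · exact ⟨_, Or.inl (Or.inr ⟨c, rfl⟩), h⟩
    · exact ⟨z, Or.inr ⟨hz, h⟩, IsConj.refl _⟩

lemma FPG_side (hFO1 : S_FO1) (hFOJ : S_FOJ) (h : IsCop i i') (rf : RF H) {χ : H →* MZ}
    {χA : A →* MZ} {W : Type} {t : W → A} (g : Good χA t) {G : H → Prop} {R : Set H}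
    (h1 : ∀ y, G y → χ y = ofAdd 1) (h2 : ∀ a y, IsConj (i a) y → G y → Gen χA t a)
    (h3 : R ⊆ i '' Set.range t ∪ Set.range i') {y : H} {a : A} (c : IsConj (i a) y) (hy : G y)
    {Z : Set H} (hZ : Z.Finite) (hz : ∀ z ∈ Z, G z ∧ ¬IsConj y z) :
    (∀ H₀, FN H₀ → O1c y (Z ∪ R) H₀) ∧ OJc y (Z ∪ R) := by
  obtain ⟨Z₀, Z₁, f0, f1, a0, a1, a2⟩ := FPG_split i i' hZ
  have b0 : ∀ b ∈ Z₀, Gen χA t b ∧ ¬IsConj a b := fun b hb =>
    let ⟨z, e, d⟩ := a0 b hb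
    ⟨h2 b z d (hz z e).1, fun d' => (hz z e).2 (c.symm.trans ((i.map_isConj d').trans d))⟩
  have b1 : ∀ z ∈ Z ∪ R, ∃ z' ∈ i '' (Z₀ ∪ Set.range t) ∪ Set.range i' ∪ Z₁, IsConj z' z := by
    rintro z (e | e)
    · exact a2 _ Set.subset_union_left z e
    · exact ⟨z, Or.inl ((h3 e).imp_left fun e => Set.image_mono Set.subset_union_right e),
        IsConj.refl _⟩
  exact ⟨fun H₀ hH => (((hFO1 A C H i i' h rf Z₁ f1 fun z e => (a1 z e).2).1 a _ H₀ hH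
      (g.o1 a (h2 a y c hy) Z₀ f0 b0 _ (hH.comap i))).conj hH.1 c).mono b1,
    ((hFOJ A C H i i' h rf χ Z₁ f1 (fun z e => ⟨h1 z (hz z (a1 z e).1).1, (a1 z e).2⟩) a _
      (g.oj a (h2 a y c hy) Z₀ f0 b0)).conj c).mono b1⟩

end

theorem p_FPG (hFVP : S_FVP) (hFMAL : S_FMAL) (hFCO : S_FCO) (hFO1 : S_FO1) (hFOJ : S_FOJ) (hRFV : S_RFV) (hHO1 : S_HO1) (hHOJ : S_HOJ) :
    S_FPG := by
  intro A C H V _ _ _ i i' χ χA χC t h eA eC g hC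
  have vp : VP (⊥ : Subgroup H) := Subgroup.map_bot i ▸ hFVP A C H i i' h g.vp hC.good.vp ⊥ g.vp
  have rf := hRFV H vp
  have dA : ∀ a y, IsConj (i a) y → Gen χ (fun v => i (t v)) y → Gen χA t a := fun a y c hy => by
    have hg := hy.conj c.symm
    refine ⟨(eA a).symm.trans hg.1, fun b n hn hb => ?_, fun w hw => hg.2.2 w (i.map_isConj hw)⟩
    obtain ⟨k, hk⟩ := hg.2.1 (i b) n hn (by rw [← map_zpow]; exact hb.map i)
    exact ⟨k, h.inj ((map_zpow i a k).trans hk)⟩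
  have dC : ∀ a y, IsConj (i' a) y → Gen χ (fun v => i (t v)) y →
      Gen χC (Empty.elim : Empty → C) a := fun a y c hy =>
    hC.gen ((eC a).symm.trans ((FPG_chi χ c).trans hy.1))
  have key : ∀ y, Gen χ (fun v => i (t v)) y → ∀ Z : Set H, Z.Finite →
      (∀ z ∈ Z, Gen χ (fun v => i (t v)) z ∧ ¬IsConj y z) →
      (∀ H₀, FN H₀ → O1c y (Z ∪ Set.range fun v => i (t v)) H₀) ∧
        OJc y (Z ∪ Set.range fun v => i (t v)) := fun y hy Z hZ hz => by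
    by_cases he : EllF i i' y
    · rcases he with ⟨a, c⟩ | ⟨a, c⟩
      · exact FPG_side hFO1 hFOJ h rf g (fun _ e => e.1) dA
          (by rintro _ ⟨v, rfl⟩; exact Or.inl ⟨_, ⟨v, rfl⟩, rfl⟩) c hy hZ hz
      · exact FPG_side hFO1 hFOJ h.symm rf hC.good (fun _ e => e.1) dC
          (by rintro _ ⟨v, rfl⟩; exact Or.inr ⟨_, rfl⟩) c hy hZ hz
    · have co := (hFCO A C H i i' h rf χ y he hy.1).2 Z hZ fun z e => ⟨(hz z e).1.1, (hz z e).2⟩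
      have m : ∀ z ∈ Z ∪ Set.range fun v => i (t v), ∃ z' ∈ Z ∪ {g | EllF i i' g}, IsConj z' z :=
        fun z e => ⟨z, e.imp_right fun ⟨v, e⟩ => e ▸ EllF.left i i' _, IsConj.refl z⟩
      exact ⟨fun H₀ hH => (hHO1 H y Z _ H₀ (co H₀ hH)).mono m,
        (hHOJ H y Z _ ⊤ (co ⊤ FN.top)).mono m⟩
  have tf : ∀ (B : Type) [Group B] (ψ : B →* MZ) (b : B), ψ b = ofAdd 1 →
      ∀ m : ℤ, m ≠ 0 → b ^ m ≠ 1 := fun B _ ψ b e m hm e' => by
    have := congrArg (fun x => (ψ x).toAdd) e'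
    simp [e, hm] at this
  refine ⟨⟨fun v => (eA _).trans (g.chi v), fun y hy Z hZ hz => (key y hy Z hZ hz).1,
    fun v Y hY hy => ?_, fun y hy Z hZ hz => (key y hy Z hZ hz).2, vp, fun v =>
      MonoidHom.map_zpowers i (t v) ▸ hFVP A C H i i' h g.vp hC.good.vp _ (g.vt v)⟩,
    fun y hy => ?_⟩
  · obtain ⟨Z₀, Z₁, f0, f1, a0, a1, a2⟩ := FPG_split i i' hY
    obtain ⟨X, _, σ, b1, b2⟩ := (hFO1 A C H i i' h rf Z₁ f1 fun z e => (a1 z e).2).2 (t v) Z₀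
      (g.o2 v Z₀ f0 fun b hb => let ⟨z, e, d⟩ := a0 b hb; dA b z d (hy z e))
    exact ⟨X, inferInstance, σ, fun z e =>
      let ⟨z', e', d⟩ := a2 _ le_rfl z e; (b1 z' e').conj d, b2⟩
  · by_cases he : EllF i i' y
    · rcases he with ⟨a, c⟩ | ⟨a, c⟩
      · refine or_iff_not_imp_right.2 fun hn => ?_
        have ga : Gen χA t a := not_not.1 fun e => hn ⟨a, c, e⟩
        exact Gen.conj ⟨(eA a).trans ga.1, hFMAL A C H i i' h a (tf A χA a ga.1) ga.2.1,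
          fun v e => ga.2.2 v (h.conj e)⟩ c
      · have e1 : χC a = ofAdd 1 := (eC a).symm.trans ((FPG_chi χ c).trans hy)
        refine Or.inl (Gen.conj ⟨(eC a).trans e1,
          hFMAL C A H i' i h.symm a (tf C χC a e1) (hC.mal a e1), fun v e => ?_⟩ c)
        exact tf A χA _ (g.chi v) 1 one_ne_zero ((zpow_one _).trans (h.conj_one e))
    · exact Or.inl ⟨hy, (hFCO A C H i i' h rf χ y he hy).1,
        fun v e => he ((EllF.left i i' _).conj e)⟩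

end Pool.Agent.P.MP_67c9d4_al.MX
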