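import Pool.Agent.P.MP_67c9d4_al.MX.Iface

/-! Step FTD. -/

set_option autoImplicit false
set_option linter.unusedSectionVars false

namespace Pool.Agent.P.MP_67c9d4_al.MX

open Equiv Wr Multiplicative FC FR

section
variable {A C H : Type} [Group A] [Group C] [Group H] (i : A →* H) (i' : C →* H)

/-- The graph of groups of a free product. -/
def FTD_td : TD H Bool Unit where
  vt k := k.2
  G v := bif v then i.range else i'.range
  P _ := ⊥
  ε _ := 1
  le _ := bot_le
  inv _ := inv_one.symm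
  conj _ g := by simp

lemma FTD_one (u v : Bool) : (FTD_td i i').Pth u v 1 := by
  cases u <;> cases v
  · exact .vtx (one_mem _)
  · exact .edge ((), false)
  · exact .edge ((), true)
  · exact .vtx (one_mem _)

lemma FTD_vtx (u v w : Bool) (g : H) (hg : g ∈ (FTD_td i i').G w) : (FTD_td i i').Pth u v g := by
  have := ((FTD_one i i' u w).mul (.vtx hg)).mul (FTD_one i i' w v)
  rwa [one_mul, mul_one] at this

lemma FTD_tree (h : IsCop i i') : (FTD_td i i').Tree := by
  refine ⟨fun u v g => ?_, fun W _ σ γ h1 h2 _ => ?_⟩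
  · have hg : g ∈ Subgroup.closure (Set.range i ∪ Set.range i') := h.gen ▸ Subgroup.mem_top g
    induction hg using Subgroup.closure_induction_left generalizing u v with
    | one => exact FTD_one i i' u v
    | mul_left x hx y _ ih =>
      refine TD.Pth.mul (v := u) ?_ (ih u v)
      rcases hx with ⟨m, rfl⟩ | ⟨m, rfl⟩
      · exact FTD_vtx i i' u u true _ ⟨m, rfl⟩
      · exact FTD_vtx i i' u u false _ ⟨m, rfl⟩
    | inv_mul_cancel x hx y _ ih =>
      refine TD.Pth.mul (v := u) ?_ (ih u v)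
      rcases hx with ⟨m, rfl⟩ | ⟨m, rfl⟩
      · exact FTD_vtx i i' u u true _ ⟨m⁻¹, map_inv _ _⟩
      · exact FTD_vtx i i' u u false _ ⟨m⁻¹, map_inv _ _⟩
  · let f₁ : A →* W := MonoidHom.mk' (fun x => σ true (i x)) fun x y => by
      rw [map_mul]
      exact h1 true _ ⟨x, rfl⟩ _ ⟨y, rfl⟩
    let f₂ : C →* W := MonoidHom.mk'
      (fun x => γ ((), true) * σ false (i' x) * (γ ((), true))⁻¹) fun x y => by
      rw [map_mul, h1 false _ ⟨x, rfl⟩ _ ⟨y, rfl⟩]
      group
    obtain ⟨F, e₁, e₂⟩ := h.up W f₁ f₂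
    let c : Bool → W := fun u => bif u then 1 else γ ((), true)
    refine ⟨fun u v h => (c u)⁻¹ * F h * c v, fun u v w x y => ?_, ?_, ?_⟩
    · simp only [map_mul]
      group
    · rintro (_ | _) _ ⟨x, rfl⟩
      · change (γ ((), true))⁻¹ * F (i' x) * γ ((), true) = _
        rw [e₂]
        change _ * (γ ((), true) * σ false (i' x) * (γ ((), true))⁻¹) * _ = _
        group
      · change (1 : W)⁻¹ * F (i x) * 1 = _
        rw [e₁, inv_one, one_mul, mul_one]
        rfl
    · rintro ⟨e, _ | _⟩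
      · change (γ ((), true))⁻¹ * F 1 * 1 = γ (bar ((), true))
        rw [h2, map_one, mul_one, mul_one]
      · change (1 : W)⁻¹ * F 1 * γ ((), true) = γ ((), true)
        rw [map_one, inv_one, one_mul, one_mul]

lemma FTD_ind : (FTD_td i i').Ind := by
  refine ⟨1, fun c _ => ⟨0, Nat.one_pos, 0, Nat.one_pos, 0, Nat.one_pos, ⊤, inferInstance, 1, 1,
    fun _ _ => rfl, fun _ _ => rfl, fun a ha _ _ _ _ _ => ?_⟩⟩
  have : (MulAut.conj (c 0).2⁻¹) a = 1 := Subgroup.mem_bot.1 ha
  exact (map_eq_one_iff _ (MulAut.conj (c 0).2⁻¹).injective).1 this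

lemma FTD_ell (g : H) : (FTD_td i i').Ell g ↔ EllF i i' g := by
  constructor
  · rintro ⟨_ | _, c, a, e⟩
    · exact Or.inr ⟨a, isConj_iff.2 ⟨c, by rw [e]; group⟩⟩
    · exact Or.inl ⟨a, isConj_iff.2 ⟨c, by rw [e]; group⟩⟩
  · rintro (⟨a, e⟩ | ⟨a, e⟩)
    · obtain ⟨c, rfl⟩ := isConj_iff.1 e
      exact ⟨true, c, a, by group⟩
    · obtain ⟨c, rfl⟩ := isConj_iff.1 e
      exact ⟨false, c, a, by group⟩

end

theorem p_FTD :
    S_FTD := by
  intro A C H _ _ _ i i' h
  refine ⟨FTD_td i i', FTD_tree i i' h, rfl, rfl, fun _ => rfl, FTD_ind i i', FTD_ell i i',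
    fun hr k g hg => ?_⟩
  obtain ⟨N, hN, e⟩ := hr g fun e => hg (Subgroup.mem_bot.2 e)
  exact ⟨N, hN, fun c => e (by rwa [show (FTD_td i i').P k = ⊥ from rfl, bot_sup_eq] at c)⟩

end Pool.Agent.P.MP_67c9d4_al.MX
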