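import Pool.Agent.P.MP_67c9d4_al.MX.Iface

/-! Step FVP. -/

set_option autoImplicit false
set_option linter.unusedSectionVars false

namespace Pool.Agent.P.MP_67c9d4_al.MX

open Equiv Wr Multiplicative FC FR

lemma FVP_vs {A C H : Type} [Group A] [Group C] [Group H] {i : A →* H} {i' : C →* H}
    (hc : IsCop i i') {Λ : Subgroup A} (h : VS (⊤ : Subgroup A) Λ) : VS i.range (Λ.map i) := by
  obtain ⟨T, hT, Γ, X, hX, σ, hσ⟩ := h
  obtain ⟨r, e, -⟩ := hc.retr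
  have e' : (σ.comp r).comp i = σ := by
    ext1 x
    simp [e]
  exact ⟨T, hT, Γ, X, hX, _, SepOn.map hc.inj (σ := σ.comp r) (Λ := Λ) (by rw [e']; exact hσ)⟩

theorem p_FVP (hFTD : S_FTD) (hT3 : S_T3) (hVPS : S_VPS) :
    S_FVP := by
  intro A C H _ _ _ i i' hc hA hC Λ hΛ
  obtain ⟨D, h1, h2, h3, h4, -⟩ := hFTD A C H i i' hc
  have v : ∀ b, VS (D.G b) ⊥ := by
    rintro (_ | _)
    · rw [h3, ← Subgroup.map_bot i']
      exact FVP_vs hc.symm (hVPS _ _ hC)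
    · rw [h2, ← Subgroup.map_bot i]
      exact FVP_vs hc (hVPS _ _ hA)
  refine hT3 _ _ _ D h1 (fun k => h4 k ▸ v _) true _ ?_ ?_
  · rw [h2]
    exact Subgroup.map_le_range i Λ
  · rw [h2]
    exact FVP_vs hc (hVPS _ _ hΛ)

end Pool.Agent.P.MP_67c9d4_al.MX
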