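import Pool.Agent.P.MP_67c9d4_al.MX.Iface

/-! Step GATE. -/

set_option autoImplicit false
set_option linter.unusedSectionVars false

namespace Pool.Agent.P.MP_67c9d4_al.MX

open Equiv Wr Multiplicative FC FR

theorem p_GATE (hG2 : S_G2) (hG1 : S_G1) (hCAN : S_CAN) :
    S_GATE := by
  classical
  intro T Γ Y hY x
  obtain ⟨g1, -⟩ := hG2 T Γ
  have key : ∀ p ∈ Y, (∀ r, ∀ c ∈ Y, Sh Γ r (c⁻¹ * x) → Sh Γ r (p⁻¹ * x)) →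
      ∀ c ∈ Y, Disjoint (Sp Γ p x) (Sp Γ p c) := by
    intro p hp hmin c hc
    refine Set.disjoint_left.2 fun W h1 h2 => ?_
    obtain ⟨L, hL, eL⟩ := g1 (p⁻¹ * x)
    obtain ⟨M, hM, eM⟩ := g1 (p⁻¹ * c)
    rw [← smul_mem_Sp p⁻¹, inv_mul_cancel] at h1 h2
    obtain ⟨y, L', M', -, -, e1, e2, l1, l2⟩ := hCAN T Γ L M _ hL hM (eL ▸ h1) (eM ▸ h2)
    have a2 : Geo Γ ([y] ++ M') := fun K hK => l2.trans_le (hM K (hK.trans e2.symm))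
    have hy : p * wd Γ [y] ∈ Y := hY p [y] M' a2 hp (by
      rw [List.singleton_append, ← e2, eM, mul_inv_cancel_left]; exact hc)
    obtain ⟨L₀, e₀, l₀⟩ := hmin L'.length _ hy ⟨L', by
      rw [mul_inv_rev, mul_assoc, ← eL, e1, wd_cons y L', inv_mul_cancel_left], le_rfl⟩
    have := hL L₀ (e₀.trans eL.symm)
    omega
  refine ⟨key, fun ⟨z, hz⟩ => ?_⟩
  have hex : ∃ n, ∃ z ∈ Y, Sh Γ n (z⁻¹ * x) :=
    let ⟨r, h⟩ := sh_exists (z⁻¹ * x); ⟨r, z, hz, h⟩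
  obtain ⟨p, hp, L₀, e₀, l₀⟩ := Nat.find_spec hex
  exact ⟨p, hp, key p hp fun r c hc h => ⟨L₀, e₀, l₀.trans (Nat.find_min' hex ⟨c, hc, h⟩)⟩⟩

end Pool.Agent.P.MP_67c9d4_al.MX
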