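import Pool.Agent.P.MP_67c9d4_al.MX.Iface
import Pool.Agent.P.MP_67c9d4_al.FC.COMP

/-! Step GW. -/

set_option autoImplicit false
set_option linter.unusedSectionVars false

namespace Pool.Agent.P.MP_67c9d4_al.MX

open Equiv Wr Multiplicative FC FR

theorem p_GW (hCOMP1 : S_COMP1) (hG2 : S_G2) (hG1 : S_G1) :
    S_GW := by
  intro T Y Γ Mv hC L M y y' hw hM hML
  obtain ⟨Θ, hΘ⟩ := hCOMP1 T Y Γ Mv hC
  obtain ⟨h1, h2⟩ := COMPx.walk hΘ hw
  obtain ⟨M', l1, l2, l3⟩ := COMPx.lift hΘ M (y, fun _ => false)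
  have hg : wd (Γ.comap (Prod.fst : T × Bool → T)) M' ∈ PS _ {x | x.2 = false} := by
    rw [← l2, hML, h2]
    refine wd_mem fun x hx => ?_
    obtain ⟨z, -, rfl⟩ := List.mem_map.1 hx
    rfl
  have h3 := COMPx.filt hg
  rw [l1] at h3
  have h4 := hM _ h3
  rw [← l1, List.length_map, List.length_map] at h4
  have h5 : ∀ x ∈ M', x.1.2 = false := fun x hx => by
    have h6 := List.filter_eq_self.1 ((List.filter_sublist).eq_of_length_le h4) x hx
    simpa using h6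
  obtain ⟨y'', hw'⟩ := l3 y rfl h5
  have h7 := (COMPx.walk hΘ hw').1
  rw [hML, h1] at h7
  obtain rfl : y' = y'' := (Prod.mk.inj h7).1
  exact hw'

end Pool.Agent.P.MP_67c9d4_al.MX
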