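import Pool.Agent.P.MP_67c9d4_al.MX.Iface

/-! Step IND. -/

set_option autoImplicit false
set_option linter.unusedSectionVars false

namespace Pool.Agent.P.MP_67c9d4_al.MX

open Equiv Wr Multiplicative FC FR

section
variable {C B X : Type} [Group C] [Group B] {K : Subgroup C}

lemma IND_fix (hK : K.Normal) {g : C} (hg : g ∈ K) (ξ : C ⧸ K) : g • ξ = ξ := by
  induction ξ using QuotientGroup.induction_on with
  | H a =>
    change ((g * a : C) : C ⧸ K) = a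
    rw [QuotientGroup.eq]
    simpa [mul_assoc] using hK.conj_mem _ (inv_mem hg) a⁻¹

lemma IND_c (f : K →* B) (g : C) (ξ : C ⧸ K) (k : K)
    (h : (k : C) = ξ.out⁻¹ * g * (g⁻¹ • ξ).out) : (ind K f g).c ξ = f k :=
  congrArg f (Subtype.ext h.symm)

lemma IND_pow (hK : K.Normal) (f : K →* B) {g : C} (hg : g ∈ K) (n : ℕ) (ξ : C ⧸ K) (k : K)
    (h : (k : C) = ξ.out⁻¹ * g * ξ.out) : (ind K f (g ^ n)).c ξ = f (k ^ n) := by
  refine IND_c f _ ξ _ ?_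
  rw [IND_fix hK (inv_mem (pow_mem hg n)), SubmonoidClass.coe_pow, h]
  simpa using conj_pow (i := n) (a := ξ.out⁻¹) (b := g)

lemma IND_conj (σ : K →* Wr X B) {n : ℕ} (hP : Per n σ) (y k : K) (x : X) :
    IsConj ((σ (y ^ n)).c ((σ k).p x)) ((σ ((k⁻¹ * y * k) ^ n)).c x) := by
  have h : (k⁻¹ * y * k) ^ n = k⁻¹ * y ^ n * k⁻¹⁻¹ := by
    simpa using conj_pow (i := n) (a := k⁻¹) (b := y)
  rw [h, map_mul, map_mul, map_inv σ k⁻¹, conj_c _ (hP y), map_inv, inv_p, inv_inv]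
  exact isConj_iff.2 ⟨_, rfl⟩

end

theorem p_IND :
    S_IND := by
  intro C _ K M hM hFN hM0 y Z H₀ Z' hZ' hy' h
  obtain ⟨hK, hfi⟩ := hFN
  obtain ⟨X, _, σ, n, w, S, hn, hw, hP, ⟨x₀, hx₀⟩, -, hZ, hS, hS', hsep, hneu⟩ := h
  let _ : Fintype (C ⧸ K) := Fintype.ofFinite _
  have hc : ∀ (z : C) (q : (C ⧸ K) × X) (k : K), (k : C) = q.1.out⁻¹ * z ^ M * q.1.out →
      ((flat.comp (ind K σ)) (z ^ (M * n))).c q = (σ (k ^ n)).c q.2 := fun z q k hk => by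
    rw [MonoidHom.comp_apply, flat_c, pow_mul, IND_pow hK σ (hM z) n q.1 k hk]
  have hy : ∀ (q : (C ⧸ K) × X) (i : ℤ) (k : K), q.1.out = y ^ i * k →
      IsConj ((σ ((⟨y ^ M, hM y⟩ : K) ^ n)).c ((σ k).p q.2))
        (((flat.comp (ind K σ)) (y ^ (M * n))).c q) := fun q i k hk => by
    rw [hc y q (k⁻¹ * ⟨y ^ M, hM y⟩ * k) (by
      rw [hk, Subgroup.coe_mul, Subgroup.coe_mul, Subgroup.coe_inv]
      change _ * y ^ M * _ = _
      group)]
    exact IND_conj σ hP _ k q.2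
  refine ⟨(C ⧸ K) × X, inferInstance, flat.comp (ind K σ), M * n, w,
    {q | ∃ (i : ℤ) (k : K), q.1.out = y ^ i * k ∧ (σ k).p q.2 ∈ S}, Nat.mul_pos hM0 hn, hw, ?_, ?_,
    fun g hg => hg.elim, ?_, ?_, ?_, ?_, ?_⟩
  · intro g
    ext1 q
    have h1 : q.1.out⁻¹ * g ^ M * q.1.out ∈ K := by
      simpa using hK.conj_mem _ (hM g) q.1.out⁻¹
    rw [MonoidHom.comp_apply, flat_p, ind_p, pow_mul, IND_fix hK (pow_mem (hM g) n),
      IND_pow hK σ (hM g) n q.1 ⟨_, h1⟩ rfl, hP]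
    rfl
  · have h1 : (((1 : C) : C ⧸ K)).out ∈ K := by
      have := QuotientGroup.out_eq' (((1 : C) : C ⧸ K))
      rw [QuotientGroup.eq] at this
      simpa using this
    exact ⟨(((1 : C) : C ⧸ K), (σ ⟨_, h1⟩).p⁻¹ x₀), 0, ⟨_, h1⟩, by simp, by simpa using hx₀⟩
  · intro z hz q
    obtain ⟨z', h1, h2⟩ := hZ' z hz q.1
    rw [hc z q z' h2]
    exact hZ z' h1 q.2
  · rintro q ⟨i, k, h1, h2⟩
    exact (hS _ h2).imp (fun h => h.trans (hy q i k h1)) fun h => h.trans (hy q i k h1)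
  · intro q hq
    by_cases h1 : q.1.out ∈ Subgroup.zpowers y ⊔ K
    · obtain ⟨_, ⟨i, rfl⟩, h2⟩ := (mem_sup_left' hK).1 h1
      have h3 : q.1.out = y ^ i * ((⟨_, h2⟩ : K) : C) := by simp
      obtain ⟨j, hj⟩ := hS' ((σ ⟨_, h2⟩).p q.2) fun h => hq ⟨i, _, h3, h⟩
      exact ⟨j, hj.trans (hy q i _ h3)⟩
    · obtain ⟨z', h2, h3⟩ := hy' q.1 h1
      rw [hc y q z' h3]
      exact hZ z' h2 q.2
  · rintro g q ⟨i, k, h1, h2⟩ ⟨i', k', h3, h4⟩
    rw [MonoidHom.comp_apply, flat_p, ind_p] at h3 h4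
    have h5 : (g • q.1).out⁻¹ * g * q.1.out ∈ K := by simpa using ind_mem K g (g • q.1)
    rw [IND_c σ g (g • q.1) ⟨_, h5⟩ (by simp)] at h4
    have h6 := hsep (k' * ⟨_, h5⟩ * k⁻¹) _ h2 (by simpa using h4)
    have h7 : Subgroup.zpowers (⟨y ^ M, hM y⟩ : K) ⊔ H₀.comap K.subtype ≤
        (Subgroup.zpowers y ⊔ H₀).comap K.subtype :=
      sup_le (Subgroup.zpowers_le.2 (Subgroup.mem_sup_left (Subgroup.npow_mem_zpowers y M)))
        (Subgroup.comap_mono le_sup_right)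
    have h8 : (k' : C) * ((g • q.1).out⁻¹ * g * q.1.out) * (k : C)⁻¹ ∈
        Subgroup.zpowers y ⊔ H₀ := h7 h6
    have h9 : g = y ^ i' * ((k' : C) * ((g • q.1).out⁻¹ * g * q.1.out) * (k : C)⁻¹) *
        (y ^ i)⁻¹ := by
      simp only at h3
      rw [h3, h1]
      group
    rw [h9]
    exact mul_mem (mul_mem (Subgroup.mem_sup_left (Subgroup.zpow_mem_zpowers y i')) h8)
      (inv_mem (Subgroup.mem_sup_left (Subgroup.zpow_mem_zpowers y i)))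
  · intro g
    rw [tot_apply, Fintype.prod_prod_type]
    exact Finset.prod_eq_one fun ξ _ => hneu ⟨_, ind_mem K g ξ⟩

end Pool.Agent.P.MP_67c9d4_al.MX
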