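import Pool.Agent.P.MP_67c9d4_al.MX.Iface

/-! Step INF. -/

set_option autoImplicit false
set_option linter.unusedSectionVars false

namespace Pool.Agent.P.MP_67c9d4_al.MX

open Equiv Wr Multiplicative FC FR

theorem INF_cop (hFPG : S_FPG) (A C B : MG) (k : A.H →* B.H) (k' : C.H →* B.H) (h : CopM k k')
    (hA : In A.χ) (hC : In C.χ) : In B.χ := by
  obtain ⟨h1, h2⟩ := hFPG A.H C.H B.H Empty k k' B.χ A.χ C.χ Empty.elim h.1 h.2.1 h.2.2 hA.good hC
  have e : (fun v : Empty => k (Empty.elim v)) = Empty.elim := funext fun v => v.elim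
  rw [e] at h1 h2
  refine ⟨fun y hy => ?_, h1⟩
  rcases h2 y hy with h3 | ⟨y₀, h3, h4⟩
  · exact h3.2.1
  · refine absurd (hA.gen ?_) h4
    rw [← h.2.1, ← hy]
    exact isConj_iff_eq.1 (B.χ.map_isConj h3)

theorem p_INF (hFPG : S_FPG) :
    S_INF := by
  refine ⟨INF_cop hFPG, fun K O _ hK => ?_⟩
  refine Finite.induction_empty_option (P := fun O => ∃ (C : MG) (ι : O → K.H →* C.H), In C.χ ∧
    IsCoI ι ∧ ∀ o a, C.χ (ι o a) = K.χ a) ?_ ?_ ?_ O
  · rintro α β e ⟨C, ι, h1, h2, h3⟩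
    refine ⟨C, fun o => ι (e.symm o), h1, ⟨?_, fun W _ f => ?_⟩, fun o a => h3 _ a⟩
    · refine top_le_iff.1 (h2.gen ▸ Subgroup.closure_mono ?_)
      rintro _ ⟨o, a, rfl⟩
      exact ⟨e o, a, by rw [e.symm_apply_apply]⟩
    · obtain ⟨F, hF⟩ := h2.up W fun o => f (e o)
      exact ⟨F, fun o a => by rw [hF, e.apply_symm_apply]⟩
  · exact ⟨⟨PUnit, 1⟩, fun o => o.elim, in_of_subsingleton _,
      ⟨Subsingleton.elim _ _, fun W _ _ => ⟨1, fun o => o.elim⟩⟩, fun o => o.elim⟩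
  · rintro α _ ⟨C, ι, h1, h2, h3⟩
    obtain ⟨B, k, k', h⟩ := exists_cop C K
    refine ⟨B, fun o => o.elim k' fun o => k.comp (ι o), INF_cop hFPG C K B k k' h h1 hK,
      ⟨?_, fun W _ f => ?_⟩, ?_⟩
    · refine top_le_iff.1 (h.1.gen ▸ (Subgroup.closure_le _).2 ?_)
      rintro _ (⟨c, rfl⟩ | ⟨a, rfl⟩)
      · have hc : c ∈ Subgroup.closure {h | ∃ o a, h = ι o a} := h2.gen ▸ Subgroup.mem_top c
        refine Subgroup.mem_comap.1 ((Subgroup.closure_le (Subgroup.comap k _)).2 ?_ hc)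
        rintro _ ⟨o, a, rfl⟩
        exact Subgroup.subset_closure ⟨some o, a, rfl⟩
      · exact Subgroup.subset_closure ⟨none, a, rfl⟩
    · obtain ⟨F, hF⟩ := h2.up W fun o => f (some o)
      obtain ⟨G, g1, g2⟩ := h.1.up W F (f none)
      refine ⟨G, ?_⟩
      rintro (_ | o) a
      · exact g2 a
      · exact (g1 _).trans (hF o a)
    · rintro (_ | o) a
      · exact h.2.2 a
      · exact (h.2.1 _).trans (h3 o a)

end Pool.Agent.P.MP_67c9d4_al.MX
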