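import Pool.Agent.P.MP_67c9d4_al.MX.Iface
import Pool.Agent.P.MP_67c9d4_al.FC.Fin

/-! Step MAIN3. -/

set_option autoImplicit false
set_option linter.unusedSectionVars false

namespace Pool.Agent.P.MP_67c9d4_al.MX

open Equiv Wr Multiplicative FC FR

theorem p_MAIN3 (hQALL2 : S_QALL2) (hVIS3 : S_VIS3) (hNF2 : S_NF2) :
    S_MAIN3 := by
  intro H _ χ hH hT hv
  obtain ⟨M, hM, h⟩ := hQALL2 H χ hH hT
  have : NeZero M := ⟨hM.ne'⟩
  have s0 : Subsingleton (B0 Empty).H := inferInstanceAs (Subsingleton (FreeGroup Empty))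
  have t0 : Tw2 (B0 Empty) := ⟨Empty, inferInstance, B0 Empty, B0 Empty, MonoidHom.id _,
    Empty.elim, _, _, in_of_subsingleton _, ⟨Subsingleton.elim _ _,
      fun W _ f _ => ⟨f, fun _ => rfl, fun v => v.elim⟩⟩, fun _ => rfl, fun v => v.elim, .base,
    fun _ h => h.elim⟩
  obtain ⟨P, hP, i, U, Ω, x, hc⟩ := h M hM dvd_rfl (B0 Empty) t0
  have h1 : ∀ c, i c = 1 := fun c => by
    rw [Subsingleton.elim c 1]
    exact map_one i
  have h3 : VA P.H := (hNF2 P hP (hVIS3 M H Ω χ _ P i U x hc h1 hT hv.vr)).va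
  obtain ⟨F, -, hF, -⟩ := hc.up H 1 (cst (pHom.comp U) (MonoidHom.id H)) (fun _ => 1) fun _ => rfl
  have := stb_fi U 0
  refine VA.map (G' := stb U 0) (va_comap h3 (J := stH U 0) fun a b hab => Subtype.ext ?_)
    (stb U 0).subtype_injective (by rwa [Subgroup.range_subtype])
  have k : ∀ g : H, F ((U g).c 0) = g := fun g => congrArg (fun w => Wr.c w 0) (hF g)
  rw [← k a, ← k b]
  exact congrArg F hab

end Pool.Agent.P.MP_67c9d4_al.MX
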