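import Pool.Agent.P.MP_67c9d4_al.MX.Iface

/-! Step MALZ. -/

set_option autoImplicit false
set_option linter.unusedSectionVars false

namespace Pool.Agent.P.MP_67c9d4_al.MX

open Equiv Wr Multiplicative FC FR

theorem p_MALZ :
    S_MALZ := by
  intro C _ χ hT hZ y hy g a ha hc
  have h1 : Commute (g * y ^ (-(χ g).toAdd)) (y ^ a) :=
    hc.mul_left (Commute.zpow_zpow_self y _ _)
  have h0 : χ (g * y ^ (-(χ g).toAdd)) = 1 := by
    rw [map_mul, chi_zpow hy, ofAdd_neg, ofAdd_toAdd, mul_inv_cancel]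
  obtain ⟨m, n, h2, h3⟩ := hZ.comm h1
  have h4 := congrArg χ h3
  rw [map_mul, map_zpow, h0, one_zpow, one_mul, ← zpow_mul, chi_zpow hy, map_one] at h4
  have h5 : n = 0 := (mul_eq_zero.1 (ofAdd_eq_one.1 h4)).resolve_left ha
  rw [h5, zpow_zero, mul_one] at h3
  have h6 := hT.zpow (h2.resolve_right (not_not.2 h5)) h3
  rw [zpow_neg, mul_inv_eq_one] at h6
  exact ⟨_, h6.symm⟩

end Pool.Agent.P.MP_67c9d4_al.MX
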