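import Pool.Agent.P.MP_67c9d4_al.MX.Iface

/-! Step NEL. -/

set_option autoImplicit false
set_option linter.unusedSectionVars false

namespace Pool.Agent.P.MP_67c9d4_al.MX

open Equiv Wr Multiplicative FC FR

theorem NEL_retr {T : Type} (Γ : SimpleGraph T) (S : Set T) : ∃ r : RAAG Γ →* RAAG Γ,
    (∀ x ∈ PS Γ S, r x = x) ∧ ∀ U : Set T, ∀ x ∈ PS Γ U, r x ∈ PS Γ (S ∩ U) := by
  classical
  obtain ⟨r, hr⟩ := raag_lift (Γ := Γ) (W := RAAG Γ)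
    (fun b => if b ∈ S then PresentedGroup.of b else 1) fun a b h => by
      split_ifs
      · exact of_comm h
      all_goals simp
  refine ⟨r, fun x hx => ?_, fun U x hx => ?_⟩
  · refine (Subgroup.closure_le (r.eqLocus (MonoidHom.id _))).2 ?_ hx
    rintro _ ⟨b, hb, rfl⟩
    exact (hr b).trans (if_pos hb)
  · refine (Subgroup.closure_le ((PS Γ (S ∩ U)).comap r)).2 ?_ hx
    rintro _ ⟨b, hb, rfl⟩
    change r _ ∈ PS Γ _
    rw [hr]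
    split_ifs with h
    · exact Subgroup.subset_closure ⟨b, ⟨h, hb⟩, rfl⟩
    · exact one_mem _

theorem p_NEL :
    S_NEL := by
  intro T _ Γ y hy
  by_contra h
  push Not at h
  obtain ⟨S, ⟨c, hc⟩, hm⟩ := (Set.toFinite {S : Set T | ∃ c, c⁻¹ * y * c ∈ PS Γ S}).exists_minimal
    ⟨Set.univ, 1, PS_univ _⟩
  rcases S.eq_empty_or_nonempty with rfl | ⟨a, ha⟩
  · rw [PS_empty, mul_assoc, inv_mul_eq_one, eq_comm, mul_eq_right] at hc
    exact hy hc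
  obtain ⟨d, hd⟩ := h a
  obtain ⟨r, h1, h2⟩ := NEL_retr Γ S
  refine (hm (y := S ∩ {a}ᶜ) ⟨c * r (c⁻¹ * d), ?_⟩ Set.inter_subset_left ha).2 rfl
  have h3 := h2 _ _ hd
  rw [show d⁻¹ * y * d = (c⁻¹ * d)⁻¹ * (c⁻¹ * y * c) * (c⁻¹ * d) by group, map_mul, map_mul,
    h1 _ hc, map_inv] at h3
  rwa [show (c * r (c⁻¹ * d))⁻¹ * y * (c * r (c⁻¹ * d)) =
    (r (c⁻¹ * d))⁻¹ * (c⁻¹ * y * c) * r (c⁻¹ * d) by group]

end Pool.Agent.P.MP_67c9d4_al.MX
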