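import Pool.Agent.P.MP_67c9d4_al.MX.Iface

/-! Step NP2. -/

set_option autoImplicit false
set_option linter.unusedSectionVars false

namespace Pool.Agent.P.MP_67c9d4_al.MX

open Equiv Wr Multiplicative FC FR

open TD in
theorem p_NP2 :
    S_NP2 := by
  intro C H V E _ _ D f hX hY y u c l c' l' hc hc' K hK
  obtain ⟨L, hL⟩ := hY y c l hc
  obtain ⟨N, hN, h⟩ := FN.exists_forall (J := Fin l')
    (p := fun d N => ∀ g : C, (∀ i : Fin (L + l * l'),
      (c i).2⁻¹ * f g * (c' (i + d)).2 ∈ D.P (c i).1 ⊔ N) →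
      ∃ g' : C, (∀ i : Fin (L + l * l'), (c i).2⁻¹ * f g' * (c' (i + d)).2 ∈ D.P (c i).1) ∧
        g'⁻¹ * g ∈ K)
    (fun d N N' le h g e => h g fun i => sup_le_sup_left le _ (e i)) fun d =>
      hX (Fin (L + l * l')) (fun i => c i) (fun i => (c' (i + d)).2) K hK
  refine ⟨N, hN, fun g d hg => ?_⟩
  have p : (0 : ℤ) < l' := Int.natCast_pos.2 hc'.pos
  obtain ⟨d₀, e1⟩ := Int.eq_ofNat_of_zero_le (Int.emod_nonneg d p.ne')
  have e2 : d₀ < l' := by have := Int.emod_lt_of_pos d p; omega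
  obtain ⟨m, rfl⟩ : ∃ m : ℤ, d = d₀ + l' * m := ⟨d / l', by rw [← e1, Int.emod_add_mul_ediv]⟩
  obtain ⟨g₂, b1, b2⟩ := h ⟨d₀, e2⟩ (g * u ^ m) fun i => by
    have h1 := (hg i).2
    rw [← add_assoc, hc'.zper] at h1
    simpa [act, mul_assoc] using h1
  have key : ∀ j : ℕ, j < L → f ((y ^ l')⁻¹ * (g₂ * u ^ l * g₂⁻¹)) ∈ D.St (c j) := fun j hj => by
    have h1 := b1 ⟨j, by omega⟩
    have h2 := b1 ⟨j + l * l', by omega⟩
    simp only [Nat.cast_add, Nat.cast_mul] at h1 h2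
    rw [add_right_comm, hc.zper, mul_comm (l : ℤ), hc'.zper] at h2
    refine mem_cj.2 ?_
    simpa [act, mul_assoc] using mul_mem h2 (inv_mem h1)
  refine ⟨g₂ * (u ^ m)⁻¹, ?_, ?_⟩
  · rw [← inv_mul_eq_one.1 (hL _ key) |>.symm]
    group
  · have := hK.1.conj_mem _ b2 (u ^ m)
    simpa [mul_assoc] using this

end Pool.Agent.P.MP_67c9d4_al.MX
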