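import Pool.Agent.P.MP_67c9d4_al.MX.Iface

/-! Step PSC. -/

set_option autoImplicit false
set_option linter.unusedSectionVars false

namespace Pool.Agent.P.MP_67c9d4_al.MX

open Equiv Wr Multiplicative FC FR

theorem p_PSC (hG2 : S_G2) :
    S_PSC := by
  refine fun T Γ => ⟨fun S g x L₁ L₂ hL h1 h2 => ?_, fun S S' hd g h1 h2 => ?_,
    fun Y Y' h h' x L₁ L₂ hL h1 h2 => ⟨h x L₁ L₂ hL h1.1 h2.1, h' x L₁ L₂ hL h1.2 h2.2⟩⟩
  · replace h1 : g⁻¹ * x ∈ PS Γ S := h1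
    replace h2 : g⁻¹ * (x * wd Γ (L₁ ++ L₂)) ∈ PS Γ S := h2
    rw [← mul_assoc, Subgroup.mul_mem_cancel_left _ h1] at h2
    change g⁻¹ * (x * wd Γ L₁) ∈ PS Γ S
    rw [← mul_assoc]
    exact mul_mem h1 (wd_mem fun y hy => (hG2 T Γ).2.1 S _ hL h2 y (List.mem_append_left _ hy))
  · obtain ⟨L, hL, rfl⟩ := (hG2 T Γ).1 g
    obtain _ | ⟨x, L⟩ := L
    · rfl
    · exact (Set.disjoint_left.1 hd ((hG2 T Γ).2.1 S _ hL h1 x List.mem_cons_self)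
        ((hG2 T Γ).2.1 S' _ hL h2 x List.mem_cons_self)).elim

end Pool.Agent.P.MP_67c9d4_al.MX
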