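import Pool.Agent.P.MP_67c9d4_al.MX.Iface
import Pool.Agent.P.MP_67c9d4_al.FC.QALL

/-! Step QALL2. -/

set_option autoImplicit false
set_option linter.unusedSectionVars false

namespace Pool.Agent.P.MP_67c9d4_al.MX

open Equiv Wr Multiplicative FC FR

open QALLx in
lemma QALL2_qh (hQH : S_QH2) {G G' : Type} [Group G] [Group G'] {i : G →* G'} {a b : G} {s : G'}
    {χ : G' →* MZ} {M : ℕ} (h : IsHNN i a b s) (h1 : χ (i a) ≠ 1) (hM : 0 < M)
    (hd : (χ (i a)).toAdd.natAbs ∣ M) (hQ : QM2 M (χ.comp i)) : QM2 M χ := by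
  obtain ⟨m, rfl⟩ := hd
  have hm := Nat.pos_of_mul_pos_left hM
  rcases Int.natAbs_eq (χ (i a)).toAdd with e | e
  · exact hQH G G' i a b s χ _ m h (pos h1) hm (by rw [← e, ofAdd_toAdd]) hQ
  · exact hQH G G' i a⁻¹ b⁻¹ s χ _ m h.inv (pos h1) hm
      (by rw [map_inv, map_inv, ← neg_eq_iff_eq_neg.2 e, ofAdd_neg, ofAdd_toAdd]) hQ

open QALLx in
theorem p_QALL2 (hQF2 : S_QF2) (hQH2 : S_QH2) (hQC2 : S_QC2) (hQR2 : S_QR2) (hQB : S_QB) (hBPF : S_BPF) (hBPIN : S_BPIN) (hAMF : S_AMF) (hHNM : S_HNM) :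
    S_QALL2 := by
  intro G _ χ h
  induction h with
  | free V χ => exact fun _ => ⟨1, one_pos, fun M hM _ => hQF2 M V χ hM⟩
  | @base G _ χ h1 h2 =>
    refine fun hT => ⟨1, one_pos, fun M hM _ => ?_⟩
    have : NeZero M := ⟨hM.ne'⟩
    let K : Subgroup G := (pHom.comp ((etaM M).comp χ)).ker
    have hK : ∀ g, g ∈ K ↔ (M : ℤ) ∣ (χ g).toAdd := fun g => by
      change (etaM M (χ g)).p = 1 ↔ _
      rw [etaM_p, ← ZMod.intCast_zmod_eq_zero_iff_dvd]
      exact ⟨fun e => by simpa using DFunLike.congr_fun e 0, fun e => by rw [e]; simp⟩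
    obtain ⟨χK, hχ⟩ := exists_div χ M K fun k hk => (hK k).1 hk
    exact hQB M G χ K χK hM hK hχ
      (hBPIN K (hBPF.2 G (hBPF.1 G hT h2 h1) K (FN.ker _).2) χK)
  | @hnn G _ A B φ a χ h1 h2 _ ih =>
    intro hT
    obtain ⟨M₀, h3, h4⟩ := ih (hT.comap (HNNExtension.of_injective φ))
    obtain ⟨b, hb⟩ := hHNM G A B φ a h1
    exact ⟨M₀ * _, Nat.mul_pos h3 (pos h2), fun M hM hd =>
      QALL2_qh hQH2 hb h2 hM (dvd_of_mul_left_dvd hd) (h4 M hM (dvd_of_mul_right_dvd hd))⟩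
  | @amal G _ φ χ h1 _ ih =>
    intro hT
    have inj : ∀ i, Function.Injective (φ i) := fun i => by
      refine (injective_iff_map_eq_one _).2 fun x hx => ?_
      have e1 : χ (Monoid.PushoutI.base φ x) = 1 := by
        rw [← Monoid.PushoutI.of_apply_eq_base φ i, hx, map_one, map_one]
      have e2 : x = ofAdd 1 ^ x.toAdd := by simp [← ofAdd_zsmul]
      rw [e2, map_zpow, map_zpow] at e1
      by_contra hx1
      exact h1 (zpow_left_injective (toAdd_eq_zero.not.2 hx1) (e1.trans (one_zpow _).symm))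
    choose M₀ h3 h4 using fun i => ih i (hT.comap (Monoid.PushoutI.of_injective inj i))
    obtain ⟨G', _, i, s, J, χ', h5, h6, h7, h8, h9⟩ := hAMF G φ χ
    have e : χ' (i (Monoid.Coprod.inl (φ true (ofAdd 1)))) =
        χ (Monoid.PushoutI.base φ (ofAdd 1)) := by
      rw [← Monoid.PushoutI.of_apply_eq_base φ true]
      exact DFunLike.congr_fun h8 _
    refine ⟨M₀ true * M₀ false * _, Nat.mul_pos (Nat.mul_pos (h3 _) (h3 _)) (pos h1),
      fun M hM hd => ?_⟩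
    have h10 := dvd_of_mul_right_dvd hd
    rw [← h7]
    refine hQR2 M _ G' Unit J _ χ' h6 (QALL2_qh hQH2 h5 (e ▸ h1) hM (e ▸ dvd_of_mul_left_dvd hd)
      (hQC2 M _ _ _ ?_ ?_))
    · rw [h8]
      exact h4 _ M hM (dvd_of_mul_right_dvd h10)
    · rw [h9]
      exact h4 _ M hM (dvd_of_mul_left_dvd h10)

end Pool.Agent.P.MP_67c9d4_al.MX
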