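import Pool.Agent.P.MP_67c9d4_al.MX.Iface

/-! Step QB. -/

set_option autoImplicit false
set_option linter.unusedSectionVars false

namespace Pool.Agent.P.MP_67c9d4_al.MX

open Equiv Wr Multiplicative FC FR

lemma QB_orb {G X : Type} [Group G] [Finite X] (α : G →* Perm X) :
    ∃ (O : Type) (_ : Finite O) (mk : X → O) (out : O → X) (gx : X → G),
      (∀ o, mk (out o) = o) ∧ (∀ g ξ, mk ((α g)⁻¹ ξ) = mk ξ) ∧
        (∀ ξ, α (gx ξ) ξ = out (mk ξ)) ∧ ∀ o, gx (out o) = 1 := by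
  classical
  let s : Setoid X := ⟨fun a b => ∃ g, α g b = a, fun a => ⟨1, by simp⟩,
    fun ⟨g, h⟩ => ⟨g⁻¹, by simp [← h]⟩, fun ⟨g, h⟩ ⟨g', h'⟩ => ⟨g * g', by simp [h, h']⟩⟩
  have h : ∀ ξ : X, ∃ g, α g ξ = (Quotient.mk s ξ).out := fun ξ => Quotient.mk_out (s := s) ξ
  choose g hg using h
  refine ⟨Quotient s, inferInstance, Quotient.mk s, Quotient.out,
    fun ξ => if ξ = (Quotient.mk s ξ).out then 1 else g ξ, Quotient.out_eq,
    fun a ξ => Quotient.sound ⟨a⁻¹, by simp⟩, fun ξ => ?_, fun o => by simp⟩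
  by_cases e : ξ = (Quotient.mk s ξ).out
  · simp only [if_pos e]
    simpa using e
  · simp only [if_neg e, hg]

lemma QB_coc {G X W : Type} [Group G] [Group W] (ρ : G →* Wr X W) (a g c : G) (ξ β : X)
    (h1 : (ρ a).p ξ = β) (h2 : (ρ c).p ((ρ g).p⁻¹ ξ) = β) :
    (ρ g).c ξ = ((ρ a).c β)⁻¹ * (ρ (a * g * c⁻¹)).c β * (ρ c).c β := by
  have e : (ρ a).p⁻¹ β = ξ := Perm.inv_eq_iff_eq.2 h1.symm
  rw [map_mul, map_mul, map_inv, mul_c, mul_c, inv_c, mul_p, mul_inv_rev, Perm.mul_apply, e, h2]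
  group

theorem p_QB (hINF : S_INF) (hADDC : S_ADDC) (hADDF2 : S_ADDF2) :
    S_QB := by
  intro M G _ χ K χK hM hK hχ hI C hC
  have : NeZero M := ⟨hM.ne'⟩
  let η : G →* Wr (ZMod M) MZ := (etaM M).comp χ
  let α : G →* Perm (ZMod M) := pHom.comp η
  have hα : ∀ g, α g = Equiv.addRight (((χ g).toAdd : ℤ) : ZMod M) := fun g => etaM_p M _
  have hfix : ∀ g ξ, α g ξ = ξ → g ∈ K := fun g ξ h => by
    rw [hα] at h
    rw [hK, ← ZMod.intCast_zmod_eq_zero_iff_dvd]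
    simpa using h
  have hone : ∀ k : K, α k = 1 := fun k => by
    rw [hα, (ZMod.intCast_zmod_eq_zero_iff_dvd _ M).2 ((hK k).1 k.2)]
    simp
  have hη : ∀ (k : K) ξ, (η k).c ξ = χK k := fun k ξ => by
    have e : χ k = ofAdd (M : ℤ) ^ (χK k).toAdd := toAdd.injective (by simp [hχ, mul_comm])
    have e1 : (etaM M (ofAdd (M : ℤ))).p = 1 := by rw [etaM_p]; simp
    change (etaM M (χ k)).c ξ = _
    rw [e, map_zpow, zpow_c e1, etaM_c hM]
    exact toAdd.injective (by simp)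
  obtain ⟨O, _, mk, out, gx, o1, o2, o3, o4⟩ := QB_orb α
  obtain ⟨C', ι, hC', hι, hιχ⟩ := hINF.2 ⟨K, χK⟩ O hI
  obtain ⟨H₁, hH₁, i₁, i₁', hcop, c1, c2⟩ := hADDC C C' hC hC'
  obtain ⟨H, hH, i₂, x, hF, hi, hx⟩ := hADDF2 H₁ (ZMod M) (fun ξ => (η (gx ξ)).c (out (mk ξ))) hH₁
  have o5 : ∀ g ξ, α (gx ((α g)⁻¹ ξ)) ((α g)⁻¹ ξ) = out (mk ξ) := fun g ξ => by rw [o3, o2]
  let κ : G → ZMod M → K := fun g ξ => ⟨gx ξ * g * (gx ((α g)⁻¹ ξ))⁻¹, hfix _ (out (mk ξ)) (by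
    rw [map_mul, map_mul, map_inv, Perm.mul_apply, Perm.mul_apply,
      Perm.inv_eq_iff_eq.2 (o5 g ξ).symm, ← o3]
    simp)⟩
  let U : G →* Wr (ZMod M) H.H := MonoidHom.mk' (fun g => ⟨α g, fun ξ =>
    (x (some ξ))⁻¹ * i₂ (i₁' (ι (mk ξ) (κ g ξ))) * x (some ((α g)⁻¹ ξ))⟩) fun a b => by
      refine Wr.ext (map_mul α a b) (funext fun ξ => ?_)
      have e : κ (a * b) ξ = κ a ξ * κ b ((α a)⁻¹ ξ) := Subtype.ext (by simp [κ, mul_assoc])
      simp only [mul_c, o2, e, map_mul, mul_inv_rev, Perm.mul_apply]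
      group
  have hU : ∀ g ξ, (U g).c ξ =
      (x (some ξ))⁻¹ * i₂ (i₁' (ι (mk ξ) (κ g ξ))) * x (some ((α g)⁻¹ ξ)) := fun _ _ => rfl
  refine ⟨H, hH, i₂.comp i₁, U, Option O, fun o => x (o.map out), fun c => (hi _).trans (c1 c),
    fun g => Wr.ext rfl (funext fun ξ => ?_), ?_, fun W _ f ρ y hρ => ?_⟩
  · rw [push_c, hU, map_mul, map_mul, map_inv, hx, hx, hi, c2, hιχ, o2]
    exact ((QB_coc η (gx ξ) g _ ξ _ (o3 ξ) (o5 g ξ)).trans (by rw [hη (κ g ξ)])).symm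
  · set S := Subgroup.closure (Set.range (i₂.comp i₁) ∪ {h | ∃ g ξ, h = (U g).c ξ} ∪
      Set.range fun o : Option O => x (o.map out))
    have s1 : ∀ g ξ, (U g).c ξ ∈ S := fun g ξ =>
      Subgroup.subset_closure (Or.inl (Or.inr ⟨g, ξ, rfl⟩))
    have s2 : ∀ o : Option O, x (o.map out) ∈ S := fun o =>
      Subgroup.subset_closure (Or.inr ⟨o, rfl⟩)
    have s3 : ∀ o (k : K), i₂ (i₁' (ι o k)) ∈ S := fun o k => by
      have e : κ k (out o) = k := Subtype.ext (by simp [κ, hone, o4])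
      have := mul_mem (mul_mem (s2 (some o)) (s1 k (out o))) (inv_mem (s2 (some o)))
      simpa [hU, e, hone, o1, mul_assoc] using this
    have s4 : ∀ c, i₂ (i₁' c) ∈ S := fun c =>
      (Subgroup.closure_le (S.comap (i₂.comp i₁'))).2 (by rintro _ ⟨o, k, rfl⟩; exact s3 o k)
        (hι.gen ▸ Subgroup.mem_top c)
    have s5 : ∀ c, i₂ c ∈ S := fun c =>
      (Subgroup.closure_le (S.comap i₂)).2 (by
        rintro _ (⟨a, rfl⟩ | ⟨a, rfl⟩)
        exacts [Subgroup.subset_closure (Or.inl (Or.inl ⟨a, rfl⟩)), s4 a])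
        (hcop.gen ▸ Subgroup.mem_top c)
    rw [eq_top_iff, ← hF.gen, Subgroup.closure_le]
    rintro _ (⟨c, rfl⟩ | ⟨_ | ξ, rfl⟩)
    · exact s5 c
    · exact s2 none
    · have := s1 (gx ξ) (out (mk ξ))
      rw [hU, Perm.inv_eq_iff_eq.2 (o3 ξ).symm] at this
      exact (S.mul_mem_cancel_left (mul_mem (inv_mem (s2 (some (mk ξ)))) (s5 _))).1 this
  · have hp : ∀ g, (ρ g).p = α g := hρ
    obtain ⟨F', h'⟩ := hι.up W fun o => MonoidHom.mk'
      (fun k : K => y (some o) * (ρ k).c (out o) * (y (some o))⁻¹) fun a b => by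
        simp [hp, hone, mul_assoc]
    obtain ⟨F₁, h1, h1'⟩ := hcop.up W f F'
    obtain ⟨F, h2, h3⟩ := hF.up W F₁ fun o =>
      o.elim (y none) fun ξ => y (some (mk ξ)) * (ρ (gx ξ)).c (out (mk ξ))
    refine ⟨F, fun c => (h2 _).trans (h1 c), fun g => Wr.ext (hρ g).symm (funext fun ξ => ?_), ?_⟩
    · rw [push_c, hU, map_mul, map_mul, map_inv, h3, h3, h2, h1', h',
        QB_coc ρ (gx ξ) g (gx ((α g)⁻¹ ξ)) ξ _ (hp _ ▸ o3 ξ) (by rw [hp, hp, o5])]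
      simp only [Option.elim_some, o2, MonoidHom.mk'_apply, κ]
      group
    · rintro (_ | o)
      · exact h3 none
      · exact (h3 (some (out o))).trans (by simp [o1, o4])

end Pool.Agent.P.MP_67c9d4_al.MX
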