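import Pool.Agent.P.MP_67c9d4_al.MX.Iface
import Pool.Agent.P.MP_67c9d4_al.FC.QC

/-! Step QC2. -/

set_option autoImplicit false
set_option linter.unusedSectionVars false

namespace Pool.Agent.P.MP_67c9d4_al.MX

open Equiv Wr Multiplicative FC FR

theorem p_QC2 :
    S_QC2 := by
  intro M G₁ G₂ _ _ χ h₁ h₂ C hC
  obtain ⟨H₁, hH₁, i₁, U₁, Ω₁, x₁, c₁⟩ := h₁ C hC
  obtain ⟨H, hH, i₂, U₂, Ω₂, x₂, c₂⟩ := h₂ H₁ hH₁
  refine ⟨H, hH, i₂.comp i₁, Monoid.Coprod.lift ((push i₂).comp U₁) U₂, Ω₁ ⊕ Ω₂,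
    Sum.elim (fun ω => i₂ (x₁ ω)) x₂, ?_, ?_, ?_, ?_⟩
  · intro c
    rw [MonoidHom.comp_apply, c₂.ci, c₁.ci]
  · have hχ : H.χ.comp i₂ = H₁.χ := MonoidHom.ext c₂.ci
    have key : (push H.χ).comp (Monoid.Coprod.lift ((push i₂).comp U₁) U₂) =
        (etaM M).comp χ := by
      refine Monoid.Coprod.hom_ext (MonoidHom.ext fun g => ?_) (MonoidHom.ext fun g => ?_)
      · simp only [MonoidHom.comp_apply, Monoid.Coprod.lift_apply_inl]
        rw [QCx.push_push, hχ]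
        exact c₁.cU g
      · simp only [MonoidHom.comp_apply, Monoid.Coprod.lift_apply_inr]
        exact c₂.cU g
    exact fun g => DFunLike.congr_fun key g
  · rw [eq_top_iff, ← c₂.gen, Subgroup.closure_le]
    set K := Subgroup.closure (Set.range (i₂.comp i₁) ∪
      {h | ∃ g ξ, h = (Monoid.Coprod.lift ((push i₂).comp U₁) U₂ g).c ξ} ∪
      Set.range (Sum.elim (fun ω => i₂ (x₁ ω)) x₂)) with hK
    have h1 : (⊤ : Subgroup H₁.H) ≤ K.comap i₂ := by
      rw [← c₁.gen, Subgroup.closure_le]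
      rintro h ((⟨c, rfl⟩ | ⟨g, ξ, rfl⟩) | ⟨ω, rfl⟩)
      · exact Subgroup.subset_closure (Or.inl (Or.inl ⟨c, rfl⟩))
      · refine Subgroup.subset_closure (Or.inl (Or.inr ⟨Monoid.Coprod.inl g, ξ, ?_⟩))
        rw [Monoid.Coprod.lift_apply_inl]; rfl
      · exact Subgroup.subset_closure (Or.inr ⟨Sum.inl ω, rfl⟩)
    rintro h ((⟨c, rfl⟩ | ⟨g, ξ, rfl⟩) | ⟨ω, rfl⟩)
    · exact h1 (Subgroup.mem_top c)
    · refine Subgroup.subset_closure (Or.inl (Or.inr ⟨Monoid.Coprod.inr g, ξ, ?_⟩))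
      rw [Monoid.Coprod.lift_apply_inr]
    · exact Subgroup.subset_closure (Or.inr ⟨Sum.inr ω, rfl⟩)
  · intro W _ f ρ y hρ
    obtain ⟨F₁, a₁, b₁, d₁⟩ := c₁.up W f (ρ.comp Monoid.Coprod.inl) (fun ω => y (Sum.inl ω))
      (fun g => by
        rw [MonoidHom.comp_apply, hρ, Monoid.Coprod.lift_apply_inl]; rfl)
    obtain ⟨F, a₂, b₂, d₂⟩ := c₂.up W F₁ (ρ.comp Monoid.Coprod.inr) (fun ω => y (Sum.inr ω))
      (fun g => by
        rw [MonoidHom.comp_apply, hρ, Monoid.Coprod.lift_apply_inr])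
    have hF : F.comp i₂ = F₁ := MonoidHom.ext a₂
    refine ⟨F, fun c => ?_, ?_, ?_⟩
    · rw [MonoidHom.comp_apply, a₂, a₁]
    · have key : (push F).comp (Monoid.Coprod.lift ((push i₂).comp U₁) U₂) = ρ := by
        refine Monoid.Coprod.hom_ext (MonoidHom.ext fun g => ?_) (MonoidHom.ext fun g => ?_)
        · simp only [MonoidHom.comp_apply, Monoid.Coprod.lift_apply_inl]
          rw [QCx.push_push, hF]
          exact b₁ g
        · simp only [MonoidHom.comp_apply, Monoid.Coprod.lift_apply_inr]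
          exact b₂ g
      exact fun g => DFunLike.congr_fun key g
    · rintro (ω | ω)
      · exact (a₂ _).trans (d₁ ω)
      · exact d₂ ω

end Pool.Agent.P.MP_67c9d4_al.MX
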