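import Pool.Agent.P.MP_67c9d4_al.MX.Iface

/-! Step RECT. -/

set_option autoImplicit false
set_option linter.unusedSectionVars false

namespace Pool.Agent.P.MP_67c9d4_al.MX

open Equiv Wr Multiplicative FC FR

lemma RECT_geo (hG1 : S_G1) {T : Type} {Γ : SimpleGraph T} {K : List (T × Bool)}
    (h : (walls Γ 1 K).Nodup) : Geo Γ K := fun L' e => by
  classical
  have h1 := (((hG1 T Γ).2 (wd Γ K)).2 L'.length).1 ⟨L', e, le_rfl⟩
  have h2 : Sp Γ 1 (wd Γ K) = ↑(walls Γ 1 K).toFinset := by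
    ext W
    rw [List.coe_toFinset, Set.mem_ofPred_eq, ← Sp_of_nodup h, one_mul]
  rwa [h2, Set.ncard_coe_finset, List.toFinset_card_of_nodup h, walls_length] at h1

lemma RECT_comm {T : Type} {Γ : SimpleGraph T} {L : List (T × Bool)} {x : T × Bool}
    (h : ∀ y ∈ L, Γ.Adj y.1 x.1) : Commute (wd Γ L) (wd Γ [x]) := by
  induction L with
  | nil => exact Commute.one_left _
  | cons y L ih =>
    rw [wd_cons]
    exact (wd_comm (h y List.mem_cons_self)).mul_left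
      (ih fun z hz => h z (List.mem_cons_of_mem _ hz))

lemma RECT_ew {T : Type} {Γ : SimpleGraph T} {L : List (T × Bool)} {x : T × Bool}
    (h : ∀ y ∈ L, Γ.Adj y.1 x.1) : ew Γ (wd Γ L) x = ew Γ 1 x := by
  have hu : (wd Γ L)⁻¹ ∈ PS Γ (Γ.neighborSet x.1) :=
    Subgroup.inv_mem _ (wd_mem fun y hy => (h y hy).symm)
  have hc := (RECT_comm h).eq
  obtain ⟨a, _ | _⟩ := x
  · refine wl_eq.2 ⟨rfl, ?_⟩
    simp only [cond_false]
    rwa [hc, one_mul, mul_inv_rev, inv_mul_cancel_right]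
  · exact wl_eq.2 ⟨rfl, by simpa using hu⟩

theorem p_RECT (hG2 : S_G2) (hG1 : S_G1) (hSAME : S_SAME) :
    S_RECT := by
  intro T Γ L M hL
  have nd : ∀ {K}, Geo Γ K → ∀ g, (walls Γ g K).Nodup := fun {K} h =>
    ((hG1 T Γ).1 K ((hG2 T Γ).2.2.1 K h)).2
  induction M with
  | nil => simp
  | cons x M ih =>
    intro hM h1 h2
    have hLM : Geo Γ (L ++ x :: M) := RECT_geo hG1 (by
      rw [walls_append, one_mul, List.nodup_append]
      refine ⟨nd hL _, nd hM _, fun W a _ b e => ?_⟩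
      subst e
      rw [← Sp_of_nodup (nd hL _), one_mul] at a
      rw [← Sp_of_nodup (nd hM _), h1] at b
      exact Set.disjoint_left.1 h2 a b)
    have hW : ew Γ 1 x ∈ Sp Γ 1 (wd Γ (x :: M)) := by
      have := (Sp_of_nodup (nd hM 1) (ew Γ 1 x)).2 List.mem_cons_self
      rwa [one_mul] at this
    obtain ⟨l₁, l₂, e⟩ := List.append_of_mem (Sp_sub _ _ _ (h1 ▸ hW))
    obtain ⟨M₁, x', M₂, e1, -, e2, -⟩ := walls_split e
    have hx : ∀ y ∈ L, Γ.Adj y.1 x.1 := fun y hy =>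
      (hSAME T Γ (L ++ M₁) M₂ x x' (by rwa [List.append_assoc, ← e1])
        (by rw [wd_append, ← e2])).2 y (List.mem_append_left _ hy)
    have hc := (RECT_comm hx).eq
    have s1 : Sp Γ (wd Γ [x]) 1 = {ew Γ 1 x} := by rw [Sp_comm, ← Sp_step, one_mul]
    have s2 : Sp Γ (wd Γ L) (wd Γ L * wd Γ [x]) = {ew Γ 1 x} := by rw [Sp_step, RECT_ew hx]
    have k : ∀ Z, Z ∈ Sp Γ 1 (wd Γ M) ↔
        ¬(wd Γ [x] • Z = ew Γ 1 x ↔ wd Γ [x] • Z ∈ Sp Γ 1 (wd Γ (x :: M))) := fun Z => by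
      rw [← smul_mem_Sp (wd Γ [x]), mul_one, ← wd_cons, Sp_xor _ 1, s1, Set.mem_singleton_iff]
    have := ih ((hG2 T Γ).2.2.2.1 [x] M hM).2 (Set.ext fun Z => by
      rw [k, ← smul_mem_Sp (wd Γ [x]), ← mul_assoc, ← hc, mul_assoc, ← wd_cons,
        Sp_xor _ (wd Γ L), Sp_comm, s2, h1, Set.mem_singleton_iff])
      (Set.disjoint_left.2 fun Z a b => by
        rw [k] at b
        have b1 : wd Γ [x] • Z ≠ ew Γ 1 x := fun e => b (iff_of_true e (e ▸ hW))
        have b2 : wd Γ [x] • Z ∈ Sp Γ 1 (wd Γ (x :: M)) :=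
          by_contra fun e => b (iff_of_false b1 e)
        rw [← smul_mem_Sp (wd Γ [x]), mul_one, ← hc] at a
        rcases Sp_tri _ 1 _ a with a | a
        · exact b1 (by rwa [s1] at a)
        rcases Sp_tri _ (wd Γ L) _ a with a | a
        · exact Set.disjoint_left.1 h2 a b2
        · exact b1 (by rwa [s2] at a))
    intro y hy z hz
    rcases List.mem_cons.1 hz with rfl | hz
    · exact hx y hy
    · exact this y hy z hz

end Pool.Agent.P.MP_67c9d4_al.MX
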