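import Pool.Agent.P.MP_67c9d4_al.MX.Iface

/-! Step SAME. -/

set_option autoImplicit false
set_option linter.unusedSectionVars false

namespace Pool.Agent.P.MP_67c9d4_al.MX

open Equiv Wr Multiplicative FC FR

lemma SAME_comm {T : Type} {Γ : SimpleGraph T} (a : T) {g : RAAG Γ}
    (hg : g ∈ PS Γ (Γ.neighborSet a)) : Commute (wd Γ [(a, true)]) g :=
  commute_PS (MonoidHom.id (RAAG Γ)) (x := wd Γ [(a, true)])
    (fun b hb => wd_comm (x := (a, true)) (y := (b, true)) hb) hg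

theorem p_SAME (hG2 : S_G2) :
    S_SAME := by
  intro T Γ L₁ L₂ x x' hG e
  obtain ⟨-, g2, -, g4, -, -⟩ := hG2 T Γ
  have h1 : Geo Γ L₁ := (g4 _ _ hG).1
  have h2 : Geo Γ (L₁ ++ [x']) := by
    rw [show L₁ ++ x' :: L₂ = (L₁ ++ [x']) ++ L₂ by simp] at hG
    exact (g4 _ _ hG).1
  obtain ⟨a, s⟩ := x
  obtain ⟨a', s'⟩ := x'
  obtain ⟨rfl, hp⟩ := wl_eq.1 e
  have good : wd Γ L₁ ∈ PS Γ (Γ.neighborSet a') → ∀ y ∈ L₁, Γ.Adj y.1 a' := fun h y hy =>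
    (g2 _ _ h1 h y hy).symm
  have bad : wd Γ L₁ * wd Γ [(a', s')] ∉ PS Γ (Γ.neighborSet a') := fun h => by
    rw [← wd_append] at h
    exact Γ.irrefl (g2 _ _ h2 h (a', s') (by simp))
  have hf : wd Γ [(a', false)] = (wd Γ [(a', true)])⁻¹ := by rw [wd_false, wd_true]
  cases s <;> cases s'
  · refine ⟨rfl, good ?_⟩
    change (wd Γ L₁ * wd Γ [(a', false)])⁻¹ * (1 * wd Γ [(a', false)]) ∈ _ at hp
    have hc := (SAME_comm a' hp).eq
    rw [hf] at hc hp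
    have : (wd Γ L₁)⁻¹ = (wd Γ L₁ * (wd Γ [(a', true)])⁻¹)⁻¹ * (1 * (wd Γ [(a', true)])⁻¹) := by
      apply mul_left_cancel (a := wd Γ [(a', true)])
      rw [hc]; group
    rw [← this] at hp
    exact (Subgroup.inv_mem_iff _).1 hp
  · exfalso
    change (wd Γ L₁)⁻¹ * (1 * wd Γ [(a', false)]) ∈ _ at hp
    have hc := (SAME_comm a' hp).eq
    rw [hf] at hc hp
    have : (wd Γ L₁ * wd Γ [(a', true)])⁻¹ = (wd Γ L₁)⁻¹ * (1 * (wd Γ [(a', true)])⁻¹) := by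
      apply mul_left_cancel (a := wd Γ [(a', true)])
      rw [hc]; group
    rw [← this] at hp
    exact bad ((Subgroup.inv_mem_iff _).1 hp)
  · exfalso
    change (wd Γ L₁ * wd Γ [(a', false)])⁻¹ * 1 ∈ _ at hp
    rw [mul_one] at hp
    exact bad ((Subgroup.inv_mem_iff _).1 hp)
  · refine ⟨rfl, good ?_⟩
    change (wd Γ L₁)⁻¹ * 1 ∈ _ at hp
    rw [mul_one] at hp
    exact (Subgroup.inv_mem_iff _).1 hp

end Pool.Agent.P.MP_67c9d4_al.MX
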