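import Pool.Agent.P.MP_67c9d4_al.MX.Iface

/-! Step TFM. -/

set_option autoImplicit false
set_option linter.unusedSectionVars false

namespace Pool.Agent.P.MP_67c9d4_al.MX

open Equiv Wr Multiplicative FC FR

theorem p_TFM :
    S_TFM := by
  intro X φ g hg
  have h1 : g.right = 1 :=
    (SemidirectProduct.rightHom.isOfFinOrder hg : IsOfFinOrder g.right).eq_one'
  have h2 : g = SemidirectProduct.inl g.left := SemidirectProduct.ext rfl h1
  rw [h2, SemidirectProduct.inl_injective.isOfFinOrder_iff] at hg
  rw [h2, IsOfFinOrder.eq_one' hg, map_one]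

end Pool.Agent.P.MP_67c9d4_al.MX
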