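import Pool.Agent.P.MP_67c9d4_al.MX.Iface
import Pool.Agent.P.MP_67c9d4_al.FR.TCNT

/-! Step THK. -/

set_option autoImplicit false
set_option linter.unusedSectionVars false

namespace Pool.Agent.P.MP_67c9d4_al.MX

open Equiv Wr Multiplicative FC FR

section
variable {T : Type} {Γ : SimpleGraph T}

lemma THK_cvx (hG2 : S_G2) (hG1 : S_G1) (Y : Set (RAAG Γ)) (ρ : ℕ) : Cvx Γ (Near Γ Y ρ) := by
  intro x L₁ L₂ hL hx hy W hW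
  have nd := ((hG1 T Γ).1 _ ((hG2 T Γ).2.2.1 _ hL)).2 x
  have nd' := nd
  rw [walls_append, List.nodup_append] at nd'
  by_cases h : W ∈ FR.Sp Γ x (x * wd Γ L₁)
  · have h1 : W ∈ walls Γ x L₁ := Sp_sub _ _ _ h
    have h2 : W ∉ FR.Sp Γ (x * wd Γ L₁) (x * wd Γ (L₁ ++ L₂)) := fun e => by
      rw [wd_append, ← mul_assoc] at e
      exact nd'.2.2 W h1 W (Sp_sub _ _ _ e) rfl
    refine hy W fun c hc => ?_
    rw [Sp_xor c (x * wd Γ L₁)]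
    exact fun e => h2 (e.1 (hW c hc))
  · refine hx W fun c hc => ?_
    rw [Sp_xor c (x * wd Γ L₁), Sp_comm (x * wd Γ L₁) x]
    exact fun e => h (e.1 (hW c hc))

lemma THK_inv {A : Subgroup (RAAG Γ)} {Y : Set (RAAG Γ)} (hY : ∀ a ∈ A, ∀ x ∈ Y, a * x ∈ Y)
    (ρ : ℕ) : ∀ a ∈ A, ∀ x ∈ Near Γ Y ρ, a * x ∈ Near Γ Y ρ := by
  intro p hp x h W hW
  obtain ⟨c, hc, v, hv, e⟩ := h (p⁻¹ • W) fun c hc => by
    rw [← smul_mem_Sp p, smul_inv_smul]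
    exact hW _ (hY p hp c hc)
  refine ⟨p * c, hY p hp c hc, v, hv, ?_⟩
  rw [← smul_mem_Sp p, smul_inv_smul, ← mul_assoc] at e
  exact e

lemma THK_cnt [Finite T] (hG1 : S_G1) (hMED : S_MED) (hGATE : S_GATE) {Y : Set (RAAG Γ)}
    (hY : Cvx Γ Y) (hne : Y.Nonempty) (ρ : ℕ) :
    ∃ r, ∀ x ∈ Near Γ Y ρ, ∃ z ∈ Y, Sh Γ r (z⁻¹ * x) := by
  have hU : (⋃ v ∈ {g : RAAG Γ | Sh Γ ρ g}, FR.Sp Γ 1 v).Finite :=
    (sh_finite ρ).biUnion fun v _ => ((hG1 T Γ).2 v).1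
  refine ⟨(⋃ v ∈ {g : RAAG Γ | Sh Γ ρ g}, FR.Sp Γ 1 v).ncard, fun x hN => ?_⟩
  obtain ⟨z, hz, hd⟩ := (hGATE T Γ Y hY x).2 hne
  refine ⟨z, hz, (((hG1 T Γ).2 _).2 _).2 (Set.ncard_le_ncard (fun W hW => ?_) hU)⟩
  have h1 : z • W ∈ FR.Sp Γ z x := (CNT_left z x W).2 hW
  have h2 : ∀ c ∈ Y, ∀ Z, Z ∈ FR.Sp Γ z x → Z ∉ FR.Sp Γ z c := fun c hc Z hZ =>
    Set.disjoint_left.1 (hd c hc) hZ
  obtain ⟨c, hc, v, hv, hcv⟩ := hN (z • W) fun c hc => by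
    rw [Sp_xor c z x, Sp_comm c z]
    exact fun e => h2 c hc _ h1 (e.2 h1)
  have h3 : z • W ∈ FR.Sp Γ z (c * v) := by
    rw [Sp_xor z c (c * v)]
    exact fun e => h2 c hc _ h1 (e.2 hcv)
  obtain ⟨μ, hμ⟩ := (hMED T Γ).2 (z⁻¹ * x) (z⁻¹ * (c * v))
  have h4 : Sh Γ ρ μ := by
    refine (((hG1 T Γ).2 μ).2 ρ).2 (le_trans ?_ ((((hG1 T Γ).2 v).2 ρ).1 hv))
    refine Set.ncard_le_ncard_of_injOn (fun Z => c⁻¹ • z • Z) (fun Z hZ => ?_)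
      (fun Z _ Z' _ e => MulAction.injective z (MulAction.injective c⁻¹ e)) ((hG1 T Γ).2 v).1
    rw [hμ] at hZ
    have a1 := (CNT_left z x Z).2 hZ.1
    have a2 := (CNT_left z (c * v) Z).2 hZ.2
    rw [Sp_xor z c (c * v)] at a2
    have a3 : z • Z ∈ FR.Sp Γ c (c * v) := by
      by_contra h
      exact a2 (iff_of_false (h2 c hc _ a1) h)
    have := (CNT_left c (c * v) (c⁻¹ • z • Z)).1 (by rwa [smul_inv_smul])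
    rwa [inv_mul_cancel_left] at this
  refine Set.mem_biUnion (show μ ∈ {g : RAAG Γ | Sh Γ ρ g} from h4) ?_
  rw [hμ]
  exact ⟨hW, (CNT_left z (c * v) W).1 h3⟩

end

theorem p_THK (hG2 : S_G2) (hG1 : S_G1) (hMED : S_MED) (hGATE : S_GATE) :
    S_THK := by
  intro T _ Γ A ⟨Y, hne, hY⟩ r
  obtain ⟨x₀, hx₀⟩ := id hne
  obtain ⟨r₀, hr₀⟩ := sh_exists x₀
  obtain ⟨r', hr'⟩ := THK_cnt hG1 hMED hGATE hY.cvx hne (r₀ + r)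
  obtain ⟨F, hF, hF'⟩ := hY.fin
  refine ⟨Near Γ Y (r₀ + r), ⟨THK_cvx hG2 hG1 Y _, THK_inv hY.inv _,
    Set.image2 (· * ·) F {g | Sh Γ r' g}, hF.image2 _ (sh_finite r'), fun x hx => ?_⟩,
    fun u hu W hW => ⟨x₀, hx₀, x₀⁻¹ * u, hr₀.inv.mul hu, ?_⟩⟩
  · obtain ⟨z, hz, e⟩ := hr' x hx
    obtain ⟨a, ha, w, hw, rfl⟩ := hF' z hz
    exact ⟨a, ha, w * ((a * w)⁻¹ * x), ⟨w, hw, _, e, rfl⟩, by group⟩
  · rw [mul_inv_cancel_left]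
    exact hW x₀ hx₀

end Pool.Agent.P.MP_67c9d4_al.MX
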