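import Pool.Agent.P.MP_67c9d4_al.FR.All
import Pool.Agent.P.MP_67c9d4_al.MX.TGW
import Pool.Agent.P.MP_67c9d4_al.MX.TCXC
import Pool.Agent.P.MP_67c9d4_al.MX.TCSC
import Pool.Agent.P.MP_67c9d4_al.MX.TGATE
import Pool.Agent.P.MP_67c9d4_al.MX.TTHK
import Pool.Agent.P.MP_67c9d4_al.MX.TPSC
import Pool.Agent.P.MP_67c9d4_al.MX.TCI
import Pool.Agent.P.MP_67c9d4_al.MX.TCF
import Pool.Agent.P.MP_67c9d4_al.MX.TDCS2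
import Pool.Agent.P.MP_67c9d4_al.MX.TAPX2
import Pool.Agent.P.MP_67c9d4_al.MX.TAPX3
import Pool.Agent.P.MP_67c9d4_al.MX.TSAME
import Pool.Agent.P.MP_67c9d4_al.MX.TRECT
import Pool.Agent.P.MP_67c9d4_al.MX.TCLOSE
import Pool.Agent.P.MP_67c9d4_al.MX.TDA
import Pool.Agent.P.MP_67c9d4_al.MX.TNEL
import Pool.Agent.P.MP_67c9d4_al.MX.TACY
import Pool.Agent.P.MP_67c9d4_al.MX.TNP2
import Pool.Agent.P.MP_67c9d4_al.MX.TCORE1b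
import Pool.Agent.P.MP_67c9d4_al.MX.TCORE2b
import Pool.Agent.P.MP_67c9d4_al.MX.TCOREb
import Pool.Agent.P.MP_67c9d4_al.MX.TMALZ
import Pool.Agent.P.MP_67c9d4_al.MX.TCO
import Pool.Agent.P.MP_67c9d4_al.MX.TIND
import Pool.Agent.P.MP_67c9d4_al.MX.TBPF
import Pool.Agent.P.MP_67c9d4_al.MX.TBPIN
import Pool.Agent.P.MP_67c9d4_al.MX.TFTD
import Pool.Agent.P.MP_67c9d4_al.MX.TFVP
import Pool.Agent.P.MP_67c9d4_al.MX.TFMAL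
import Pool.Agent.P.MP_67c9d4_al.MX.TFCO
import Pool.Agent.P.MP_67c9d4_al.MX.TFKL
import Pool.Agent.P.MP_67c9d4_al.MX.TFO1
import Pool.Agent.P.MP_67c9d4_al.MX.TFOJ
import Pool.Agent.P.MP_67c9d4_al.MX.TFPG
import Pool.Agent.P.MP_67c9d4_al.MX.TINF
import Pool.Agent.P.MP_67c9d4_al.MX.TCOPH
import Pool.Agent.P.MP_67c9d4_al.MX.TADDG
import Pool.Agent.P.MP_67c9d4_al.MX.TADDV2
import Pool.Agent.P.MP_67c9d4_al.MX.TADDC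
import Pool.Agent.P.MP_67c9d4_al.MX.TADDF2
import Pool.Agent.P.MP_67c9d4_al.MX.TDBL12
import Pool.Agent.P.MP_67c9d4_al.MX.TDBL2
import Pool.Agent.P.MP_67c9d4_al.MX.TQF2
import Pool.Agent.P.MP_67c9d4_al.MX.TQH2
import Pool.Agent.P.MP_67c9d4_al.MX.TQC2
import Pool.Agent.P.MP_67c9d4_al.MX.TQR2
import Pool.Agent.P.MP_67c9d4_al.MX.TQB
import Pool.Agent.P.MP_67c9d4_al.MX.TQALL2
import Pool.Agent.P.MP_67c9d4_al.MX.TNF12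
import Pool.Agent.P.MP_67c9d4_al.MX.TNF2
import Pool.Agent.P.MP_67c9d4_al.MX.TVIS3
import Pool.Agent.P.MP_67c9d4_al.MX.TMAIN3
import Pool.Agent.P.MP_67c9d4_al.MX.TTFM

/-! All steps put together. -/

set_option autoImplicit false

namespace Pool.Agent.P.MP_67c9d4_al.MX

theorem m_GW : S_GW := p_GW FC.t_COMP1 FR.a_G2 FR.a_G1
theorem m_CXC : S_CXC := p_CXC m_GW
theorem m_CSC : S_CSC := p_CSC m_CXC
theorem m_GATE : S_GATE := p_GATE FR.a_G2 FR.a_G1 FR.a_CAN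
theorem m_THK : S_THK := p_THK FR.a_G2 FR.a_G1 FR.a_MED m_GATE
theorem m_PSC : S_PSC := p_PSC FR.a_G2
theorem m_CI : S_CI := p_CI m_THK m_PSC
theorem m_CF : S_CF := p_CF
theorem m_DCS2 : S_DCS2 := p_DCS2 FR.a_G2 FR.a_G1 FR.a_ACT m_THK
theorem m_APX2 : S_APX2 := p_APX2 m_CI m_CF m_DCS2
theorem m_APX3 : S_APX3 := p_APX3 m_CF m_APX2
theorem m_SAME : S_SAME := p_SAME FR.a_G2
theorem m_RECT : S_RECT := p_RECT FR.a_G2 FR.a_G1 m_SAME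
theorem m_CLOSE : S_CLOSE := p_CLOSE FR.a_G2 FR.a_G1 m_GATE m_PSC m_RECT
theorem m_DA : S_DA := p_DA FR.a_DCS
theorem m_NEL : S_NEL := p_NEL
theorem m_ACY : S_ACY := p_ACY m_THK m_PSC m_CLOSE FC.t_KAP FC.t_SEG
theorem m_NP2 : S_NP2 := p_NP2
theorem m_CORE1b : S_CORE1b := p_CORE1b m_NP2 FC.t_EMB FC.t_PAR
theorem m_CORE2b : S_CORE2b := p_CORE2b FC.t_KAP FC.t_ETA
theorem m_COREb : S_COREb := p_COREb FC.t_AXIS m_CORE1b m_CORE2b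
theorem m_MALZ : S_MALZ := p_MALZ
theorem m_CO : S_CO := p_CO m_DA m_NEL m_ACY m_APX3 m_COREb m_MALZ
theorem m_IND : S_IND := p_IND
theorem m_BPF : S_BPF := p_BPF m_CF m_CSC
theorem m_BPIN : S_BPIN := p_BPIN m_CF m_CO m_IND m_MALZ FC.t_HO1 FC.t_HOJ
theorem m_FTD : S_FTD := p_FTD
theorem m_FVP : S_FVP := p_FVP m_FTD FC.t_T3 FC.t_VPS
theorem m_FMAL : S_FMAL := p_FMAL m_FTD FC.t_FIX
theorem m_FCO : S_FCO := p_FCO m_FTD FC.t_MAL FC.t_CORE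
theorem m_FKL : S_FKL := p_FKL m_FTD FC.t_AXIS FC.t_KILL
theorem m_FO1 : S_FO1 := p_FO1 m_FKL
theorem m_FOJ : S_FOJ := p_FOJ m_FCO FC.t_HOJ
theorem m_FPG : S_FPG := p_FPG m_FVP m_FMAL m_FCO m_FO1 m_FOJ FC.t_RFV FC.t_HO1 FC.t_HOJ
theorem m_INF : S_INF := p_INF m_FPG
theorem m_COPH : S_COPH := p_COPH
theorem m_ADDG : S_ADDG := p_ADDG m_COPH FC.t_HEX
theorem m_ADDV2 : S_ADDV2 := p_ADDV2 m_ADDG FC.t_PTW
theorem m_ADDC : S_ADDC := p_ADDC m_ADDG m_INF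
theorem m_ADDF2 : S_ADDF2 := p_ADDF2 m_ADDV2
theorem m_DBL12 : S_DBL12 := p_DBL12 m_ADDV2 FC.t_HEX
theorem m_DBL2 : S_DBL2 := p_DBL2 m_DBL12
theorem m_QF2 : S_QF2 := p_QF2 m_ADDF2
theorem m_QH2 : S_QH2 := p_QH2 m_DBL2 FC.t_ORB
theorem m_QC2 : S_QC2 := p_QC2
theorem m_QR2 : S_QR2 := p_QR2
theorem m_QB : S_QB := p_QB m_INF m_ADDC m_ADDF2
theorem m_QALL2 : S_QALL2 := p_QALL2 m_QF2 m_QH2 m_QC2 m_QR2 m_QB m_BPF m_BPIN FC.t_AMF FC.t_HNM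
theorem m_NF12 : S_NF12 :=
  p_NF12 FC.t_BGOOD FC.t_STEP FC.t_HDI FC.t_HINJ FC.t_PTW FC.t_REORD FC.t_MOVE FC.t_HEX m_FPG m_COPH
theorem m_NF2 : S_NF2 := p_NF2 m_NF12 FC.t_B0 FC.t_PTW
theorem m_VIS3 : S_VIS3 := p_VIS3 FC.t_SPLIT FC.t_FIXC
theorem m_MAIN3 : S_MAIN3 := p_MAIN3 m_QALL2 m_VIS3 m_NF2
theorem m_TFM : S_TFM := p_TFM

end Pool.Agent.P.MP_67c9d4_al.MX
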