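import Pool.Agent.P.MP_67c9d4_al.MX.Defs

/-! The statements of the steps. -/

set_option autoImplicit false

namespace Pool.Agent.P.MP_67c9d4_al.MX

open Equiv Wr Multiplicative FC FR

/-! ### Convex sets -/

-- deps: COMP1 G2 G1
def S_GW : Prop := ∀ (T Y : Type) (Γ : SimpleGraph T) (Mv : T × Bool → Y → Y → Prop), Cx Γ Mv →
  ∀ L M y y', Walk Mv L y y' → Geo Γ M → wd Γ M = wd Γ L → Walk Mv M y y'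

-- deps: GW
def S_CXC : Prop := ∀ (T Y : Type) (Γ : SimpleGraph T) (Mv : T × Bool → Y → Y → Prop) (y₀ : Y),
  Cx Γ Mv → {y | ∃ L, Walk Mv L y₀ y}.Finite → ∀ A : Subgroup (RAAG Γ),
  (∀ g, g ∈ A ↔ ∃ L, wd Γ L = g ∧ Walk Mv L y₀ y₀) → CoC Γ A

-- deps: CXC
-- imports: Pool.Agent.P.MP_67c9d4_al.SP.Spec
def S_CSC : Prop := ∀ (K : Type) [Group K], CompactSpecial K →
  ∃ (T : Type) (_ : Finite T) (Γ : SimpleGraph T) (f : K →* RAAG Γ),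
    Function.Injective f ∧ CoC Γ f.range

-- deps: G2 G1 CAN
def S_GATE : Prop := ∀ (T : Type) (Γ : SimpleGraph T) (Y : Set (RAAG Γ)), Cvx Γ Y → ∀ x,
  (∀ p ∈ Y, (∀ r, ∀ c ∈ Y, Sh Γ r (c⁻¹ * x) → Sh Γ r (p⁻¹ * x)) →
    ∀ c ∈ Y, Disjoint (Sp Γ p x) (Sp Γ p c)) ∧
  (Y.Nonempty → ∃ p ∈ Y, ∀ c ∈ Y, Disjoint (Sp Γ p x) (Sp Γ p c))

-- deps: G2 G1 MED GATE
-- imports: Pool.Agent.P.MP_67c9d4_al.FR.TCNT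
def S_THK : Prop := ∀ (T : Type) [Finite T] (Γ : SimpleGraph T) (A : Subgroup (RAAG Γ)),
  CoC Γ A → ∀ r, ∃ Y, Core Γ A Y ∧ ∀ u, Sh Γ r u → u ∈ Y

-- deps: G2
def S_PSC : Prop := ∀ (T : Type) (Γ : SimpleGraph T),
  (∀ S g, Cvx Γ {x | g⁻¹ * x ∈ PS Γ S}) ∧
  (∀ S S', Disjoint S S' → ∀ g ∈ PS Γ S, g ∈ PS Γ S' → g = 1) ∧
  ∀ Y Y', Cvx Γ Y → Cvx Γ Y' → Cvx Γ (Y ∩ Y')

-- deps: THK PSC
def S_CI : Prop := ∀ (T : Type) [Finite T] (Γ : SimpleGraph T) (A : Subgroup (RAAG Γ)),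
  CoC Γ A → ∀ g S, CoC Γ (A ⊓ cj g (PS Γ S))

-- deps:
def S_CF : Prop := ∀ (T : Type) (Γ : SimpleGraph T),
  (∀ A A' : Subgroup (RAAG Γ), CoC Γ A → A' ≤ A → (A'.subgroupOf A).FiniteIndex → CoC Γ A') ∧
  (∀ A N : Subgroup (RAAG Γ), CoC Γ A → FN N → CoC Γ (A ⊓ N)) ∧
  ∀ (C : Type) [Group C] (f : C →* RAAG Γ) (K : Subgroup C), CoC Γ f.range → K.FiniteIndex →
    CoC Γ (K.map f)

-- deps: G2 G1 ACT THK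
def S_DCS2 : Prop := ∀ (T : Type) [Finite T] (Γ : SimpleGraph T) (A : Subgroup (RAAG Γ))
  (S : Set T) (g h : RAAG Γ), CoC Γ A → ¬Dc A g (PS Γ S) h →
  ∃ N, FN N ∧ ∀ n ∈ N, ¬Dc A g (PS Γ S) (h * n)

-- deps: CI CF DCS2
def S_APX2 : Prop := ∀ (T : Type) [Finite T] (Γ : SimpleGraph T) (ι : Type) [Finite ι]
  (S : ι → Set T) (p q : ι → RAAG Γ) (A : Subgroup (RAAG Γ)) (w : RAAG Γ), CoC Γ A →
  ∃ N, FN N ∧ ∀ g, w⁻¹ * g ∈ A → (∀ i, (p i)⁻¹ * g * q i ∈ PS Γ (S i) ⊔ N) →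
    ∃ g', w⁻¹ * g' ∈ A ∧ ∀ i, (p i)⁻¹ * g' * q i ∈ PS Γ (S i)

-- deps: CF APX2
def S_APX3 : Prop := ∀ (T : Type) [Finite T] (Γ : SimpleGraph T) (C V E : Type) [Group C]
  (D : TD (RAAG Γ) V E) (f : C →* RAAG Γ), CoC Γ f.range → (∀ k, ∃ S, D.P k = PS Γ S) → Apx D f

-- deps: G2
def S_SAME : Prop := ∀ (T : Type) (Γ : SimpleGraph T) (L₁ L₂ : List (T × Bool)) (x x' : T × Bool),
  Geo Γ (L₁ ++ x' :: L₂) → ew Γ (wd Γ L₁) x' = ew Γ 1 x → x' = x ∧ ∀ y ∈ L₁, Γ.Adj y.1 x.1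

-- deps: G2 G1 SAME
def S_RECT : Prop := ∀ (T : Type) (Γ : SimpleGraph T) (L M : List (T × Bool)), Geo Γ L →
  Geo Γ M → Sp Γ (wd Γ L) (wd Γ L * wd Γ M) = Sp Γ 1 (wd Γ M) →
  Disjoint (Sp Γ 1 (wd Γ L)) (Sp Γ 1 (wd Γ M)) → ∀ x ∈ L, ∀ y ∈ M, Γ.Adj x.1 y.1

-- deps: G2 G1 GATE PSC RECT
def S_CLOSE : Prop := ∀ (T : Type) (Γ : SimpleGraph T) (C : Type) [Group C] (f : C →* RAAG Γ)
  (Y : Set (RAAG Γ)), Function.Injective f → TFr C → NoZ2 C → Core Γ f.range Y →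
  ∃ r, ∀ Y₁ Y₂ : Set (RAAG Γ), Y₁ ⊆ Y → Y₂ ⊆ Y → Cvx Γ Y₁ → Cvx Γ Y₂ → Y₁.Nonempty → Y₂.Nonempty →
    ∀ k : C, k ≠ 1 → (∀ x ∈ Y₁, f k * x ∈ Y₁) → (∀ x ∈ Y₂, f k * x ∈ Y₂) →
      ∃ p ∈ Y₁, ∃ q ∈ Y₂, Sh Γ r (p⁻¹ * q)

-- deps: DCS
def S_DA : Prop := ∀ (T : Type) [Finite T] (Γ : SimpleGraph T) (a : T),
  ∃ D : TD (RAAG Γ) Unit Unit, D.Tree ∧ D.Sp ∧ D.G () = PS Γ {a}ᶜ ∧
    ∀ k, D.P k = PS Γ (Γ.neighborSet a)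

-- deps:
def S_NEL : Prop := ∀ (T : Type) [Finite T] (Γ : SimpleGraph T) (y : RAAG Γ), y ≠ 1 →
  ∃ a, ∀ c, c⁻¹ * y * c ∉ PS Γ {a}ᶜ

-- deps: THK PSC CLOSE KAP SEG
def S_ACY : Prop := ∀ (T : Type) [Finite T] (Γ : SimpleGraph T) (C V E : Type) [Group C]
  (D : TD (RAAG Γ) V E) (f : C →* RAAG Γ), D.Tree → Function.Injective f → CoC Γ f.range →
  TFr C → NoZ2 C → (∀ k, ∃ S, D.P k = PS Γ S) → Acy D f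

/-! ### Omnipotence in a piece -/

-- deps:
def S_NP2 : Prop := ∀ (C H V E : Type) [Group C] [Group H] (D : TD H V E) (f : C →* H),
  Apx D f → Acy D f → ∀ (y u : C) c l c' l', D.Ax (f y) c l → D.Ax (f u) c' l' →
  ∀ K, FN K → ∃ N, FN N ∧ ∀ (g : C) (d : ℤ),
    (∀ i, D.Same N (c i) (TD.act (f g) (c' (i + d)))) →
      ∃ g' : C, g' * u ^ l * g'⁻¹ = y ^ l' ∧ g'⁻¹ * g ∈ K

-- deps: NP2 EMB PAR
-- imports: Pool.Agent.P.MP_67c9d4_al.FC.CORE1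
def S_CORE1b : Prop := ∀ (C H V E J : Type) [Group C] [Group H] [Finite J] (D : TD H V E)
  (f : C →* H) (χ : C →* MZ) (u : J → C) (c : J → ℤ → (E × Bool) × H) (l : J → ℕ) (j₀ : J),
  D.Tree → D.Sp → Apx D f → Acy D f → (∀ j, D.Ax (f (u j)) (c j) (l j)) →
  (∀ j, χ (u j) = ofAdd 1) → Mal (u j₀) → (∀ j, IsConj (u j₀) (u j) → j = j₀) → ∀ H₀, FN H₀ →
  ∃ N, FN N ∧ (∀ j, D.Emb N (f (u j)) (c j) (l j)) ∧ Par2 D f N H₀ u c j₀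

-- deps: KAP ETA
-- imports: Pool.Agent.P.MP_67c9d4_al.FC.CORE2
def S_CORE2b : Prop := ∀ (C H V E J : Type) [Group C] [Group H] [Finite J] (D : TD H V E)
  (f : C →* H) (N : Subgroup H) (H₀ : Subgroup C) (u : J → C) (c : J → ℤ → (E × Bool) × H)
  (l : J → ℕ) (j₀ : J), D.Tree → FN N → (∀ j, D.Ax (f (u j)) (c j) (l j)) →
  (∀ j, D.Emb N (f (u j)) (c j) (l j)) → Par2 D f N H₀ u c j₀ →
  CoreOut (u j₀) {z | ∃ j, j ≠ j₀ ∧ z = u j} {g | D.Ell (f g)} H₀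

-- deps: AXIS CORE1b CORE2b
def S_COREb : Prop := ∀ (C H V E : Type) [Group C] [Group H] (D : TD H V E) (f : C →* H)
  (χ : C →* MZ), D.Tree → D.Sp → Apx D f → Acy D f → V → ∀ y, ¬D.Ell (f y) → χ y = ofAdd 1 →
  Mal y → ∀ Z : Set C, Z.Finite → (∀ z ∈ Z, χ z = ofAdd 1 ∧ ¬IsConj y z) → ∀ H₀, FN H₀ →
  CoreOut y Z {g | D.Ell (f g)} H₀

-- deps:
def S_MALZ : Prop := ∀ (C : Type) [Group C] (χ : C →* MZ), TFr C → NoZ2 C →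
  ∀ y, χ y = ofAdd 1 → Mal y

-- deps: DA NEL ACY APX3 COREb MALZ
def S_CO : Prop := ∀ (T : Type) [Finite T] (Γ : SimpleGraph T) (C : Type) [Group C]
  (f : C →* RAAG Γ) (χ : C →* MZ), Function.Injective f → CoC Γ f.range → TFr C → NoZ2 C →
  ∀ y, χ y = ofAdd 1 → ∀ Z : Set C, Z.Finite → (∀ z ∈ Z, χ z = ofAdd 1 ∧ ¬IsConj y z) →
  ∀ H₀, FN H₀ → CoreOut y Z ∅ H₀

-- deps:
def S_IND : Prop := ∀ (C : Type) [Group C] (K : Subgroup C) (M : ℕ) (hM : ∀ g, g ^ M ∈ K),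
  FN K → 0 < M → ∀ (y : C) (Z : Set C) (H₀ : Subgroup C) (Z' : Set K),
  (∀ z ∈ Z, ∀ ξ : C ⧸ K, ∃ z' ∈ Z', (z' : C) = ξ.out⁻¹ * z ^ M * ξ.out) →
  (∀ ξ : C ⧸ K, ξ.out ∉ Subgroup.zpowers y ⊔ K →
    ∃ z' ∈ Z', (z' : C) = ξ.out⁻¹ * y ^ M * ξ.out) →
  CoreOut (⟨y ^ M, hM y⟩ : K) Z' ∅ (H₀.comap K.subtype) → CoreOut y Z ∅ H₀

-- deps: CF CSC
def S_BPF : Prop := (∀ (G : Type) [Group G], TFr G → NoZ2 G → Virtually CompactSpecial G → BP G) ∧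
  ∀ (G : Type) [Group G], BP G → ∀ K : Subgroup G, K.FiniteIndex → BP K

-- deps: CF CO IND MALZ HO1 HOJ
def S_BPIN : Prop := ∀ (G : Type) [Group G], BP G → ∀ χ : G →* MZ, In χ

/-! ### Free products -/

-- deps:
def S_FTD : Prop := ∀ (A C H : Type) [Group A] [Group C] [Group H] (i : A →* H) (i' : C →* H),
  IsCop i i' → ∃ D : TD H Bool Unit, D.Tree ∧ D.G true = i.range ∧ D.G false = i'.range ∧
    (∀ k, D.P k = ⊥) ∧ D.Ind ∧ (∀ g, D.Ell g ↔ EllF i i' g) ∧ (RF H → D.Sp)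

-- deps: FTD T3 VPS
def S_FVP : Prop := ∀ (A C H : Type) [Group A] [Group C] [Group H] (i : A →* H) (i' : C →* H),
  IsCop i i' → VP (⊥ : Subgroup A) → VP (⊥ : Subgroup C) → ∀ Λ : Subgroup A, VP Λ → VP (Λ.map i)

-- deps: FTD FIX
def S_FMAL : Prop := ∀ (A C H : Type) [Group A] [Group C] [Group H] (i : A →* H) (i' : C →* H),
  IsCop i i' → ∀ a : A, (∀ m : ℤ, m ≠ 0 → a ^ m ≠ 1) → Mal a → Mal (i a)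

-- deps: FTD MAL CORE
def S_FCO : Prop := ∀ (A C H : Type) [Group A] [Group C] [Group H] (i : A →* H) (i' : C →* H),
  IsCop i i' → RF H → ∀ (χ : H →* MZ) y, ¬EllF i i' y → χ y = ofAdd 1 → Mal y ∧
    ∀ Z : Set H, Z.Finite → (∀ z ∈ Z, χ z = ofAdd 1 ∧ ¬IsConj y z) → ∀ H₀, FN H₀ →
      CoreOut y Z {g | EllF i i' g} H₀

-- deps: FTD AXIS KILL
-- imports: Pool.Agent.P.MP_67c9d4_al.FC.SPARSE
def S_FKL : Prop := ∀ (A C H X : Type) [Group A] [Group C] [Group H] [Finite X] (i : A →* H)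
  (i' : C →* H), IsCop i i' → RF H → ∀ (σ : A →* Wr X MZ) (x₀ : X) (H₀ : Subgroup H) (Z : Set H),
  FN H₀ → Z.Finite → (∀ z ∈ Z, ¬EllF i i' z) →
  ∃ (X' : Type) (_ : Fintype X') (τ : H →* Wr X' MZ), (∀ z ∈ Z, Null τ z) ∧ (∀ c, Null τ (i' c)) ∧
    (∀ g (n : ℕ) x, (τ (i g ^ n)).p x = x → (τ (i g ^ n)).c x = 1 ∨
      ∃ x₁, (σ (g ^ n)).p x₁ = x₁ ∧ ((τ (i g ^ n)).c x = (σ (g ^ n)).c x₁ ∨
        (τ (i g ^ n)).c x = ((σ (g ^ n)).c x₁)⁻¹)) ∧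
    (∀ g, NZ σ g x₀ → ∃ x, NZ τ (i g) x) ∧
    ∀ g h x, NZ τ (i g) x → NZ τ (i g) ((τ h).p x) →
      ∃ u x₁, NZ σ g x₁ ∧ NZ σ g ((σ u).p x₁) ∧ (i u)⁻¹ * h ∈ H₀

-- deps: FKL
def S_FO1 : Prop := ∀ (A C H : Type) [Group A] [Group C] [Group H] (i : A →* H) (i' : C →* H),
  IsCop i i' → RF H → ∀ Z : Set H, Z.Finite → (∀ z ∈ Z, ¬EllF i i' z) →
  (∀ (y₀ : A) (Z₀ : Set A) (H₀ : Subgroup H), FN H₀ → O1c y₀ Z₀ (H₀.comap i) →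
    O1c (i y₀) (i '' Z₀ ∪ Set.range i' ∪ Z) H₀) ∧
  ∀ (g : A) (Z₀ : Set A), (∃ (X : Type) (_ : Fintype X) (σ : A →* Wr X MZ),
      (∀ z ∈ Z₀, Null σ z) ∧ ∃ x, NZ σ g x) →
    ∃ (X : Type) (_ : Fintype X) (σ : H →* Wr X MZ),
      (∀ z ∈ i '' Z₀ ∪ Set.range i' ∪ Z, Null σ z) ∧ ∃ x, NZ σ (i g) x

-- deps: FCO HOJ
def S_FOJ : Prop := ∀ (A C H : Type) [Group A] [Group C] [Group H] (i : A →* H) (i' : C →* H),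
  IsCop i i' → RF H → ∀ (χ : H →* MZ) (Z : Set H), Z.Finite →
  (∀ z ∈ Z, χ z = ofAdd 1 ∧ ¬EllF i i' z) → ∀ (y₀ : A) (Z₀ : Set A), OJc y₀ Z₀ →
    OJc (i y₀) (i '' Z₀ ∪ Set.range i' ∪ Z)

-- deps: FVP FMAL FCO FO1 FOJ RFV HO1 HOJ
def S_FPG : Prop := ∀ (A C H V : Type) [Group A] [Group C] [Group H] (i : A →* H) (i' : C →* H)
  (χ : H →* MZ) (χA : A →* MZ) (χC : C →* MZ) (t : V → A), IsCop i i' → (∀ a, χ (i a) = χA a) →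
  (∀ c, χ (i' c) = χC c) → Good χA t → In χC → Good χ (fun v => i (t v)) ∧
    ∀ y, χ y = ofAdd 1 → Gen χ (fun v => i (t v)) y ∨ ∃ y₀, IsConj (i y₀) y ∧ ¬Gen χA t y₀

-- deps: FPG
def S_INF : Prop := (∀ (A C B : MG) (k : A.H →* B.H) (k' : C.H →* B.H), CopM k k' → In A.χ →
    In C.χ → In B.χ) ∧
  ∀ (K : MG) (O : Type) [Finite O], In K.χ → ∃ (C : MG) (ι : O → K.H →* C.H), In C.χ ∧
    IsCoI ι ∧ ∀ o a, C.χ (ι o a) = K.χ a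

/-! ### Towers -/

-- deps:
def S_COPH : Prop := ∀ (A C B A₁ B₁ : Type) [Group A] [Group C] [Group B] [Group A₁] [Group B₁]
  (i : A →* B) (i' : C →* B) (k : A →* A₁) (i₁ : B →* B₁) (a g : A) (s₀ : A₁) (s₁ : B₁),
  IsCop i i' → IsHNN k a g s₀ → IsHNN i₁ (i a) (i g) s₁ →
  ∃ j : A₁ →* B₁, (∀ x, j (k x) = i₁ (i x)) ∧ j s₀ = s₁ ∧ IsCop j (i₁.comp i')

-- deps: COPH HEX
def S_ADDG : Prop := ∀ (B C B' : MG) (S : Set B.H) (k : B.H →* B'.H) (k' : C.H →* B'.H),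
  CopM k k' → ∀ (H : MG) (j : B.H →* H.H) (n : ℕ), PTow B S H j n →
  ∃ (H' : MG) (i : H.H →* H'.H) (i' : C.H →* H'.H) (j' : B'.H →* H'.H), CopM i i' ∧
    PTow B' (k '' S) H' j' n ∧ (∀ b, j' (k b) = i (j b)) ∧ ∀ c, j' (k' c) = i' c

-- deps: ADDG PTW
def S_ADDV2 : Prop := ∀ (C : MG) (Ω : Type) [Finite Ω], Tw2 C →
  ∃ (H : MG) (i : C.H →* H.H) (x : Ω → H.H), TwS H (Set.range x) ∧ IsFr i x ∧
    (∀ c, H.χ (i c) = C.χ c) ∧ ∀ ω, H.χ (x ω) = ofAdd 1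

-- deps: ADDG INF
def S_ADDC : Prop := ∀ C C' : MG, Tw2 C → In C'.χ →
  ∃ H, Tw2 H ∧ ∃ (i : C.H →* H.H) (i' : C'.H →* H.H), CopM i i'

-- deps: ADDV2
-- imports: Pool.Agent.P.MP_67c9d4_al.FC.ADDF
def S_ADDF2 : Prop := ∀ (C : MG) (Ω : Type) [Finite Ω] (e : Ω → MZ), Tw2 C → ∃ H, Tw2 H ∧
  ∃ (i : C.H →* H.H) (x : Option Ω → H.H), IsFr i x ∧ (∀ c, H.χ (i c) = C.χ c) ∧
    ∀ ω, H.χ (x (some ω)) = e ω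

-- deps: ADDV2 HEX
-- imports: Pool.Agent.P.MP_67c9d4_al.FC.DBL1
def S_DBL12 : Prop := ∀ (C : MG) (a b : C.H) (e : MZ), Tw2 C → C.χ a = ofAdd 1 →
  C.χ b = ofAdd 1 → ∃ H, Tw2 H ∧ ∃ (i : C.H →* H.H) (x σ : H.H),
    IsExt i (fun _ : Unit => x) (fun _ : Unit => a) (fun _ => b) (fun _ => σ) ∧
    (∀ c, H.χ (i c) = C.χ c) ∧ H.χ σ = e

-- deps: DBL12
-- imports: Pool.Agent.P.MP_67c9d4_al.FC.DBL
def S_DBL2 : Prop := ∀ (C : MG) (I : Type) [Finite I] (A B : I → C.H) (e : I → MZ), Tw2 C →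
  (∀ k, C.χ (A k) = ofAdd 1) → (∀ k, C.χ (B k) = ofAdd 1) → ∃ H, Tw2 H ∧
    ∃ (i : C.H →* H.H) (x σ : I → H.H), IsExt i x A B σ ∧ (∀ c, H.χ (i c) = C.χ c) ∧
      ∀ k, H.χ (σ k) = e k

-- deps: ADDF2
def S_QF2 : Prop := ∀ (M : ℕ) (V : Type) [Finite V] (χ : FreeGroup V →* MZ), 0 < M → QM2 M χ

-- deps: DBL2 ORB
-- imports: Pool.Agent.P.MP_67c9d4_al.FC.QH
def S_QH2 : Prop := ∀ (G G' : Type) [Group G] [Group G'] (i : G →* G') (a b : G) (s : G')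
  (χ : G' →* MZ) (k m : ℕ), IsHNN i a b s → 0 < k → 0 < m → χ (i a) = ofAdd (k : ℤ) →
  QM2 (k * m) (χ.comp i) → QM2 (k * m) χ

-- deps:
-- imports: Pool.Agent.P.MP_67c9d4_al.FC.QC
def S_QC2 : Prop := ∀ (M : ℕ) (G₁ G₂ : Type) [Group G₁] [Group G₂]
  (χ : Monoid.Coprod G₁ G₂ →* MZ), QM2 M (χ.comp Monoid.Coprod.inl) →
  QM2 M (χ.comp Monoid.Coprod.inr) → QM2 M χ

-- deps:
def S_QR2 : Prop := ∀ (M : ℕ) (G G' Ω : Type) [Group G] [Group G'] (J : G →* G') (s : Ω → G')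
  (χ : G' →* MZ), IsFr J s → QM2 M χ → QM2 M (χ.comp J)

-- deps: INF ADDC ADDF2
def S_QB : Prop := ∀ (M : ℕ) (G : Type) [Group G] (χ : G →* MZ) (K : Subgroup G) (χK : K →* MZ),
  0 < M → (∀ g, g ∈ K ↔ (M : ℤ) ∣ (χ g).toAdd) → (∀ k : K, (χ k).toAdd = M * (χK k).toAdd) →
  In χK → QM2 M χ

-- deps: QF2 QH2 QC2 QR2 QB BPF BPIN AMF HNM
-- imports: Pool.Agent.P.MP_67c9d4_al.FC.QALL
def S_QALL2 : Prop := ∀ (G : Type) [Group G] (χ : G →* MZ), Hier2 G χ → TFr G →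
  ∃ M₀ : ℕ, 0 < M₀ ∧ ∀ M, 0 < M → M₀ ∣ M → QM2 M χ

-- deps: BGOOD STEP HDI HINJ PTW REORD MOVE HEX FPG COPH
-- imports: Pool.Agent.P.MP_67c9d4_al.FC.NF1
def S_NF12 : Prop := ∀ (B₀ C B : MG) (V A K : Type) (b : BS B₀.χ V A K) (U : Set V)
  (k : B₀.H →* B.H) (k' : C.H →* B.H), In C.χ → CopM k k' → (∀ a, b.vx a ∈ U) →
  ∀ (H : MG) (j : B.H →* H.H) (n : ℕ), PTow B ((fun v => k (b.t v)) '' U) H j n →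
  (∀ v ∈ U, Amb H.χ (j (k (b.t v)))) →
  (Good H.χ (fun v => j (k (b.t v))) ∧ b.Dich (j.comp k) H.χ) ∨
    ∃ (B₀' B' : MG) (A' K' : Type) (b' : BS B₀'.χ V A' K') (U' : Set V) (k₁ : B₀'.H →* B'.H)
      (k₁' : C.H →* B'.H) (j' : B'.H →* H.H) (m : ℕ), m < n ∧ CopM k₁ k₁' ∧ (∀ a, b'.vx a ∈ U') ∧
      PTow B' ((fun v => k₁ (b'.t v)) '' U') H j' m ∧
      (∀ v ∈ U, ∃ v' ∈ U', IsConj (j (k (b.t v))) (j' (k₁ (b'.t v')))) ∧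
      ∀ v' ∈ U', ∃ v ∈ U, IsConj (j (k (b.t v))) (j' (k₁ (b'.t v')))

-- deps: NF12 B0 PTW
def S_NF2 : Prop := ∀ H, Tw2 H → (∀ τ, H.χ τ = ofAdd 1 → Amb H.χ τ) → VP (⊥ : Subgroup H.H)

-- deps: SPLIT FIXC
def S_VIS3 : Prop := ∀ (M : ℕ) (G Ω : Type) [Group G] (χ : G →* MZ) (C H : MG) (i : C.H →* H.H)
  (U : G →* Wr (ZMod M) H.H) (x : Ω → H.H), IsCv M χ C H i U x → (∀ c, i c = 1) → TFr G → VR G →
  ∀ τ, H.χ τ = ofAdd 1 → Amb H.χ τ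

-- deps: QALL2 VIS3 NF2
-- imports: Pool.Agent.P.MP_67c9d4_al.FC.Fin
def S_MAIN3 : Prop := ∀ (H : Type) [Group H] (χ : H →* MZ), Hier2 H χ → TFr H → VRC H → VA H

-- deps:
def S_TFM : Prop := ∀ (X : Type) (φ : MulAut (FreeGroup X)), TFr (MT φ)

end Pool.Agent.P.MP_67c9d4_al.MX
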