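import Pool.Agent.P.MP_67c9d4_al.MX.Defs3

/-! The statements of the steps for arbitrary compact special pieces. -/

set_option autoImplicit false

namespace Pool.Agent.P.MP_67c9d4_al.MX

open Equiv Wr Multiplicative FC FR

/-! ### Parabolic subgroups -/

-- deps: G2 GATE PSC RECT
def S_MINP : Prop := ∀ (T : Type) (Γ : SimpleGraph T) (S S' : Set T) (g h : RAAG Γ),
  ∃ (p : RAAG Γ) (M : List (T × Bool)), g⁻¹ * p ∈ PS Γ S ∧ h⁻¹ * (p * wd Γ M) ∈ PS Γ S' ∧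
    ∀ k, k ∈ cj g (PS Γ S) → k ∈ cj h (PS Γ S') → ∀ L, Geo Γ L → wd Γ L = p⁻¹ * k * p →
      ∀ x ∈ L, ∀ y ∈ M, Γ.Adj x.1 y.1

-- deps: G2 MINP
def S_PARI : Prop := ∀ (T : Type) (Γ : SimpleGraph T) (S S' : Set T) (g h : RAAG Γ),
  ∃ p S'', cj g (PS Γ S) ⊓ cj h (PS Γ S') = cj p (PS Γ S'')

-- deps:
def S_PARL : Prop := ∀ (T : Type) (Γ : SimpleGraph T) (S S' : Set T) (p p' : RAAG Γ),
  cj p (PS Γ S) ≤ cj p' (PS Γ S') → S ⊆ S' ∧ (S = S' → cj p (PS Γ S) = cj p' (PS Γ S'))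

-- deps: G2 MINP
def S_NORM : Prop := ∀ (T : Type) (Γ : SimpleGraph T) (S : Set T) (y : RAAG Γ),
  cj y (PS Γ S) = PS Γ S →
  ∃ y₁ ∈ PS Γ S, ∃ y₂ ∈ PS Γ {t | ∀ s ∈ S, Γ.Adj s t}, y = y₁ * y₂

-- deps: G2 G1 THK
def S_SPLT : Prop := ∀ (T : Type) [Finite T] (Γ : SimpleGraph T) (A : Subgroup (RAAG Γ))
  (S S' : Set T) (p y₁ y₂ : RAAG Γ), CoC Γ A → Disjoint S S' → y₁ ∈ PS Γ S → y₂ ∈ PS Γ S' →
  Commute y₁ y₂ → p * (y₁ * y₂) * p⁻¹ ∈ A → ∃ n : ℕ, 0 < n ∧ p * y₂ ^ n * p⁻¹ ∈ A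

-- deps: PSC PARI PARL NORM SPLT LINJ
def S_ACY1 : Prop := ∀ (T : Type) [Finite T] (Γ : SimpleGraph T) (C V E : Type) [Group C]
  (D : TD (RAAG Γ) V E) (f : C →* RAAG Γ), D.Tree → Function.Injective f → CoC Γ f.range →
  (∀ k, ∃ S, D.P k = PS Γ S) → ∀ y, Mal y → Acy1 D f y

/-! ### Omnipotence in a piece -/

-- deps:
def S_NP3 : Prop := ∀ (C H V E : Type) [Group C] [Group H] (D : TD H V E) (f : C →* H),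
  Apx D f → ∀ (y u : C) c l c' l', Acy1 D f y → D.Ax (f y) c l → D.Ax (f u) c' l' →
  ∀ K, FN K → ∃ N, FN N ∧ ∀ (g : C) (d : ℤ),
    (∀ i, D.Same N (c i) (TD.act (f g) (c' (i + d)))) →
      ∃ g' : C, g' * u ^ l * g'⁻¹ = y ^ l' ∧ g'⁻¹ * g ∈ K

-- deps: NP3 EMB PAR
-- imports: Pool.Agent.P.MP_67c9d4_al.FC.CORE1
def S_CORE1c : Prop := ∀ (C H V E J : Type) [Group C] [Group H] [Finite J] (D : TD H V E)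
  (f : C →* H) (χ : C →* MZ) (u : J → C) (c : J → ℤ → (E × Bool) × H) (l : J → ℕ) (j₀ : J),
  D.Tree → D.Sp → Apx D f → Acy1 D f (u j₀) → (∀ j, D.Ax (f (u j)) (c j) (l j)) →
  (∀ j, χ (u j) = ofAdd 1) → Mal (u j₀) → (∀ j, IsConj (u j₀) (u j) → j = j₀) → ∀ H₀, FN H₀ →
  ∃ N, FN N ∧ (∀ j, D.Emb N (f (u j)) (c j) (l j)) ∧ Par2 D f N H₀ u c j₀

-- deps: AXIS CORE1c CORE2b
def S_COREc : Prop := ∀ (C H V E : Type) [Group C] [Group H] (D : TD H V E) (f : C →* H)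
  (χ : C →* MZ), D.Tree → D.Sp → Apx D f → V → ∀ y, Acy1 D f y → ¬D.Ell (f y) → χ y = ofAdd 1 →
  Mal y → ∀ Z : Set C, Z.Finite → (∀ z ∈ Z, χ z = ofAdd 1 ∧ ¬IsConj y z) → ∀ H₀, FN H₀ →
  CoreOut y Z {g | D.Ell (f g)} H₀

-- deps: DA NEL ACY1 APX3 COREc
def S_CO3 : Prop := ∀ (T : Type) [Finite T] (Γ : SimpleGraph T) (C : Type) [Group C]
  (f : C →* RAAG Γ) (χ : C →* MZ), Function.Injective f → CoC Γ f.range →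
  ∀ y, χ y = ofAdd 1 → Mal y → ∀ Z : Set C, Z.Finite →
  (∀ z ∈ Z, χ z = ofAdd 1 ∧ ¬IsConj y z) → ∀ H₀, FN H₀ → CoreOut y Z ∅ H₀

-- deps: CF CSC
def S_BPF3 : Prop := (∀ (G : Type) [Group G], Virtually CompactSpecial G → BP3 G) ∧
  ∀ (G : Type) [Group G], BP3 G → ∀ K : Subgroup G, K.FiniteIndex → BP3 K

-- deps: CF CO3 IND HO1 HOJ
def S_BPIN3 : Prop := ∀ (G : Type) [Group G], BP3 G → ∀ χ : G →* MZ, Gd χ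

-- deps:
def S_BADT : Prop := ∀ (G : Type) [Group G] (χ : G →* MZ), TFr G →
  Bad χ ⊆ Rt {g | ∃ f : Multiplicative (ℤ × ℤ) →* G, Function.Injective f ∧ g ∈ f.range}

/-! ### Free products -/

-- deps: FVP FMAL FCO FO1 FOJ RFV HO1 HOJ
def S_FPG3 : Prop := ∀ (A C H V : Type) [Group A] [Group C] [Group H] (i : A →* H) (i' : C →* H)
  (χ : H →* MZ) (χA : A →* MZ) (χC : C →* MZ) (t : V → A), IsCop i i' → (∀ a, χ (i a) = χA a) →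
  (∀ c, χ (i' c) = χC c) → Good χA t → Gd χC → Good χ (fun v => i (t v)) ∧
    ∀ y, χ y = ofAdd 1 → Gen χ (fun v => i (t v)) y ∨
      (∃ y₀, IsConj (i y₀) y ∧ ¬Gen χA t y₀) ∨ ∃ c ∈ Bad χC, IsConj (i' c) y

-- deps: FPG3
def S_INF3 : Prop := (∀ (A C B : MG) (k : A.H →* B.H) (k' : C.H →* B.H), CopM k k' → Gd A.χ →
    Gd C.χ → Gd B.χ ∧ Bad B.χ ⊆ cc (k '' Bad A.χ ∪ k' '' Bad C.χ)) ∧
  ∀ (K : MG) (O : Type) [Finite O], Gd K.χ → ∃ (C : MG) (ι : O → K.H →* C.H), Gd C.χ ∧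
    IsCoI ι ∧ (∀ o a, C.χ (ι o a) = K.χ a) ∧ Bad C.χ ⊆ cc {h | ∃ o, ∃ b ∈ Bad K.χ, h = ι o b}

/-! ### Towers -/

-- deps: HEX
-- imports: Pool.Agent.P.MP_67c9d4_al.FC.REORD
def S_REORD3 : Prop := ∀ (B : MG) (S : Set B.H) (H : MG) (j : B.H →* H.H) (n : ℕ) (Y : Set H.H),
  PT3 B S H j n Y → ∀ a g : B.H, B.χ a = B.χ g → ∀ (H' : MG) (i : H.H →* H'.H) (s : H'.H)
  (Y' : Set H'.H), IsHNN i (j a) (j g) s → (∀ h, H'.χ (i h) = H.χ h) → H'.χ s = 1 →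
  (∀ x ∈ Y, i x ∈ Y') →
  ∃ (B₁ : MG) (i₁ : B.H →* B₁.H) (s₁ : B₁.H) (j₁ : B₁.H →* H'.H), IsHNN i₁ a g s₁ ∧
    (∀ h, B₁.χ (i₁ h) = B.χ h) ∧ B₁.χ s₁ = 1 ∧ PT3 B₁ (i₁ '' S) H' j₁ n Y' ∧
    ∀ h, j₁ (i₁ h) = i (j h)

-- deps: COPH HEX
def S_ADDG3 : Prop := ∀ (B C B' : MG) (S : Set B.H) (k : B.H →* B'.H) (k' : C.H →* B'.H),
  CopM k k' → ∀ (H : MG) (j : B.H →* H.H) (n : ℕ) (Y : Set H.H), PT3 B S H j n Y →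
  ∃ (H' : MG) (i : H.H →* H'.H) (i' : C.H →* H'.H) (j' : B'.H →* H'.H), CopM i i' ∧
    PT3 B' (k '' S) H' j' n (i '' Y) ∧ (∀ b, j' (k b) = i (j b)) ∧ ∀ c, j' (k' c) = i' c

-- deps: ADDG3
def S_ADDV3 : Prop := ∀ (C : MG) (Y Z : Set C.H) (Ω : Type) [Finite Ω], Tw3 C Y Z →
  ∃ (H : MG) (i : C.H →* H.H) (x : Ω → H.H), TwS3 H (Set.range x) (i '' Y) (i '' Z) ∧ IsFr i x ∧
    (∀ c, H.χ (i c) = C.χ c) ∧ ∀ ω, H.χ (x ω) = ofAdd 1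

-- deps: ADDG3 INF3
def S_ADDC3 : Prop := ∀ (C C' : MG) (Y Z : Set C.H), Tw3 C Y Z → Gd C'.χ →
  ∃ (H : MG) (i : C.H →* H.H) (i' : C'.H →* H.H), CopM i i' ∧
    Tw3 H (i '' Y) (i '' Z ∪ i' '' Bad C'.χ)

-- deps: ADDV3
-- imports: Pool.Agent.P.MP_67c9d4_al.FC.ADDF
def S_ADDF3 : Prop := ∀ (C : MG) (Y Z : Set C.H) (Ω : Type) [Finite Ω] (e : Ω → MZ), Tw3 C Y Z →
  ∃ (H : MG) (i : C.H →* H.H) (x : Option Ω → H.H), Tw3 H (i '' Y) (i '' Z) ∧ IsFr i x ∧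
    (∀ c, H.χ (i c) = C.χ c) ∧ ∀ ω, H.χ (x (some ω)) = e ω

-- deps: ADDV3 HEX
-- imports: Pool.Agent.P.MP_67c9d4_al.FC.DBL1
def S_DBL13 : Prop := ∀ (C : MG) (Y Z : Set C.H) (a b : C.H) (e : MZ), Tw3 C Y Z →
  C.χ a = ofAdd 1 → C.χ b = ofAdd 1 → ∃ (H : MG) (i : C.H →* H.H) (x σ : H.H),
    Tw3 H (i '' (Y ∪ {a, b})) (i '' Z) ∧
    IsExt i (fun _ : Unit => x) (fun _ : Unit => a) (fun _ => b) (fun _ => σ) ∧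
    (∀ c, H.χ (i c) = C.χ c) ∧ H.χ σ = e

-- deps: DBL13
-- imports: Pool.Agent.P.MP_67c9d4_al.FC.DBL
def S_DBL3 : Prop := ∀ (C : MG) (Y Z : Set C.H) (I : Type) [Finite I] (A B : I → C.H)
  (e : I → MZ), Tw3 C Y Z → (∀ k, C.χ (A k) = ofAdd 1) → (∀ k, C.χ (B k) = ofAdd 1) →
  ∃ (H : MG) (i : C.H →* H.H) (x σ : I → H.H),
    Tw3 H (i '' (Y ∪ Set.range A ∪ Set.range B)) (i '' Z) ∧ IsExt i x A B σ ∧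
    (∀ c, H.χ (i c) = C.χ c) ∧ ∀ k, H.χ (σ k) = e k

-- deps: ADDF3
def S_QF3 : Prop := ∀ (M : ℕ) (V : Type) [Finite V] (χ : FreeGroup V →* MZ), 0 < M →
  QM3 M χ ∅ ∅

-- deps: DBL3 ORB
-- imports: Pool.Agent.P.MP_67c9d4_al.FC.QH
def S_QH3 : Prop := ∀ (G G' : Type) [Group G] [Group G'] (i : G →* G') (a b : G) (s : G')
  (χ : G' →* MZ) (k m : ℕ) (E Z : Set G), IsHNN i a b s → 0 < k → 0 < m →
  χ (i a) = ofAdd (k : ℤ) → QM3 (k * m) (χ.comp i) E Z →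
  QM3 (k * m) χ (i '' (E ∪ {a ^ m, b ^ m})) (i '' Z)

-- deps:
-- imports: Pool.Agent.P.MP_67c9d4_al.FC.QC
def S_QC3 : Prop := ∀ (M : ℕ) (G₁ G₂ : Type) [Group G₁] [Group G₂]
  (χ : Monoid.Coprod G₁ G₂ →* MZ) (E₁ Z₁ : Set G₁) (E₂ Z₂ : Set G₂),
  QM3 M (χ.comp Monoid.Coprod.inl) E₁ Z₁ → QM3 M (χ.comp Monoid.Coprod.inr) E₂ Z₂ →
  QM3 M χ (Monoid.Coprod.inl '' E₁ ∪ Monoid.Coprod.inr '' E₂)
    (Monoid.Coprod.inl '' Z₁ ∪ Monoid.Coprod.inr '' Z₂)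

-- deps:
def S_QR3 : Prop := ∀ (M : ℕ) (G G' Ω : Type) [Group G] [Group G'] (J : G →* G') (s : Ω → G')
  (χ : G' →* MZ) (E Z : Set G), IsFr J s → QM3 M χ (J '' E) (J '' Z) → QM3 M (χ.comp J) E Z

-- deps: INF3 ADDC3 ADDF3
def S_QB3 : Prop := ∀ (M : ℕ) (G : Type) [Group G] (χ : G →* MZ) (K : Subgroup G) (χK : K →* MZ),
  0 < M → (∀ g, g ∈ K ↔ (M : ℤ) ∣ (χ g).toAdd) → (∀ k : K, (χ k).toAdd = M * (χK k).toAdd) →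
  Gd χK → QM3 M χ ∅ (K.subtype '' Bad χK)

-- deps: QF3 QH3 QC3 QR3 QB3 BPF3 BPIN3 BADT HNM
-- imports: Pool.Agent.P.MP_67c9d4_al.FC.QALL Pool.Agent.P.MP_67c9d4_al.FC.AMF
def S_QALL3 : Prop := ∀ (G : Type) [Group G] (χ : G →* MZ) (E Z : Set G), Hier3 G χ E Z → TFr G →
  ∃ M₀ : ℕ, 0 < M₀ ∧ ∀ M, 0 < M → M₀ ∣ M → QM3 M χ (E \ {1}) (Rt Z)

-- deps: BGOOD STEP HDI HINJ REORD3 MOVE HEX FPG3 COPH
-- imports: Pool.Agent.P.MP_67c9d4_al.FC.NF1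
def S_NF13 : Prop := ∀ (B₀ C B : MG) (V A K : Type) (b : BS B₀.χ V A K) (U : Set V)
  (k : B₀.H →* B.H) (k' : C.H →* B.H), Gd C.χ → CopM k k' → (∀ a, b.vx a ∈ U) →
  ∀ (H : MG) (j : B.H →* H.H) (n : ℕ) (Y : Set H.H),
  PT3 B ((fun v => k (b.t v)) '' U) H j n Y →
  (∀ y ∈ Y, ∀ c ∈ Bad C.χ, ¬IsConj (j (k' c)) y) → (∀ v ∈ U, Amb H.χ (j (k (b.t v)))) →
  (Good H.χ (fun v => j (k (b.t v))) ∧ Dich3 b C.χ (j.comp k) (j.comp k') H.χ) ∨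
    ∃ (B₀' B' : MG) (A' K' : Type) (b' : BS B₀'.χ V A' K') (U' : Set V) (k₁ : B₀'.H →* B'.H)
      (k₁' : C.H →* B'.H) (j' : B'.H →* H.H) (m : ℕ), m < n ∧ CopM k₁ k₁' ∧ (∀ a, b'.vx a ∈ U') ∧
      PT3 B' ((fun v => k₁ (b'.t v)) '' U') H j' m Y ∧ (∀ c, j' (k₁' c) = j (k' c)) ∧
      (∀ v ∈ U, ∃ v' ∈ U', IsConj (j (k (b.t v))) (j' (k₁ (b'.t v')))) ∧
      ∀ v' ∈ U', ∃ v ∈ U, IsConj (j (k (b.t v))) (j' (k₁ (b'.t v')))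

-- deps: NF13 B0
def S_NF3 : Prop := ∀ (H : MG) (Y Z : Set H.H), Tw3 H Y Z → (∀ y ∈ Y, ∀ z ∈ Z, ¬IsConj z y) →
  (∀ τ, H.χ τ = ofAdd 1 → Amb H.χ τ) → VP (⊥ : Subgroup H.H)

-- deps: QALL3 VIS3 NF3
-- imports: Pool.Agent.P.MP_67c9d4_al.FC.Fin
def S_MAIN4 : Prop := ∀ (H : Type) [Group H] (χ : H →* MZ) (E Z : Set H), Hier3 H χ E Z →
  (∀ e ∈ E, ∀ z ∈ Z, IsConj e z → e = 1) → TFr H → VRC H → VA H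

end Pool.Agent.P.MP_67c9d4_al.MX
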