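import Pool.Agent.P.MP_67c9d4_al.MX.TPARI
import Pool.Agent.P.MP_67c9d4_al.MX.Iface3
import Pool.Agent.P.MP_67c9d4_al.MX.Iface

/-! Step ACY1. -/

set_option autoImplicit false
set_option linter.unusedSectionVars false

namespace Pool.Agent.P.MP_67c9d4_al.MX

open Equiv Wr Multiplicative FC FR

theorem p_ACY1 (hPSC : S_PSC) (hPARI : S_PARI) (hPARL : S_PARL) (hNORM : S_NORM) (hSPLT : S_SPLT) (hLINJ : S_LINJ) :
    S_ACY1 := by
  classical
  intro T _ Γ C V E _ D f hT hf hA hP y hM c l h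
  have par : ∀ m : ℕ, ∃ p S, ∀ g, g ∈ cj p (PS Γ S) ↔ ∀ j : ℕ, j ≤ m → g ∈ D.St (c j) := by
    intro m
    induction m with
    | zero =>
      obtain ⟨S, hS⟩ := hP (c 0).1
      exact ⟨(c 0).2, S, fun g => by simp [TD.St, hS]⟩
    | succ m ih =>
      obtain ⟨p, S, ih⟩ := ih
      obtain ⟨S', hS⟩ := hP (c (m + 1 : ℕ)).1
      obtain ⟨q, S'', e⟩ := hPARI T Γ S S' p (c (m + 1 : ℕ)).2
      refine ⟨q, S'', fun g => ?_⟩
      rw [← e, Subgroup.mem_inf, ih, ← hS]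
      exact ⟨fun ⟨a, b⟩ j hj => (Nat.of_le_succ hj).elim (a j) fun e => e ▸ b,
        fun a => ⟨fun j hj => a j (by omega), a _ le_rfl⟩⟩
  choose p S hS using par
  obtain ⟨m, hm⟩ : ∃ m, ∀ n, (S m).ncard ≤ (S n).ncard :=
    ⟨_, fun a => Function.argmin_le (fun n => (S n).ncard) a⟩
  have st : ∀ g ∈ cj (p m) (PS Γ (S m)), ∀ j : ℕ, g ∈ D.St (c j) := fun g hg j => by
    obtain ⟨a, b⟩ := hPARL T Γ (S (m + j)) (S m) (p (m + j)) (p m) fun k hk =>
      (hS m k).2 fun i hi => (hS _ k).1 hk i (by omega)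
    exact (hS (m + j) g).1 (b (Set.eq_of_subset_of_ncard_le a (hm _)) ▸ hg) j (by omega)
  have e1 : cj (p m) (PS Γ (S m)) = cj (f y * p m) (PS Γ (S m)) :=
    (hPARL T Γ _ _ _ _ fun g hg => by
      rw [← cj_cj, mem_cj, hS]
      intro j _
      have := st g hg (j + l)
      rwa [Nat.cast_add, h.per, TD.St_act, mem_cj] at this).2 rfl
  obtain ⟨y₁, h1, y₂, h2, e2⟩ := hNORM T Γ (S m) ((p m)⁻¹ * f y * p m) (by
    rw [mul_assoc, ← cj_cj, ← e1, cj_cj, inv_mul_cancel, cj_one])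
  have cm : ∀ u ∈ PS Γ (S m), Commute u y₂ := fun u hu =>
    PARI_comm (S' := {t | ∀ s ∈ S m, Γ.Adj s t}) (fun s hs t ht => ht s hs) hu h2
  have e3 : f y = p m * (y₁ * y₂) * (p m)⁻¹ := by rw [← e2]; group
  obtain ⟨n, hn, e, he⟩ := hSPLT T Γ _ _ _ (p m) y₁ y₂ hA
    (Set.disjoint_left.2 fun s hs ht => (ht s hs).ne rfl) h1 h2 (cm _ h1) ⟨y, e3⟩
  have cm' : ∀ (k : C) u, f k = p m * u * (p m)⁻¹ → Commute u y₂ → Commute k e := fun k u a b =>
    hf (by
      rw [map_mul, map_mul, he, a]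
      simp only [mul_assoc, inv_mul_cancel_left]
      rw [← mul_assoc u, (b.pow_right n).eq, mul_assoc])
  have li : ∀ s : ℤ, f y ^ s ∈ cj (p m) (PS Γ (S m)) → s = 0 := fun s hs => by
    have a := hLINJ _ V E D hT _ c l h 0 (0 + l * s) (by
      rw [h.zper, TD.same_act_self inferInstance, sup_bot_eq]
      exact st _ hs 0)
    have := h.pos
    exact (mul_eq_zero.1 (by omega : (l : ℤ) * s = 0)).resolve_left (by omega)
  obtain ⟨r, hr⟩ := hM e 1 one_ne_zero (by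
    rw [zpow_one]
    exact (cm' y _ e3 ((cm _ h1).mul_left (Commute.refl _))).symm)
  replace hr : y ^ r = e := hr
  have r0 : r ≠ 0 := by
    rintro rfl
    rw [← hr, zpow_zero, map_one, eq_comm, mul_inv_eq_one, mul_eq_left] at he
    refine absurd (li n ?_) (by omega)
    rw [e3, zpow_natCast, conj_pow, conj_mem_cj, (cm _ h1).mul_pow, he, mul_one]
    exact pow_mem h1 n
  refine ⟨m + 1, fun k hk => ?_⟩
  have k1 := (hS m _).2 fun j hj => hk j (by omega)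
  obtain ⟨s, rfl⟩ := hM k r r0 (hr ▸ cm' k ((p m)⁻¹ * f k * p m) (by group) (cm _ (mem_cj.1 k1)))
  replace k1 : f (y ^ s) ∈ _ := k1
  rw [map_zpow] at k1
  change y ^ s = 1
  rw [li s k1, zpow_zero]

end Pool.Agent.P.MP_67c9d4_al.MX
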