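import Pool.Agent.P.MP_67c9d4_al.MX.Iface3
import Pool.Agent.P.MP_67c9d4_al.FC.ADDF

/-! Step ADDF3. -/

set_option autoImplicit false
set_option linter.unusedSectionVars false

namespace Pool.Agent.P.MP_67c9d4_al.MX

open Equiv Wr Multiplicative FC FR

theorem p_ADDF3 (hADDV3 : S_ADDV3) :
    S_ADDF3 := by
  intro C Y Z Ω _ e hC
  obtain ⟨H, i, x, h1, h2, h3, h4⟩ := hADDV3 C Y Z (Option Ω) hC
  refine ⟨H, i, _, h1.tw3, ADDFx.isFr_tw h2 fun ω => (e ω).toAdd - 1, h3, fun ω => ?_⟩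
  rw [ADDFx.tw, map_mul, map_zpow, h4, h4, ← ofAdd_zsmul, ← ofAdd_add]
  simp

end Pool.Agent.P.MP_67c9d4_al.MX
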