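import Pool.Agent.P.MP_67c9d4_al.MX.TADDV2
import Pool.Agent.P.MP_67c9d4_al.MX.Iface3

/-! Step ADDV3. -/

set_option autoImplicit false
set_option linter.unusedSectionVars false

namespace Pool.Agent.P.MP_67c9d4_al.MX

open Equiv Wr Multiplicative FC FR

theorem p_ADDV3 (hADDG3 : S_ADDG3) :
    S_ADDV3 := by
  intro C Y Z Ω _ hC
  obtain ⟨V, hV, C₀, B, k, τ, j, n, h1, h2, h3, h4, h5, -, h7⟩ := hC
  obtain ⟨B', k1, k2, hk⟩ := exists_cop B (B0 Ω)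
  obtain ⟨H', i, i', j', hi, hT, e1, e2⟩ := hADDG3 B (B0 Ω) B' _ k1 k2 hk C j n _ h5
  have hχ : ∀ w : Ω, (B0 Ω).χ (FreeGroup.of w) = ofAdd 1 := fun w => FreeGroup.lift_apply_of
  refine ⟨H', i, fun w => i' (FreeGroup.of w), ?_, ADDV2_free hi.1, hi.2.1,
    fun w => (hi.2.2 _).trans (hχ w)⟩
  refine ⟨V ⊕ Ω, inferInstance, C₀, B', k1.comp k,
    Sum.elim (fun v => k1 (τ v)) (fun w => k2 (FreeGroup.of w)), j', n, h1,
    ADDV2_comp h2 (ADDV2_free hk.1), fun c => ?_, ?_, ?_, ?_, fun c hc => ?_⟩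
  · rw [MonoidHom.comp_apply, hk.2.1, h3]
  · rintro (v | w)
    · rw [Sum.elim_inl, hk.2.1, h4]
    · exact (hk.2.2 _).trans (hχ w)
  · refine (hT.monoY (image_cc i Y)).monoS ?_
    rintro _ ⟨_, ⟨v, rfl⟩, rfl⟩
    exact ⟨_, ⟨Sum.inl v, rfl⟩, IsConj.refl _⟩
  · rintro _ ⟨w, rfl⟩
    exact ⟨Sum.inr w, e2 _⟩
  · rw [MonoidHom.comp_apply, e1]
    exact cc_map i (h7 c hc)

end Pool.Agent.P.MP_67c9d4_al.MX
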