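import Pool.Agent.P.MP_67c9d4_al.MX.Iface3

/-! Step BADT. -/

set_option autoImplicit false
set_option linter.unusedSectionVars false

namespace Pool.Agent.P.MP_67c9d4_al.MX

open Equiv Wr Multiplicative FC FR

theorem p_BADT :
    S_BADT := by
  intro G _ χ hT y ⟨hy, hm⟩
  simp only [Mal, not_forall] at hm
  obtain ⟨g, a, ha, hc, hg⟩ := hm
  have c : Commute (g * y ^ (-(χ g).toAdd)) (y ^ a) :=
    hc.mul_left (Commute.zpow_zpow_self y _ _)
  have h0 : χ (g * y ^ (-(χ g).toAdd)) = 1 := by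
    rw [map_mul, chi_zpow hy, ofAdd_neg, ofAdd_toAdd, mul_inv_cancel]
  set b := g * y ^ (-(χ g).toAdd) with hb
  let f : Multiplicative (ℤ × ℤ) →* G := MonoidHom.mk'
    (fun q => b ^ q.toAdd.1 * (y ^ a) ^ q.toAdd.2) fun q q' => by
      simp only [toAdd_mul, Prod.fst_add, Prod.snd_add, zpow_add]
      exact (c.zpow_zpow q'.toAdd.1 q.toAdd.2).mul_mul_mul_comm _ _
  refine ⟨a, ha, f, (injective_iff_map_eq_one f).2 fun q h3 => ?_, ofAdd (0, 1), by simp [f]⟩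
  change b ^ q.toAdd.1 * (y ^ a) ^ q.toAdd.2 = 1 at h3
  have h4 := congrArg χ h3
  rw [map_mul, map_zpow, h0, one_zpow, one_mul, ← zpow_mul, chi_zpow hy, map_one] at h4
  have h5 : q.toAdd.2 = 0 := (mul_eq_zero.1 (ofAdd_eq_one.1 h4)).resolve_left ha
  rw [h5, zpow_zero, mul_one] at h3
  refine toAdd_eq_zero.1 (Prod.ext (by_contra fun h6 => hg ?_) h5)
  have h7 := hT.zpow h6 h3
  rw [hb, zpow_neg, mul_inv_eq_one] at h7
  exact ⟨_, h7.symm⟩

end Pool.Agent.P.MP_67c9d4_al.MX
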