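import Pool.Agent.P.MP_67c9d4_al.MX.Iface3
import Pool.Agent.P.MP_67c9d4_al.MX.Iface

/-! Step BPF3. -/

set_option autoImplicit false
set_option linter.unusedSectionVars false

namespace Pool.Agent.P.MP_67c9d4_al.MX

open Equiv Wr Multiplicative FC FR

theorem p_BPF3 (hCF : S_CF) (hCSC : S_CSC) :
    S_BPF3 := by
  refine ⟨fun G _ ⟨K, hK, h3⟩ => ?_, fun G _ ⟨L, hL, T, hT, Γ, f, hf, hc⟩ K hK => ?_⟩
  · obtain ⟨T, hT, Γ, f, hf, hc⟩ := hCSC K h3
    exact ⟨K, hK, T, hT, Γ, f, hf, hc⟩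
  · let j : L.subgroupOf K →* L :=
      (K.subtype.comp (L.subgroupOf K).subtype).codRestrict L fun x => x.2
    have hj : Function.Injective j := fun x y e =>
      Subtype.ext (Subtype.ext (congrArg (fun z : L => (z : G)) e))
    have hr : j.range = K.subgroupOf L := by
      ext x
      exact ⟨by rintro ⟨y, rfl⟩; exact y.1.2, fun hx => ⟨⟨⟨x.1, hx⟩, x.2⟩, rfl⟩⟩
    refine ⟨L.subgroupOf K,
      inferInstance, T, hT, Γ, f.comp j, hf.comp hj, ?_⟩
    rw [MonoidHom.range_comp, hr]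
    exact (hCF T Γ).2.2 L f _ hc inferInstance

end Pool.Agent.P.MP_67c9d4_al.MX
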