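import Pool.Agent.P.MP_67c9d4_al.MX.Iface3
import Pool.Agent.P.MP_67c9d4_al.FC.DBL1

/-! Step DBL13. -/

set_option autoImplicit false
set_option linter.unusedSectionVars false

namespace Pool.Agent.P.MP_67c9d4_al.MX

open Equiv Wr Multiplicative FC FR

theorem p_DBL13 (hADDV3 : S_ADDV3) (hHEX : S_HEX) :
    S_DBL13 := by
  intro C Y Z a b e hC ha hb
  obtain ⟨H₁, i₁, x, hT₁, hF, hc₁, ht⟩ := hADDV3 C Y Z Unit hC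
  obtain ⟨H₂, i₂, s₁, h₂, hc₂, hs₁⟩ := hHEX H₁ (x ()) (i₁ a) (by rw [ht, hc₁, ha])
  obtain ⟨H₃, i₃, s₂, h₃, hc₃, hs₂⟩ := hHEX H₂ (i₂ (x ())) (i₂ (i₁ b))
    (by rw [hc₂, hc₂, ht, hc₁, hb])
  have hT₂ := hT₁.step ⟨(), rfl⟩ (ht ()) (by rw [hc₁, ha]) h₂ hc₂ hs₁
  have hT₃ := hT₂.step ⟨_, ⟨(), rfl⟩, rfl⟩ ((hc₂ _).trans (ht ())) (by rw [hc₂, hc₁, hb]) h₃ hc₃
    hs₂
  refine ⟨H₃, i₃.comp (i₂.comp i₁), i₃ s₁,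
    (i₃ s₁)⁻¹ * s₂ * i₃ (i₂ (i₁ b)) ^ e.toAdd, hT₃.tw3.mono ?_ ?_,
    DBL1x.ext1 i₁ i₂ i₃ a b _ s₁ s₂ e.toAdd hF h₂ h₃, fun c => ?_, ?_⟩
  · rintro _ ⟨_, rfl | ⟨_, rfl | ⟨y, hy, rfl⟩, rfl⟩, rfl⟩
    · exact sub_cc _ ⟨b, .inr (.inr rfl), rfl⟩
    · exact sub_cc _ ⟨a, .inr (.inl rfl), rfl⟩
    · exact sub_cc _ ⟨y, .inl hy, rfl⟩
  · rintro _ ⟨_, ⟨_, ⟨y, hy, rfl⟩, rfl⟩, rfl⟩
    exact sub_cc _ ⟨y, hy, rfl⟩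
  · simp only [MonoidHom.comp_apply, hc₃, hc₂, hc₁]
  · rw [map_mul, map_mul, map_inv, map_zpow, hc₃, hc₃, hs₁, hs₂, hc₂, hc₁, hb]
    simp [← ofAdd_zsmul]

end Pool.Agent.P.MP_67c9d4_al.MX
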