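import Pool.Agent.P.MP_67c9d4_al.MX.Iface3
import Pool.Agent.P.MP_67c9d4_al.FC.DBL

/-! Step DBL3. -/

set_option autoImplicit false
set_option linter.unusedSectionVars false

namespace Pool.Agent.P.MP_67c9d4_al.MX

open Equiv Wr Multiplicative FC FR

open DBLx in
theorem p_DBL3 (hDBL13 : S_DBL13) :
    S_DBL3 := by
  intro C Y Z I _
  induction I using Finite.induction_empty_option with
  | of_equiv e ih =>
    intro A B d hC hA hB
    obtain ⟨H, i, x, σ, h1, h2, h3, h4⟩ :=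
      ih (A ∘ e) (B ∘ e) (d ∘ e) hC (fun k => hA _) fun k => hB _
    rw [e.surjective.range_comp, e.surjective.range_comp] at h1
    exact ⟨H, i, _, _, h1, ext_equiv e h2, h3, fun k => by simp [h4]⟩
  | h_empty =>
    intro A B d hC _ _
    refine ⟨C, MonoidHom.id _, PEmpty.elim, PEmpty.elim,
      hC.mono (fun y hy => sub_cc _ ⟨y, .inl (.inl hy), rfl⟩) fun y hy => sub_cc _ ⟨y, hy, rfl⟩,
      ⟨fun k => k.elim, ?_,
      fun W _ f _ _ _ => ⟨f, fun _ => rfl, fun k => k.elim, fun k => k.elim⟩⟩, fun _ => rfl,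
      fun k => k.elim⟩
    exact eq_top_iff.2 fun a _ => Subgroup.subset_closure (Or.inl (Or.inl ⟨a, rfl⟩))
  | h_option ih =>
    intro A B d hC hA hB
    obtain ⟨H, i, x, σ, h1, h2, h3, h4⟩ :=
      ih (A ∘ some) (B ∘ some) (d ∘ some) hC (fun k => hA _) fun k => hB _
    obtain ⟨H', j, x', σ', h5, h6, h7, h8⟩ := hDBL13 H _ _ (i (A none)) (i (B none)) (d none) h1
      ((h3 _).trans (hA _)) ((h3 _).trans (hB _))
    refine ⟨H', j.comp i, _, _, h5.mono ?_ ?_, ext_option h2 h6, fun c => (h7 _).trans (h3 c),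
      fun k => ?_⟩
    · rintro _ ⟨_, ⟨_, (hy | ⟨k, rfl⟩) | ⟨k, rfl⟩, rfl⟩ | rfl | rfl, rfl⟩
      · exact sub_cc _ ⟨_, .inl (.inl hy), rfl⟩
      · exact sub_cc _ ⟨_, .inl (.inr ⟨some k, rfl⟩), rfl⟩
      · exact sub_cc _ ⟨_, .inr ⟨some k, rfl⟩, rfl⟩
      · exact sub_cc _ ⟨_, .inl (.inr ⟨none, rfl⟩), rfl⟩
      · exact sub_cc _ ⟨_, .inr ⟨none, rfl⟩, rfl⟩
    · rintro _ ⟨_, ⟨y, hy, rfl⟩, rfl⟩
      exact sub_cc _ ⟨y, hy, rfl⟩
    cases k with
    | none => exact h8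
    | some k => exact (h7 _).trans (h4 k)

end Pool.Agent.P.MP_67c9d4_al.MX
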