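import Pool.Agent.P.MP_67c9d4_al.MX.TFPG
import Pool.Agent.P.MP_67c9d4_al.MX.Iface3
import Pool.Agent.P.MP_67c9d4_al.MX.Iface

/-! Step FPG3. -/

set_option autoImplicit false
set_option linter.unusedSectionVars false

namespace Pool.Agent.P.MP_67c9d4_al.MX

open Equiv Wr Multiplicative FC FR

theorem p_FPG3 (hFVP : S_FVP) (hFMAL : S_FMAL) (hFCO : S_FCO) (hFO1 : S_FO1) (hFOJ : S_FOJ) (hRFV : S_RFV) (hHO1 : S_HO1) (hHOJ : S_HOJ) :
    S_FPG3 := by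
  intro A C H V _ _ _ i i' χ χA χC t h eA eC g hC
  have vp : VP (⊥ : Subgroup H) := Subgroup.map_bot i ▸ hFVP A C H i i' h g.vp hC.vp ⊥ g.vp
  have rf := hRFV H vp
  have dA : ∀ a y, IsConj (i a) y → Gen χ (fun v => i (t v)) y → Gen χA t a := fun a y c hy => by
    have hg := hy.conj c.symm
    refine ⟨(eA a).symm.trans hg.1, fun b n hn hb => ?_, fun w hw => hg.2.2 w (i.map_isConj hw)⟩
    obtain ⟨k, hk⟩ := hg.2.1 (i b) n hn (by rw [← map_zpow]; exact hb.map i)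
    exact ⟨k, h.inj ((map_zpow i a k).trans hk)⟩
  have dC : ∀ a y, IsConj (i' a) y → Gen χ (fun v => i (t v)) y →
      Gen χC (Empty.elim : Empty → C) a := fun a y c hy => by
    have hg := hy.conj c.symm
    refine ⟨(eC a).symm.trans hg.1, fun b n hn hb => ?_, fun w => w.elim⟩
    obtain ⟨k, hk⟩ := hg.2.1 (i' b) n hn (by rw [← map_zpow]; exact hb.map i')
    exact ⟨k, h.symm.inj ((map_zpow i' a k).trans hk)⟩
  have key : ∀ y, Gen χ (fun v => i (t v)) y → ∀ Z : Set H, Z.Finite →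
      (∀ z ∈ Z, Gen χ (fun v => i (t v)) z ∧ ¬IsConj y z) →
      (∀ H₀, FN H₀ → O1c y (Z ∪ Set.range fun v => i (t v)) H₀) ∧
        OJc y (Z ∪ Set.range fun v => i (t v)) := fun y hy Z hZ hz => by
    by_cases he : EllF i i' y
    · rcases he with ⟨a, c⟩ | ⟨a, c⟩
      · exact FPG_side hFO1 hFOJ h rf g (fun _ e => e.1) dA
          (by rintro _ ⟨v, rfl⟩; exact Or.inl ⟨_, ⟨v, rfl⟩, rfl⟩) c hy hZ hz
      · exact FPG_side hFO1 hFOJ h.symm rf hC (fun _ e => e.1) dC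
          (by rintro _ ⟨v, rfl⟩; exact Or.inr ⟨_, rfl⟩) c hy hZ hz
    · have co := (hFCO A C H i i' h rf χ y he hy.1).2 Z hZ fun z e => ⟨(hz z e).1.1, (hz z e).2⟩
      have m : ∀ z ∈ Z ∪ Set.range fun v => i (t v), ∃ z' ∈ Z ∪ {g | EllF i i' g}, IsConj z' z :=
        fun z e => ⟨z, e.imp_right fun ⟨v, e⟩ => e ▸ EllF.left i i' _, IsConj.refl z⟩
      exact ⟨fun H₀ hH => (hHO1 H y Z _ H₀ (co H₀ hH)).mono m,
        (hHOJ H y Z _ ⊤ (co ⊤ FN.top)).mono m⟩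
  have tf : ∀ (B : Type) [Group B] (ψ : B →* MZ) (b : B), ψ b = ofAdd 1 →
      ∀ m : ℤ, m ≠ 0 → b ^ m ≠ 1 := fun B _ ψ b e m hm e' => by
    have := congrArg (fun x => (ψ x).toAdd) e'
    simp [e, hm] at this
  refine ⟨⟨fun v => (eA _).trans (g.chi v), fun y hy Z hZ hz => (key y hy Z hZ hz).1,
    fun v Y hY hy => ?_, fun y hy Z hZ hz => (key y hy Z hZ hz).2, vp, fun v =>
      MonoidHom.map_zpowers i (t v) ▸ hFVP A C H i i' h g.vp hC.vp _ (g.vt v)⟩,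
    fun y hy => ?_⟩
  · obtain ⟨Z₀, Z₁, f0, f1, a0, a1, a2⟩ := FPG_split i i' hY
    obtain ⟨X, _, σ, b1, b2⟩ := (hFO1 A C H i i' h rf Z₁ f1 fun z e => (a1 z e).2).2 (t v) Z₀
      (g.o2 v Z₀ f0 fun b hb => let ⟨z, e, d⟩ := a0 b hb; dA b z d (hy z e))
    exact ⟨X, inferInstance, σ, fun z e =>
      let ⟨z', e', d⟩ := a2 _ le_rfl z e; (b1 z' e').conj d, b2⟩
  · by_cases he : EllF i i' y
    · rcases he with ⟨a, c⟩ | ⟨a, c⟩
      · by_cases ga : Gen χA t a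
        · exact Or.inl (Gen.conj ⟨(eA a).trans ga.1,
            hFMAL A C H i i' h a (tf A χA a ga.1) ga.2.1, fun v e => ga.2.2 v (h.conj e)⟩ c)
        · exact Or.inr (Or.inl ⟨a, c, ga⟩)
      · have e1 : χC a = ofAdd 1 := (eC a).symm.trans ((FPG_chi χ c).trans hy)
        by_cases m : Mal a
        swap
        · exact Or.inr (Or.inr ⟨a, ⟨e1, m⟩, c⟩)
        refine Or.inl (Gen.conj ⟨(eC a).trans e1,
          hFMAL C A H i' i h.symm a (tf C χC a e1) m, fun v e => ?_⟩ c)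
        exact tf A χA _ (g.chi v) 1 one_ne_zero ((zpow_one _).trans (h.conj_one e))
    · exact Or.inl ⟨hy, (hFCO A C H i i' h rf χ y he hy).1,
        fun v e => he ((EllF.left i i' _).conj e)⟩

end Pool.Agent.P.MP_67c9d4_al.MX
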