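import Pool.Agent.P.MP_67c9d4_al.MX.Iface3

/-! Step INF3. -/

set_option autoImplicit false
set_option linter.unusedSectionVars false

namespace Pool.Agent.P.MP_67c9d4_al.MX

open Equiv Wr Multiplicative FC FR

theorem INF3_cop (hFPG : S_FPG3) (A C B : MG) (k : A.H →* B.H) (k' : C.H →* B.H) (h : CopM k k')
    (hA : Gd A.χ) (hC : Gd C.χ) : Gd B.χ ∧ Bad B.χ ⊆ cc (k '' Bad A.χ ∪ k' '' Bad C.χ) := by
  obtain ⟨h1, h2⟩ := hFPG A.H C.H B.H Empty k k' B.χ A.χ C.χ Empty.elim h.1 h.2.1 h.2.2 hA hC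
  have e : (fun v : Empty => k (Empty.elim v)) = Empty.elim := funext fun v => v.elim
  rw [e] at h1 h2
  refine ⟨h1, fun y hy => ?_⟩
  rcases h2 y hy.1 with h3 | ⟨y₀, h3, h4⟩ | ⟨c, h3, h4⟩
  · exact (hy.2 h3.2.1).elim
  · have e1 : A.χ y₀ = ofAdd 1 := by
      rw [← h.2.1, ← hy.1]
      exact isConj_iff_eq.1 (B.χ.map_isConj h3)
    exact ⟨_, .inl ⟨y₀, ⟨e1, fun m => h4 ⟨e1, m, fun v => v.elim⟩⟩, rfl⟩, h3⟩
  · exact ⟨_, .inr ⟨c, h3, rfl⟩, h4⟩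

theorem p_INF3 (hFPG3 : S_FPG3) :
    S_INF3 := by
  refine ⟨INF3_cop hFPG3, fun K O _ hK => ?_⟩
  refine Finite.induction_empty_option (P := fun O => ∃ (C : MG) (ι : O → K.H →* C.H), Gd C.χ ∧
    IsCoI ι ∧ (∀ o a, C.χ (ι o a) = K.χ a) ∧
      Bad C.χ ⊆ cc {h | ∃ o, ∃ b ∈ Bad K.χ, h = ι o b}) ?_ ?_ ?_ O
  · rintro α β e ⟨C, ι, h1, h2, h3, h4⟩
    refine ⟨C, fun o => ι (e.symm o), h1, ⟨?_, fun W _ f => ?_⟩, fun o a => h3 _ a,
      h4.trans (cc_mono fun _ ⟨o, b, hb, e'⟩ => ⟨e o, b, hb, by simp [e']⟩)⟩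
    · refine top_le_iff.1 (h2.gen ▸ Subgroup.closure_mono ?_)
      rintro _ ⟨o, a, rfl⟩
      exact ⟨e o, a, by rw [e.symm_apply_apply]⟩
    · obtain ⟨F, hF⟩ := h2.up W fun o => f (e o)
      exact ⟨F, fun o a => by rw [hF, e.apply_symm_apply]⟩
  · exact ⟨⟨PUnit, 1⟩, fun o => o.elim, (in_of_subsingleton _).good,
      ⟨Subsingleton.elim _ _, fun W _ _ => ⟨1, fun o => o.elim⟩⟩, fun o => o.elim,
      fun c hc => (hc.2 ((in_of_subsingleton _).mal c hc.1)).elim⟩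
  · rintro α _ ⟨C, ι, h1, h2, h3, h4⟩
    obtain ⟨B, k, k', h⟩ := exists_cop C K
    refine ⟨B, fun o => o.elim k' fun o => k.comp (ι o), (INF3_cop hFPG3 C K B k k' h h1 hK).1,
      ⟨?_, fun W _ f => ?_⟩, ?_, (INF3_cop hFPG3 C K B k k' h h1 hK).2.trans (cc_sub ?_)⟩
    · refine top_le_iff.1 (h.1.gen ▸ (Subgroup.closure_le _).2 ?_)
      rintro _ (⟨c, rfl⟩ | ⟨a, rfl⟩)
      · have hc : c ∈ Subgroup.closure {h | ∃ o a, h = ι o a} := h2.gen ▸ Subgroup.mem_top c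
        refine Subgroup.mem_comap.1 ((Subgroup.closure_le (Subgroup.comap k _)).2 ?_ hc)
        rintro _ ⟨o, a, rfl⟩
        exact Subgroup.subset_closure ⟨some o, a, rfl⟩
      · exact Subgroup.subset_closure ⟨none, a, rfl⟩
    · obtain ⟨F, hF⟩ := h2.up W fun o => f (some o)
      obtain ⟨G, g1, g2⟩ := h.1.up W F (f none)
      refine ⟨G, ?_⟩
      rintro (_ | o) a
      · exact g2 a
      · exact (g1 _).trans (hF o a)
    · rintro (_ | o) a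
      · exact h.2.2 a
      · exact (h.2.1 _).trans (h3 o a)
    · rintro _ (⟨c, hc, rfl⟩ | ⟨b, hb, rfl⟩)
      · refine cc_mono ?_ (cc_map k (h4 hc))
        rintro _ ⟨_, ⟨o, b, hb, rfl⟩, rfl⟩
        exact ⟨some o, b, hb, rfl⟩
      · exact sub_cc _ ⟨none, b, hb, rfl⟩

end Pool.Agent.P.MP_67c9d4_al.MX
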