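import Pool.Agent.P.MP_67c9d4_al.MX.Iface3
import Pool.Agent.P.MP_67c9d4_al.MX.Iface
import Pool.Agent.P.MP_67c9d4_al.FC.Fin

/-! Step MAIN4. -/

set_option autoImplicit false
set_option linter.unusedSectionVars false

namespace Pool.Agent.P.MP_67c9d4_al.MX

open Equiv Wr Multiplicative FC FR

lemma MAIN4_pow {G : Type} [Group G] {χ : G →* MZ} {E Z : Set G} (h : Hier3 G χ E Z) (n : ℤ) :
    ∀ e ∈ E, e ^ n ∈ E := by
  induction h with
  | free => exact fun _ h => h.elim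
  | base => exact fun _ h => h.elim
  | hnn φ a χ E Z _ _ _ ih =>
    rintro _ ⟨e, he, rfl⟩
    exact ⟨e ^ n, he.imp (ih e) fun h => zpow_mem h n, map_zpow _ _ _⟩
  | amal φ χ E Z _ _ ih =>
    rintro e (⟨x, rfl⟩ | he)
    · exact .inl ⟨x ^ n, map_zpow _ _ _⟩
    · obtain ⟨i, x, hx, rfl⟩ := Set.mem_iUnion.1 he
      exact .inr (Set.mem_iUnion.2 ⟨i, x ^ n, ih i x hx, map_zpow _ _ _⟩)

theorem p_MAIN4 (hQALL3 : S_QALL3) (hVIS3 : S_VIS3) (hNF3 : S_NF3) :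
    S_MAIN4 := by
  intro H _ χ E Z hH hEZ hT hv
  obtain ⟨M, hM, h⟩ := hQALL3 H χ E Z hH hT
  have : NeZero M := ⟨hM.ne'⟩
  have s0 : Subsingleton (B0 Empty).H := inferInstanceAs (Subsingleton (FreeGroup Empty))
  have t0 : Tw3 (B0 Empty) ∅ ∅ := ⟨Empty, inferInstance, B0 Empty, B0 Empty, MonoidHom.id _,
    Empty.elim, _, _, (in_of_subsingleton _).good, ⟨Subsingleton.elim _ _,
      fun W _ f _ => ⟨f, fun _ => rfl, fun v => v.elim⟩⟩, fun _ => rfl, fun v => v.elim, .base _,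
    fun _ h => h.elim, fun c hc => (hc.2 ((in_of_subsingleton _).mal c hc.1)).elim⟩
  obtain ⟨P, i, U, Ω, x, hc, hP⟩ := h M hM dvd_rfl (B0 Empty) _ _ t0
  have h1 : ∀ c, i c = 1 := fun c => by
    rw [Subsingleton.elim c 1]
    exact map_one i
  obtain ⟨F, -, hF, -⟩ := hc.up H 1 (cst (pHom.comp U) (MonoidHom.id H)) (fun _ => 1) fun _ => rfl
  have k : ∀ (g : H) ξ, F ((U g).c ξ) = g := fun g ξ => congrArg (fun w => Wr.c w ξ) (hF g)
  have h3 : VA P.H := (hNF3 P _ _ hP (by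
    rintro _ (⟨_, h, _⟩ | ⟨e, he, ξ, -, rfl⟩)
    · exact h.elim
    rintro _ (⟨_, h, _⟩ | ⟨g, ⟨n, hn, hg⟩, ξ', -, rfl⟩) c
    · exact h.elim
    have c' := F.map_isConj c
    rw [k, k] at c'
    obtain ⟨d, rfl⟩ := isConj_iff.1 c'
    exact he.2 (hT.zpow hn (hEZ _ (MAIN4_pow hH n _ he.1) _ hg
      (isConj_iff.2 ⟨d, conj_zpow.symm⟩).symm)))
    (hVIS3 M H Ω χ _ P i U x hc h1 hT hv.vr)).va
  have := stb_fi U 0
  refine VA.map (G' := stb U 0) (va_comap h3 (J := stH U 0) fun a b hab => Subtype.ext ?_)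
    (stb U 0).subtype_injective (by rwa [Subgroup.range_subtype])
  rw [← k a 0, ← k b 0]
  exact congrArg F hab

end Pool.Agent.P.MP_67c9d4_al.MX
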