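import Pool.Agent.P.MP_67c9d4_al.MX.Iface3
import Pool.Agent.P.MP_67c9d4_al.MX.Iface

/-! Step MINP. -/

set_option autoImplicit false
set_option linter.unusedSectionVars false

namespace Pool.Agent.P.MP_67c9d4_al.MX

open Equiv Wr Multiplicative FC FR

theorem p_MINP (hG2 : S_G2) (hGATE : S_GATE) (hPSC : S_PSC) (hRECT : S_RECT) :
    S_MINP := by
  classical
  intro T Γ S S' g h
  have c1 := (hPSC T Γ).1 S g
  have c2 := (hPSC T Γ).1 S' h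
  set Y₁ : Set (RAAG Γ) := {x | g⁻¹ * x ∈ PS Γ S}
  set Y₂ : Set (RAAG Γ) := {x | h⁻¹ * x ∈ PS Γ S'}
  have ex : ∃ n, ∃ p ∈ Y₁, ∃ q ∈ Y₂, Sh Γ n (p⁻¹ * q) :=
    let ⟨r, hr⟩ := sh_exists (g⁻¹ * h)
    ⟨r, g, by simp [Y₁], h, by simp [Y₂], hr⟩
  obtain ⟨p, hp, q, hq, hpq⟩ := Nat.find_spec ex
  have gate : ∀ p ∈ Y₁, ∀ q ∈ Y₂, Sh Γ (Nat.find ex) (p⁻¹ * q) → ∀ p' ∈ Y₁, ∀ q' ∈ Y₂,
      Disjoint (Sp Γ p q) (Sp Γ p p') ∧ Sp Γ p q ⊆ Sp Γ p' q' := by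
    intro p hp q hq h p' hp' q' hq'
    have d1 := (hGATE T Γ Y₁ c1 q).1 p hp
      (fun r c hc e => h.mono (Nat.find_min' ex ⟨c, hc, q, hq, e⟩)) p' hp'
    have d2 := (hGATE T Γ Y₂ c2 p).1 q hq (fun r c hc e => by
      have := (h.mono (Nat.find_min' ex ⟨p, hp, c, hc, by simpa using e.inv⟩)).inv
      simpa using this) q' hq'
    refine ⟨d1, fun W hW => ?_⟩
    have e1 := Set.disjoint_left.1 d1 hW
    have e2 := Set.disjoint_left.1 d2 (Sp_comm p q ▸ hW)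
    rw [Sp_xor p' p q', Sp_xor p q q', Sp_comm p' p]
    tauto
  obtain ⟨M, gM, eM⟩ := (hG2 T Γ).1 (p⁻¹ * q)
  have a2 : p * wd Γ M = q := by rw [eM]; group
  refine ⟨p, M, hp, a2 ▸ hq, fun k k1 k2 L gL eL => ?_⟩
  have k3 : k * p ∈ Y₁ := by simpa [Y₁, mul_assoc] using mul_mem (mem_cj.1 k1) hp
  have k4 : k * q ∈ Y₂ := by simpa [Y₂, mul_assoc] using mul_mem (mem_cj.1 k2) hq
  have hk' : Sh Γ (Nat.find ex) ((k * p)⁻¹ * (k * q)) := by simpa [mul_assoc] using hpq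
  have g1 := gate p hp q hq hpq _ k3 _ k4
  have g2 := gate _ k3 _ k4 hk' p hp q hq
  have a1 : p * wd Γ L = k * p := by rw [eL]; group
  have a3 : p * (wd Γ L * wd Γ M) = k * q := by rw [eL, eM]; group
  exact hRECT T Γ L M gL gM (Set.ext fun W => by
      rw [← smul_mem_Sp p, ← smul_mem_Sp p 1, a1, a2, a3, mul_one]
      exact ⟨fun h => g2.2 h, fun h => g1.2 h⟩)
    (Set.disjoint_left.2 fun W h1 h2 => by
      rw [← smul_mem_Sp p, mul_one] at h1 h2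
      rw [a1] at h1
      rw [a2] at h2
      exact Set.disjoint_left.1 g1.1 h2 h1)

end Pool.Agent.P.MP_67c9d4_al.MX
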