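import Pool.Agent.P.MP_67c9d4_al.MX.Iface3

/-! Step NF3. -/

set_option autoImplicit false
set_option linter.unusedSectionVars false

namespace Pool.Agent.P.MP_67c9d4_al.MX

open Equiv Wr Multiplicative FC FR

theorem p_NF3 (hNF13 : S_NF13) (hB0 : S_B0) :
    S_NF3 := by
  rintro H Y Z ⟨V, _, C, B, k, τ, j, n, h1, h2, h3, h4, h5, -, h7⟩ hZ hA
  have key : ∀ (n : ℕ) (B₀ B : MG) (A K : Type) (b : BS B₀.χ V A K) (U : Set V)
      (k : B₀.H →* B.H) (k' : C.H →* B.H) (j : B.H →* H.H), CopM k k' → (∀ a, b.vx a ∈ U) →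
      PT3 B ((fun v => k (b.t v)) '' U) H j n (cc Y) → (∀ c ∈ Bad C.χ, j (k' c) ∈ cc Z) →
      VP (⊥ : Subgroup H.H) := by
    intro n
    induction n using Nat.strong_induction_on with
    | _ n ih =>
      intro B₀ B A K b U k k' j e0 e1 e2 e3
      rcases hNF13 B₀ C B V A K b U k k' h1 e0 e1 H j n _ e2
        (fun _ ⟨y, hy, c1⟩ c hc c2 =>
          let ⟨z, hz, c3⟩ := e3 c hc; hZ y hy z hz (c3.trans (c2.trans c1.symm)))
        (fun v _ => hA _ (by rw [e2.chi, e0.2.1, b.ct])) with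
        h | ⟨B₀', B', A', K', b', U', k₁, k₁', j', m, e4, e5, e6, e7, e8, -⟩
      · exact h.1.vp
      · exact ih m e4 B₀' B' A' K' b' U' k₁ k₁' j' e5 e6 e7 fun c hc => e8 c ▸ e3 c hc
  obtain ⟨b, hb⟩ := hB0 V
  have e : ∀ v, (FreeGroup.lift τ : FreeGroup V →* B.H) (FreeGroup.of v) = τ v := fun v =>
    FreeGroup.lift_apply_of
  refine key n (B0 V) B _ _ b Set.univ (FreeGroup.lift τ) k j ⟨⟨?_, fun W _ f f' => ?_⟩,
    fun a => ?_, h3⟩ (fun _ => trivial) ?_ h7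
  · rw [eq_top_iff, ← h2.gen]
    refine Subgroup.closure_mono ?_
    rintro _ (h | ⟨v, rfl⟩)
    · exact Or.inr h
    · exact Or.inl ⟨_, e v⟩
  · obtain ⟨F, a1, a2⟩ := h2.up W f' fun v => f (FreeGroup.of v)
    exact ⟨F, fun a => DFunLike.congr_fun (FreeGroup.ext_hom (F.comp (FreeGroup.lift τ)) f
      fun v => (congrArg F (e v)).trans (a2 v)) a, a1⟩
  · exact DFunLike.congr_fun (FreeGroup.ext_hom (B.χ.comp (FreeGroup.lift τ)) (B0 V).χ
      fun v => ((congrArg B.χ (e v)).trans (h4 v)).trans FreeGroup.lift_apply_of.symm) a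
  · rw [Set.image_univ, hb]
    exact (funext e : (fun v => FreeGroup.lift τ (FreeGroup.of v)) = τ).symm ▸ h5

end Pool.Agent.P.MP_67c9d4_al.MX
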