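import Pool.Agent.P.MP_67c9d4_al.MX.Iface3

/-! Step NORM. -/

set_option autoImplicit false
set_option linter.unusedSectionVars false

namespace Pool.Agent.P.MP_67c9d4_al.MX

open Equiv Wr Multiplicative FC FR

lemma NORM_comm {T : Type} {Γ : SimpleGraph T} {S S' : Set T}
    (h : ∀ s ∈ S, ∀ t ∈ S', Γ.Adj s t) {u v : RAAG Γ} (hu : u ∈ PS Γ S) (hv : v ∈ PS Γ S') :
    Commute u v :=
  commute_PS (MonoidHom.id _) (fun t ht => (commute_PS (MonoidHom.id _)
    (x := PresentedGroup.of t) (fun s hs => of_comm (h s hs t ht).symm) hu).symm) hv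

theorem p_NORM (hG2 : S_G2) (hMINP : S_MINP) :
    S_NORM := by
  intro T Γ S y h
  obtain ⟨p, M, h1, h2, h3⟩ := hMINP T Γ S S 1 y
  rw [inv_one, one_mul] at h1
  have mM : wd Γ M ∈ PS Γ {t | ∀ s ∈ S, Γ.Adj s t} := wd_mem fun x hx s hs => by
    have k : p * PresentedGroup.of s * p⁻¹ ∈ PS Γ S :=
      mul_mem (mul_mem h1 (Subgroup.subset_closure ⟨s, hs, rfl⟩)) (inv_mem h1)
    refine h3 _ (by rwa [cj_one]) (by rwa [h]) [(s, true)] (fun L e => ?_)
      (by rw [wd_true]; group) _ List.mem_cons_self x hx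
    obtain _ | ⟨a, L⟩ := L
    · obtain ⟨F, hF⟩ := raag_lift (Γ := Γ) (W := MZ) (fun _ => ofAdd 1) fun _ _ _ => Commute.refl _
      have := congrArg F e
      rw [wd_nil, map_one, wd_true, hF] at this
      simpa using congrArg toAdd this
    · simp
  refine ⟨p * (y⁻¹ * (p * wd Γ M))⁻¹, mul_mem h1 (inv_mem h2), _, mM, ?_⟩
  rw [mul_assoc, (NORM_comm (S' := {t | ∀ s ∈ S, Γ.Adj s t}) (fun s hs t ht => ht s hs) (inv_mem h2)
    mM).eq]
  group

end Pool.Agent.P.MP_67c9d4_al.MX
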