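import Pool.Agent.P.MP_67c9d4_al.MX.Iface3

/-! Step PARI. -/

set_option autoImplicit false
set_option linter.unusedSectionVars false

namespace Pool.Agent.P.MP_67c9d4_al.MX

open Equiv Wr Multiplicative FC FR

lemma PARI_comm {T : Type} {Γ : SimpleGraph T} {S S' : Set T}
    (h : ∀ s ∈ S, ∀ t ∈ S', Γ.Adj s t) {u v : RAAG Γ} (hu : u ∈ PS Γ S) (hv : v ∈ PS Γ S') :
    Commute u v :=
  commute_PS (MonoidHom.id _) (fun t ht => (commute_PS (MonoidHom.id _)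
    (x := PresentedGroup.of t) (fun s hs => of_comm (h s hs t ht).symm) hu).symm) hv

theorem p_PARI (hG2 : S_G2) (hMINP : S_MINP) :
    S_PARI := by
  intro T Γ S S' g h
  obtain ⟨p, M, h1, h2, h3⟩ := hMINP T Γ S S' g h
  have mM : wd Γ M ∈ PS Γ {t | ∃ y ∈ M, y.1 = t} := wd_mem fun x hx => ⟨x, hx, rfl⟩
  have e1 : ∀ k, g⁻¹ * k * g = g⁻¹ * p * (p⁻¹ * k * p) * (g⁻¹ * p)⁻¹ := fun k => by group
  have e2 : ∀ k, Commute (p⁻¹ * k * p) (wd Γ M) → h⁻¹ * k * h =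
      h⁻¹ * (p * wd Γ M) * (p⁻¹ * k * p) * (h⁻¹ * (p * wd Γ M))⁻¹ := fun k c => by
    rw [← mul_assoc h⁻¹, mul_assoc _ (wd Γ M), ← c.eq]
    group
  refine ⟨p, {t | t ∈ S ∧ t ∈ S' ∧ ∀ y ∈ M, Γ.Adj t y.1}, Subgroup.ext fun k => ?_⟩
  rw [Subgroup.mem_inf]
  refine ⟨fun ⟨k1, k2⟩ => ?_, fun hk => ?_⟩
  · obtain ⟨L, gL, eL⟩ := (hG2 T Γ).1 (p⁻¹ * k * p)
    have ad := h3 k k1 k2 L gL eL
    have c : Commute (p⁻¹ * k * p) (wd Γ M) := eL ▸ PARI_comm (S := {t | ∃ y ∈ L, y.1 = t})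
      (by rintro _ ⟨x, hx, rfl⟩ _ ⟨y, hy, rfl⟩; exact ad x hx y hy)
      (wd_mem fun x hx => ⟨x, hx, rfl⟩) mM
    rw [mem_cj, e1, Subgroup.mul_mem_cancel_right _ (inv_mem h1),
      Subgroup.mul_mem_cancel_left _ h1, ← eL] at k1
    rw [mem_cj, e2 k c, Subgroup.mul_mem_cancel_right _ (inv_mem h2),
      Subgroup.mul_mem_cancel_left _ h2, ← eL] at k2
    rw [mem_cj, ← eL]
    exact wd_mem fun x hx => ⟨(hG2 T Γ).2.1 S L gL k1 x hx, (hG2 T Γ).2.1 S' L gL k2 x hx, ad x hx⟩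
  · rw [mem_cj] at hk
    have c := PARI_comm (by rintro s hs _ ⟨y, hy, rfl⟩; exact hs.2.2 y hy) hk mM
    rw [mem_cj, mem_cj, e1, e2 k c]
    exact ⟨mul_mem (mul_mem h1 (Subgroup.closure_mono (Set.image_mono fun _ h => h.1) hk))
      (inv_mem h1), mul_mem (mul_mem h2
        (Subgroup.closure_mono (Set.image_mono fun _ h => h.2.1) hk)) (inv_mem h2)⟩

end Pool.Agent.P.MP_67c9d4_al.MX
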