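import Pool.Agent.P.MP_67c9d4_al.MX.Iface3

/-! Step PARL. -/

set_option autoImplicit false
set_option linter.unusedSectionVars false

namespace Pool.Agent.P.MP_67c9d4_al.MX

open Equiv Wr Multiplicative FC FR

theorem p_PARL :
    S_PARL := by
  classical
  intro T Γ S S' p p' h
  have k : ∀ u ∈ PS Γ S, p'⁻¹ * p * u * (p'⁻¹ * p)⁻¹ ∈ PS Γ S' := fun u hu => by
    simpa [mul_assoc] using mem_cj.1 (h (conj_mem_cj.2 hu))
  refine ⟨fun s hs => by_contra fun hn => ?_, ?_⟩
  · obtain ⟨F, hF⟩ := raag_lift (Γ := Γ) (W := MZ) (fun a => if a = s then ofAdd 1 else 1)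
      fun _ _ _ => Commute.all _ _
    have h1 : PS Γ S' ≤ F.ker := (Subgroup.closure_le _).2 (by
      rintro _ ⟨a, ha, rfl⟩
      exact (hF a).trans (if_neg fun e : a = s => hn (e ▸ ha)))
    have h2 := h1 (k _ (Subgroup.subset_closure ⟨s, hs, rfl⟩))
    rw [MonoidHom.mem_ker, map_mul, map_mul _ (_ * _), map_inv, mul_inv_cancel_comm, hF,
      if_pos rfl] at h2
    simpa using congrArg toAdd h2
  · rintro rfl
    obtain ⟨r, hr⟩ := raag_lift (Γ := Γ)
      (fun a => if a ∈ S then (PresentedGroup.of a : RAAG Γ) else 1) fun a b hab => by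
        split_ifs
        exacts [of_comm hab, Commute.one_right _, Commute.one_left _, Commute.one_left _]
    have r1 : ∀ u, r u ∈ PS Γ S := fun u => (Subgroup.closure_le ((PS Γ S).comap r)).2 (by
      rintro _ ⟨a, -, rfl⟩
      change r _ ∈ PS Γ S
      rw [hr]
      split_ifs with ha
      exacts [Subgroup.subset_closure ⟨a, ha, rfl⟩, one_mem _]) (PS_univ u)
    have r2 : ∀ u ∈ PS Γ S, r u = u := fun u hu =>
      MonoidHom.eqOn_closure (f := r) (g := MonoidHom.id _) (by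
        rintro _ ⟨a, ha, rfl⟩
        exact (hr a).trans (if_pos ha)) hu
    refine le_antisymm h fun u hu => mem_cj.2 ?_
    set d := p'⁻¹ * p with hd
    have h1 : (r d)⁻¹ * (p'⁻¹ * u * p') * r d ∈ PS Γ S :=
      mul_mem (mul_mem (inv_mem (r1 d)) (mem_cj.1 hu)) (r1 d)
    have h2 := r2 _ (k _ h1)
    rw [map_mul, map_mul, map_inv, r2 _ h1] at h2
    have h3 : p⁻¹ * u * p = d⁻¹ * (p'⁻¹ * u * p') * d := by rw [hd]; group
    have h4 : p'⁻¹ * u * p' = d * ((r d)⁻¹ * (p'⁻¹ * u * p') * r d) * d⁻¹ := by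
      rw [← h2]; group
    rw [h3, h4]
    simpa [mul_assoc] using h1

end Pool.Agent.P.MP_67c9d4_al.MX
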