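import Pool.Agent.P.MP_67c9d4_al.MX.Iface3
import Pool.Agent.P.MP_67c9d4_al.FC.QALL
import Pool.Agent.P.MP_67c9d4_al.FC.AMF

/-! Step QALL3. -/

set_option autoImplicit false
set_option linter.unusedSectionVars false

namespace Pool.Agent.P.MP_67c9d4_al.MX

open Equiv Wr Multiplicative FC FR

open QALLx in
lemma QALL3_qh (hQH : S_QH3) {G G' : Type} [Group G] [Group G'] {i : G →* G'} {a b : G} {s : G'}
    {χ : G' →* MZ} {M : ℕ} {E Z : Set G} (h : IsHNN i a b s) (h1 : χ (i a) ≠ 1) (hM : 0 < M)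
    (hd : (χ (i a)).toAdd.natAbs ∣ M) (hQ : QM3 M (χ.comp i) E Z) :
    QM3 M χ (i '' E ∪ {g | ∃ n : ℤ, n ≠ 0 ∧ g = i a ^ n}) (i '' Z) := by
  obtain ⟨m, rfl⟩ := hd
  have hm := Nat.pos_of_mul_pos_left hM
  have key : ∀ (a' b' : G) (n : ℤ), n ≠ 0 → IsHNN i a' b' s → a' ^ m = a ^ n →
      i '' (E ∪ {a' ^ m, b' ^ m}) ⊆ cc (i '' E ∪ {g | ∃ n : ℤ, n ≠ 0 ∧ g = i a ^ n}) := by
    rintro a' b' n hn h' e _ ⟨_, hx | rfl | rfl, rfl⟩
    · exact sub_cc _ (.inl ⟨_, hx, rfl⟩)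
    · exact sub_cc _ (.inr ⟨n, hn, by rw [e, map_zpow]⟩)
    · refine ⟨_, .inr ⟨n, hn, rfl⟩, isConj_iff.2 ⟨s⁻¹, ?_⟩⟩
      rw [← map_zpow, ← e, map_pow, map_pow, ← h'.rel, ← conj_pow, inv_inv]
  rcases Int.natAbs_eq (χ (i a)).toAdd with e | e
  · exact (hQH G G' i a b s χ _ m E Z h (pos h1) hm (by rw [← e, ofAdd_toAdd]) hQ).mono
      (key a b m (by omega) h (zpow_natCast _ _).symm) (sub_cc _)
  · exact (hQH G G' i a⁻¹ b⁻¹ s χ _ m E Z h.inv (pos h1) hm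
      (by rw [map_inv, map_inv, ← neg_eq_iff_eq_neg.2 e, ofAdd_neg, ofAdd_toAdd]) hQ).mono
      (key a⁻¹ b⁻¹ (-m) (by omega) h.inv (by simp)) (sub_cc _)

lemma QALL3_rt {G G' : Type} [Group G] [Group G'] (i : G →* G') {Z : Set G} {Z' : Set G'}
    (h : ∀ z ∈ Z, i z ∈ Z') {g : G} (hg : g ∈ Rt Z) : i g ∈ Rt Z' :=
  let ⟨n, hn, e⟩ := hg; ⟨n, hn, map_zpow i g n ▸ h _ e⟩

lemma QALL3_ne {G : Type} [Group G] {χ : G →* MZ} {a : G} (h : χ a ≠ 1) {n : ℤ} (hn : n ≠ 0) :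
    a ^ n ≠ 1 := fun e => h (zpow_left_injective hn (by
  change χ a ^ n = 1 ^ n
  rw [← map_zpow, e, map_one, one_zpow]))

open QALLx Monoid in
theorem p_QALL3 (hQF3 : S_QF3) (hQH3 : S_QH3) (hQC3 : S_QC3) (hQR3 : S_QR3) (hQB3 : S_QB3) (hBPF3 : S_BPF3) (hBPIN3 : S_BPIN3) (hBADT : S_BADT) (hHNM : S_HNM) :
    S_QALL3 := by
  intro G _ χ E Z h
  induction h with
  | free V χ =>
    exact fun _ => ⟨1, one_pos, fun M hM _ => (hQF3 M V χ hM).mono (Set.empty_subset _)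
      (Set.empty_subset _)⟩
  | @base G _ χ h1 =>
    refine fun hT => ⟨1, one_pos, fun M hM _ => ?_⟩
    have : NeZero M := ⟨hM.ne'⟩
    let K : Subgroup G := (pHom.comp ((etaM M).comp χ)).ker
    have hK : ∀ g, g ∈ K ↔ (M : ℤ) ∣ (χ g).toAdd := fun g => by
      change (etaM M (χ g)).p = 1 ↔ _
      rw [etaM_p, ← ZMod.intCast_zmod_eq_zero_iff_dvd]
      exact ⟨fun e => by simpa using DFunLike.congr_fun e 0, fun e => by rw [e]; simp⟩
    obtain ⟨χK, hχ⟩ := exists_div χ M K fun k hk => (hK k).1 hk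
    refine (hQB3 M G χ K χK hM hK hχ
      (hBPIN3 K (hBPF3.2 G (hBPF3.1 G h1) K (FN.ker _).2) χK)).mono (Set.empty_subset _) ?_
    rintro _ ⟨k, hk, rfl⟩
    refine sub_cc _ (QALL3_rt _ ?_ (hBADT K χK (hT.comap K.subtype_injective) hk))
    rintro _ ⟨f, hf, x, rfl⟩
    exact ⟨K.subtype.comp f, K.subtype_injective.comp hf, x, rfl⟩
  | @hnn G _ A B φ a χ E Z h1 h2 _ ih =>
    intro hT
    obtain ⟨M₀, h3, h4⟩ := ih (hT.comap (HNNExtension.of_injective φ))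
    obtain ⟨b, hb⟩ := hHNM G A B φ a h1
    refine ⟨M₀ * _, Nat.mul_pos h3 (pos h2), fun M hM hd =>
      (QALL3_qh hQH3 hb h2 hM (dvd_of_mul_left_dvd hd) (h4 M hM (dvd_of_mul_right_dvd hd))).mono
        ?_ ?_⟩
    · rintro _ (⟨e, he, rfl⟩ | ⟨n, hn, rfl⟩)
      · exact sub_cc _ ⟨⟨e, .inl he.1, rfl⟩,
          fun h => he.2 (HNNExtension.of_injective φ (h.trans (map_one _).symm))⟩
      · exact sub_cc _ ⟨⟨a ^ n, .inr (h1 ▸ Subgroup.zpow_mem_zpowers a n), map_zpow _ _ _⟩,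
          QALL3_ne h2 hn⟩
    · rintro _ ⟨g, hg, rfl⟩
      exact sub_cc _ (QALL3_rt _ (fun z hz => Set.mem_image_of_mem _ hz) hg)
  | @amal G _ φ χ E Z h1 _ ih =>
    intro hT
    have inj : ∀ i, Function.Injective (φ i) := fun i => by
      refine (injective_iff_map_eq_one _).2 fun x hx => ?_
      have e1 : χ (PushoutI.base φ x) = 1 := by
        rw [← PushoutI.of_apply_eq_base φ i, hx, map_one, map_one]
      have e2 : x = ofAdd 1 ^ x.toAdd := by simp [← ofAdd_zsmul]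
      rw [e2, map_zpow, map_zpow] at e1
      by_contra hx1
      exact h1 (zpow_left_injective (toAdd_eq_zero.not.2 hx1) (e1.trans (one_zpow _).symm))
    choose M₀ h3 h4 using fun i => ih i (hT.comap (PushoutI.of_injective inj i))
    obtain ⟨G', _, J, s, χ', h6, rfl⟩ : ∃ (G' : Type) (_ : Group G') (J : PushoutI φ →* G')
        (s : G') (χ' : G' →* MZ), IsFr J (fun _ : Unit => s) ∧ χ'.comp J = χ :=
      ⟨Coprod (PushoutI φ) MZ, inferInstance, Coprod.inl, _, Coprod.lift χ 1, AMFx.fr _, rfl⟩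
    have e0 : AMFx.i J s (Coprod.inl (φ true (ofAdd 1))) = J (PushoutI.base φ (ofAdd 1)) := by
      rw [AMFx.i_inl, PushoutI.of_apply_eq_base]
    have e : χ' (AMFx.i J s (Coprod.inl (φ true (ofAdd 1)))) =
        (χ'.comp J) (PushoutI.base φ (ofAdd 1)) := congrArg χ' e0
    have e' := AMFx.chi J s χ' (χ'.comp J) fun _ => rfl
    have tr : ∀ (S : ∀ i, Set (G i)) (S' : Set (PushoutI φ)),
        (∀ i, ∀ g ∈ S i, PushoutI.of i g ∈ S') →
        AMFx.i J s '' (Coprod.inl '' S true ∪ Coprod.inr '' S false) ⊆ cc (J '' S') := by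
      rintro S S' h _ ⟨_, ⟨g, hg, rfl⟩ | ⟨g, hg, rfl⟩, rfl⟩
      · exact sub_cc _ ⟨_, h _ g hg, rfl⟩
      · exact ⟨_, ⟨_, h _ g hg, rfl⟩, isConj_iff.2 ⟨s⁻¹, by rw [AMFx.i_inr, inv_inv]⟩⟩
    refine ⟨M₀ true * M₀ false * _, Nat.mul_pos (Nat.mul_pos (h3 _) (h3 _)) (pos h1),
      fun M hM hd => ?_⟩
    have h10 := dvd_of_mul_right_dvd hd
    have q := hQC3 M _ _ (χ'.comp (AMFx.i J s)) _ _ _ _ (h4 true M hM (dvd_of_mul_right_dvd h10))
      (by rw [e']; exact h4 false M hM (dvd_of_mul_left_dvd h10))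
    refine hQR3 M _ _ Unit J _ χ' _ _ h6 ((QALL3_qh hQH3 (AMFx.hnn J s h6) (by rwa [e]) hM
      (by rw [e]; exact dvd_of_mul_left_dvd hd) q).mono
      (Set.union_subset (tr (fun i => E i \ {1}) _ fun i g hg => ?_) ?_)
      (tr (fun i => Rt (Z i)) _ fun i g hg => QALL3_rt _ (fun z hz => ?_) hg))
    rotate_left 2
    · exact Set.mem_iUnion.2 ⟨i, z, hz, rfl⟩
    · exact ⟨.inr (Set.mem_iUnion.2 ⟨i, g, hg.1, rfl⟩),
        fun h => hg.2 (PushoutI.of_injective inj i (h.trans (map_one _).symm))⟩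
    · rintro _ ⟨n, hn, rfl⟩
      exact sub_cc _ ⟨_, ⟨.inl ⟨ofAdd 1 ^ n, map_zpow _ _ _⟩, QALL3_ne h1 hn⟩,
        by rw [e0, map_zpow]⟩

end Pool.Agent.P.MP_67c9d4_al.MX
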