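import Pool.Agent.P.MP_67c9d4_al.MX.Iface3

/-! Step QF3. -/

set_option autoImplicit false
set_option linter.unusedSectionVars false

namespace Pool.Agent.P.MP_67c9d4_al.MX

open Equiv Wr Multiplicative FC FR

theorem p_QF3 (hADDF3 : S_ADDF3) :
    S_QF3 := by
  intro M V _ χ hM C Y Z hC
  have : NeZero M := ⟨hM.ne'⟩
  obtain ⟨H, i, x, hH, hF, hi, hx⟩ := hADDF3 C Y Z (V × ZMod M)
    (fun q => (etaM M (χ (FreeGroup.of q.1))).c q.2) hC
  let U : FreeGroup V →* Wr (ZMod M) H.H :=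
    FreeGroup.lift fun v => ⟨(etaM M (χ (FreeGroup.of v))).p, fun ξ => x (some (v, ξ))⟩
  have hU : ∀ v, U (FreeGroup.of v) =
      ⟨(etaM M (χ (FreeGroup.of v))).p, fun ξ => x (some (v, ξ))⟩ := fun v =>
    FreeGroup.lift_apply_of
  refine ⟨H, i, U, Unit, fun _ => x none, ⟨hi, fun g => ?_, ?_, fun W _ f ρ y hρ => ?_⟩,
    hH.mono (Set.subset_union_left.trans (sub_cc _)) (Set.subset_union_left.trans (sub_cc _))⟩
  · refine DFunLike.congr_fun (FreeGroup.ext_hom ((push H.χ).comp U) ((etaM M).comp χ)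
      fun v => ?_) g
    rw [MonoidHom.comp_apply, hU]
    exact Wr.ext rfl (funext fun ξ => hx (v, ξ))
  · rw [eq_top_iff, ← hF.gen]
    refine Subgroup.closure_mono ?_
    rintro _ (h | ⟨_ | ⟨v, ξ⟩, rfl⟩)
    · exact Or.inl (Or.inl h)
    · exact Or.inr ⟨(), rfl⟩
    · exact Or.inl (Or.inr ⟨FreeGroup.of v, ξ, by rw [hU]⟩)
  · obtain ⟨F, h1, h2⟩ := hF.up W f fun o =>
      o.elim (y ()) fun q => (ρ (FreeGroup.of q.1)).c q.2
    refine ⟨F, h1, fun g => ?_, fun _ => h2 none⟩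
    refine DFunLike.congr_fun (FreeGroup.ext_hom ((push F).comp U) ρ fun v => ?_) g
    refine Wr.ext (hρ _).symm (funext fun ξ => ?_)
    rw [MonoidHom.comp_apply, hU]
    exact h2 (some (v, ξ))

end Pool.Agent.P.MP_67c9d4_al.MX
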