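import Pool.Agent.P.MP_67c9d4_al.MX.Iface3
import Pool.Agent.P.MP_67c9d4_al.FC.QH

/-! Step QH3. -/

set_option autoImplicit false
set_option linter.unusedSectionVars false

namespace Pool.Agent.P.MP_67c9d4_al.MX

open Equiv Wr Multiplicative FC FR

open QHx in
theorem p_QH3 (hDBL3 : S_DBL3) (hORB : S_ORB) :
    S_QH3 := by
  intro G G' _ _ i a b s χ k m E Z hs hk hm ha hQ C Y₀ Z₀ hC
  obtain ⟨H₀, i₁, U₀, Ω, x₀, h₀, hH₀⟩ := hQ C Y₀ Z₀ hC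
  have hb : χ (i b) = ofAdd (k : ℤ) := by
    rw [← hs.rel, map_mul, map_mul, map_inv, ha, mul_comm, mul_inv_cancel_left]
  have hp : ∀ g, χ (i g) = ofAdd (k : ℤ) → (U₀ g).p = Equiv.addRight (k : ZMod (k * m)) :=
    fun g hg => by
      rw [← push_p H₀.χ, h₀.cU, etaM_p, MonoidHom.comp_apply, hg, toAdd_ofAdd, Int.cast_natCast]
  have hc : ∀ g, χ (i g) = ofAdd (k : ℤ) → ∀ y, H₀.χ ((U₀ g ^ m).c y) = ofAdd 1 := fun g hg y => by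
    rw [push_pow, h₀.cU, ← map_pow, MonoidHom.comp_apply, hg, ← ofAdd_nsmul, nsmul_eq_mul,
      mul_comm (m : ℤ), ← Nat.cast_mul, etaM_c (Nat.mul_pos hk hm)]
  set π := (etaM (k * m) (χ s)).p with hπ
  obtain ⟨I, _, r, ob, n, h1, h2⟩ := hORB k m hk hm π (by
    rw [hπ, etaM_p]
    ext y
    simp [add_right_comm])
  obtain ⟨H, i₂, x₁, σ, hH, hE, hci, hσ⟩ := hDBL3 H₀ _ _ I (fun ω => (U₀ a ^ m).c (r ω))
    (fun ω => (U₀ b ^ m).c (π⁻¹ (r ω))) (fun ω => (etaM (k * m) (χ s)).c (r ω)) hH₀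
    (fun ω => hc a ha _) fun ω => hc b hb _
  let γ : Wr (ZMod (k * m)) H.H := ⟨π, fun ξ => ((push i₂ (U₀ a) ^ n ξ).c (r (ob ξ)))⁻¹ *
    σ (ob ξ) * (push i₂ (U₀ b) ^ n ξ).c (π⁻¹ (r (ob ξ)))⟩
  obtain ⟨h3, h4⟩ := h2 H.H (push i₂ (U₀ a)) (push i₂ (U₀ b)) σ (hp a ha)
    ((hp b hb).trans (hp a ha).symm)
    (fun ω => by rw [← push_pow, ← push_pow]; exact hE.rel ω) γ rfl fun _ => rfl
  obtain ⟨U, hU, hUs⟩ := hs.up _ ((push i₂).comp U₀) γ h3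
  have rel : ∀ (W : Type) [Group W] (ρ : G' →* Wr (ZMod (k * m)) W),
      (ρ s)⁻¹ * ρ (i a) * ρ s = ρ (i b) := fun W _ ρ => by
    rw [← hs.rel, map_mul, map_mul, map_inv]
  have key : ∀ (W : Type) [Group W] (F : H.H →* W) (ρ : G' →* Wr (ZMod (k * m)) W),
      (∀ g, push F (push i₂ (U₀ g)) = ρ (i g)) → (ρ s).p = π →
      (∀ ω, F (σ ω) = (ρ s).c (r ω)) → ∀ g, push F (U g) = ρ g := by
    intro W _ F ρ e1 e2 e3 g
    refine DFunLike.congr_fun (hs.ext (F := (push F).comp U) (F' := ρ)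
      (fun g => by rw [MonoidHom.comp_apply, hU]; exact e1 g) ?_) g
    rw [MonoidHom.comp_apply, hUs]
    refine Wr.ext e2.symm (funext fun ξ => ?_)
    have e4 := idn (θ := (k : ZMod (k * m))) (by rw [← e1]; exact hp a ha) (rel W ρ) (n ξ)
      (r (ob ξ))
    rw [← h1, e2, ← e3, ← e1, ← e1, ← push_pow F, ← push_pow F, ← map_inv, ← map_mul,
      ← map_mul] at e4
    exact e4.symm
  have lf : ∀ (S : Set G) (e : G) ξ, e ∈ S → (U₀ e).p ξ = ξ →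
      i₂ ((U₀ e).c ξ) ∈ Lf U (i '' S) := fun S e ξ he h =>
    ⟨_, ⟨e, he, rfl⟩, ξ, by rw [hU]; exact h, by rw [hU]; rfl⟩
  have fx : ∀ g, χ (i g) = ofAdd (k : ℤ) → ∀ ξ, (U₀ (g ^ m)).p ξ = ξ := fun g hg ξ => by
    rw [← push_p H₀.χ, h₀.cU, etaM_p, MonoidHom.comp_apply, map_pow, map_pow, hg, toAdd_pow,
      toAdd_ofAdd, nsmul_eq_mul, mul_comm (m : ℤ), ← Nat.cast_mul, Int.cast_natCast,
      ZMod.natCast_self]
    simp
  refine ⟨H, i₂.comp i₁, U, Ω ⊕ I, Sum.elim (i₂ ∘ x₀) x₁, ⟨fun c => (hci _).trans (h₀.ci c),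
    key MZ H.χ ((etaM (k * m)).comp χ) (fun g => (push_push hci _).trans (h₀.cU g)) rfl hσ,
    ?_, fun W _ f ρ y hρ => ?_⟩, hH.mono ?_ ?_⟩
  rotate_left 2
  · rintro _ ⟨_, ((⟨c, hc, rfl⟩ | ⟨e, he, ξ, h, rfl⟩) | ⟨ω, rfl⟩) | ⟨ω, rfl⟩, rfl⟩
    · exact sub_cc _ (.inl ⟨c, hc, rfl⟩)
    · exact sub_cc _ (.inr (lf _ e ξ (.inl he) h))
    · exact sub_cc _ (.inr (map_pow U₀ a m ▸ lf _ (a ^ m) _ (.inr (.inl rfl)) (fx a ha _)))
    · exact sub_cc _ (.inr (map_pow U₀ b m ▸ lf _ (b ^ m) _ (.inr (.inr rfl)) (fx b hb _)))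
  · rintro _ ⟨_, ⟨c, hc, rfl⟩ | ⟨e, he, ξ, h, rfl⟩, rfl⟩
    · exact sub_cc _ (.inl ⟨c, hc, rfl⟩)
    · exact sub_cc _ (.inr (lf _ e ξ he h))
  · rw [eq_top_iff, ← hE.gen, Subgroup.closure_le]
    rintro _ ((⟨c, rfl⟩ | ⟨ω, rfl⟩) | ⟨ω, rfl⟩)
    · have e : c ∈ Subgroup.closure (Set.range i₁ ∪ {h | ∃ g ξ, h = (U₀ g).c ξ} ∪ Set.range x₀) :=
        h₀.gen ▸ Subgroup.mem_top c
      refine Subgroup.mem_comap.1 ((Subgroup.closure_le (Subgroup.comap i₂ _)).2 ?_ e)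
      rintro _ ((⟨c, rfl⟩ | ⟨g, ξ, rfl⟩) | ⟨ω, rfl⟩)
      · exact Subgroup.subset_closure (Or.inl (Or.inl ⟨c, rfl⟩))
      · exact Subgroup.subset_closure (Or.inl (Or.inr ⟨i g, ξ, by rw [hU]; rfl⟩))
      · exact Subgroup.subset_closure (Or.inr ⟨Sum.inl ω, rfl⟩)
    · exact Subgroup.subset_closure (Or.inr ⟨Sum.inr ω, rfl⟩)
    · exact Subgroup.subset_closure (Or.inl (Or.inr ⟨s, r ω, by rw [hUs, h4]⟩))
  · have e1 : ∀ g, (ρ (i g)).p = (U₀ g).p := fun g => by rw [hρ, hU]; rfl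
    have e2 : (ρ s).p = π := by rw [hρ, hUs]
    obtain ⟨F₀, f1, f2, f3⟩ := h₀.up W f (ρ.comp i) (y ∘ Sum.inl) e1
    obtain ⟨F, g1, g2, g3⟩ := hE.up W F₀ (y ∘ Sum.inr) (fun ω => (ρ s).c (r ω)) fun ω => by
      have e3 := idn (θ := (k : ZMod (k * m))) ((e1 a).trans (hp a ha)) (rel W ρ) m (r ω)
      rw [mul_comm (m : ZMod (k * m)), ← Nat.cast_mul, ZMod.natCast_self, sub_zero, e2,
        mul_assoc, eq_inv_mul_iff_mul_eq] at e3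
      rw [push_pow, push_pow, f2, f2, MonoidHom.comp_apply, MonoidHom.comp_apply, mul_assoc, e3,
        inv_mul_cancel_left]
    refine ⟨F, fun c => (g1 _).trans (f1 c),
      key W F ρ (fun g => (push_push g1 _).trans (f2 g)) e2 g3, ?_⟩
    rintro (ω | ω)
    · exact (g1 _).trans (f3 ω)
    · exact g2 ω

end Pool.Agent.P.MP_67c9d4_al.MX
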