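import Pool.Agent.P.MP_67c9d4_al.MX.Iface3
import Pool.Agent.P.MP_67c9d4_al.FC.REORD

/-! Step REORD3. -/

set_option autoImplicit false
set_option linter.unusedSectionVars false

namespace Pool.Agent.P.MP_67c9d4_al.MX

open Equiv Wr Multiplicative FC FR

theorem p_REORD3 (hHEX : S_HEX) :
    S_REORD3 := by
  intro B S H j n Y hT a g hag
  induction hT with
  | base =>
    intro H' i s Y' h1 h2 h3 _
    exact ⟨H', i, s, MonoidHom.id _, h1, h2, h3, PT3.base _, fun _ => rfl⟩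
  | @step H₀ H j₀ n Y₀ i₀ a₀ y₀ s₀ Y hT hc ha hy hH hχ hs y1 y2 ih =>
    intro H' i s Y' h1 h2 h3 y3
    obtain ⟨H₀', i₀', s', h4, h5, h6⟩ := hHEX H₀ (j₀ a) (j₀ g) (by rw [hT.chi, hT.chi, hag])
    obtain ⟨B₁, i₁, s₁, j₁, h7, h8, h9, h10, h11⟩ :=
      ih H₀' i₀' s' (i₀' '' Y₀) h4 h5 h6 fun x hx => ⟨x, hx, rfl⟩
    obtain ⟨i'', e1, e2⟩ := h4.up H'.H (i.comp i₀) s h1.rel
    refine ⟨B₁, i₁, s₁, i''.comp j₁, h7, h8, h9, PT3.step i'' (i₀' a₀) (i₀' y₀) (i s₀) Y' h10 ?_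
      ((h5 _).trans ha) ((h5 _).trans hy) (REORDx.swap hH h1 h4 e1 e2) (fun x => ?_)
      ((h2 _).trans hs) ?_ (e1 y₀ ▸ y3 _ y2), fun x => by rw [MonoidHom.comp_apply, h11, e1]; rfl⟩
    · obtain ⟨b, hb, hc⟩ := hc
      exact ⟨i₁ b, ⟨b, hb, rfl⟩, by rw [h11]; exact i₀'.map_isConj hc⟩
    · refine DFunLike.congr_fun (h4.ext (F := H'.χ.comp i'') (fun x => ?_) ?_) x
      · rw [MonoidHom.comp_apply, e1, MonoidHom.comp_apply, h2, hχ, h5]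
      · rw [MonoidHom.comp_apply, e2, h3, h6]
    · rintro _ ⟨x, hx, rfl⟩
      exact e1 x ▸ y3 _ (y1 x hx)

end Pool.Agent.P.MP_67c9d4_al.MX
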