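import Pool.Agent.P.MP_67c9d4_al.MX.Iface3
import Pool.Agent.P.MP_67c9d4_al.MX.Iface

/-! Step SPLT. -/

set_option autoImplicit false
set_option linter.unusedSectionVars false

namespace Pool.Agent.P.MP_67c9d4_al.MX

open Equiv Wr Multiplicative FC FR

theorem p_SPLT (hG2 : S_G2) (hG1 : S_G1) (hTHK : S_THK) :
    S_SPLT := by
  intro T _ Γ A S S' p y₁ y₂ hA hd h1 h2 c hy
  obtain ⟨r, hr⟩ := sh_exists p
  obtain ⟨Y, hY, hY'⟩ := hTHK T Γ A hA r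
  have mem : ∀ i : ℕ, p * y₂ ^ i ∈ Y := fun i => by
    obtain ⟨L₁, g1, e1⟩ := (hG2 T Γ).1 (y₁ ^ i)
    obtain ⟨L₂, g2, e2⟩ := (hG2 T Γ).1 (y₂ ^ i)
    have m1 := (hG2 T Γ).2.1 S L₁ g1 (e1 ▸ pow_mem h1 i)
    have m2 := (hG2 T Γ).2.1 S' L₂ g2 (e2 ▸ pow_mem h2 i)
    have red : Red Γ (L₂ ++ L₁) := by
      intro A x B C e
      rcases List.append_eq_append_iff.1 e with ⟨D, -, e'⟩ | ⟨D, e', e''⟩
      · exact (hG2 T Γ).2.2.1 L₁ g1 D x B C e'
      · obtain _ | ⟨a, D⟩ := D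
        · exact (hG2 T Γ).2.2.1 L₁ g1 [] x B C e''.symm
        · obtain ⟨rfl, e3⟩ := List.cons.inj e''
          have hx : x.1 ∈ S' := m2 x (by simp [e'])
          rcases List.append_eq_append_iff.1 e3 with ⟨F, f1, f2⟩ | ⟨F, f1, f2⟩
          · obtain _ | ⟨b, F⟩ := F
            · exact (Set.disjoint_left.1 hd (m1 (x.1, !x.2)
                ((show _ = L₁ from f2) ▸ List.mem_cons_self)) hx).elim
            · obtain ⟨rfl, -⟩ := List.cons.inj f2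
              exact (hG2 T Γ).2.2.1 L₂ g2 A x B F (by rw [e', f1])
          · exact (Set.disjoint_left.1 hd (m1 (x.1, !x.2) (by simp [f2])) hx).elim
    refine e2 ▸ hY.cvx p L₂ L₁ ((hG1 T Γ).1 _ red).1 (hY' p hr) ?_
    have := hY.inv _ (pow_mem hy i) p (hY' p hr)
    rwa [conj_pow, inv_mul_cancel_right, c.eq, c.symm.mul_pow, ← e1, ← e2, ← wd_append] at this
  obtain ⟨F, hF, hFY⟩ := hY.fin
  choose α hα z hz e using fun i => hFY _ (mem i)
  obtain ⟨i, j, ij, zz⟩ := Set.Finite.exists_lt_map_eq_of_forall_mem hz hF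
  refine ⟨j - i, by omega, ?_⟩
  have e1 : p * y₂ ^ (j - i) * p⁻¹ = p * y₂ ^ j * (p * y₂ ^ i)⁻¹ := by
    rw [pow_sub _ ij.le]; group
  rw [e1, e i, e j, zz]
  simpa [mul_assoc] using mul_mem (hα j) (inv_mem (hα i))

end Pool.Agent.P.MP_67c9d4_al.MX
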