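import Pool.Agent.P.MP_67c9d4_al.MX.All
import Pool.Agent.P.MP_67c9d4_al.MX.TMINP
import Pool.Agent.P.MP_67c9d4_al.MX.TPARI
import Pool.Agent.P.MP_67c9d4_al.MX.TPARL
import Pool.Agent.P.MP_67c9d4_al.MX.TNORM
import Pool.Agent.P.MP_67c9d4_al.MX.TSPLT
import Pool.Agent.P.MP_67c9d4_al.MX.TACY1
import Pool.Agent.P.MP_67c9d4_al.MX.TNP3
import Pool.Agent.P.MP_67c9d4_al.MX.TCORE1c
import Pool.Agent.P.MP_67c9d4_al.MX.TCOREc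
import Pool.Agent.P.MP_67c9d4_al.MX.TCO3
import Pool.Agent.P.MP_67c9d4_al.MX.TBPF3
import Pool.Agent.P.MP_67c9d4_al.MX.TBPIN3
import Pool.Agent.P.MP_67c9d4_al.MX.TBADT
import Pool.Agent.P.MP_67c9d4_al.MX.TFPG3
import Pool.Agent.P.MP_67c9d4_al.MX.TINF3
import Pool.Agent.P.MP_67c9d4_al.MX.TREORD3
import Pool.Agent.P.MP_67c9d4_al.MX.TADDG3
import Pool.Agent.P.MP_67c9d4_al.MX.TADDV3
import Pool.Agent.P.MP_67c9d4_al.MX.TADDC3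
import Pool.Agent.P.MP_67c9d4_al.MX.TADDF3
import Pool.Agent.P.MP_67c9d4_al.MX.TDBL13
import Pool.Agent.P.MP_67c9d4_al.MX.TDBL3
import Pool.Agent.P.MP_67c9d4_al.MX.TQF3
import Pool.Agent.P.MP_67c9d4_al.MX.TQH3
import Pool.Agent.P.MP_67c9d4_al.MX.TQC3
import Pool.Agent.P.MP_67c9d4_al.MX.TQR3
import Pool.Agent.P.MP_67c9d4_al.MX.TQB3
import Pool.Agent.P.MP_67c9d4_al.MX.TQALL3
import Pool.Agent.P.MP_67c9d4_al.MX.TNF13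
import Pool.Agent.P.MP_67c9d4_al.MX.TNF3
import Pool.Agent.P.MP_67c9d4_al.MX.TMAIN4

/-! All steps for arbitrary compact special pieces put together. -/

set_option autoImplicit false

namespace Pool.Agent.P.MP_67c9d4_al.MX

theorem m_MINP : S_MINP := p_MINP FR.a_G2 m_GATE m_PSC m_RECT
theorem m_PARI : S_PARI := p_PARI FR.a_G2 m_MINP
theorem m_PARL : S_PARL := p_PARL
theorem m_NORM : S_NORM := p_NORM FR.a_G2 m_MINP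
theorem m_SPLT : S_SPLT := p_SPLT FR.a_G2 FR.a_G1 m_THK
theorem m_ACY1 : S_ACY1 := p_ACY1 m_PSC m_PARI m_PARL m_NORM m_SPLT FC.t_LINJ
theorem m_NP3 : S_NP3 := p_NP3
theorem m_CORE1c : S_CORE1c := p_CORE1c m_NP3 FC.t_EMB FC.t_PAR
theorem m_COREc : S_COREc := p_COREc FC.t_AXIS m_CORE1c m_CORE2b
theorem m_CO3 : S_CO3 := p_CO3 m_DA m_NEL m_ACY1 m_APX3 m_COREc
theorem m_BPF3 : S_BPF3 := p_BPF3 m_CF m_CSC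
theorem m_BPIN3 : S_BPIN3 := p_BPIN3 m_CF m_CO3 m_IND FC.t_HO1 FC.t_HOJ
theorem m_BADT : S_BADT := p_BADT
theorem m_FPG3 : S_FPG3 := p_FPG3 m_FVP m_FMAL m_FCO m_FO1 m_FOJ FC.t_RFV FC.t_HO1 FC.t_HOJ
theorem m_INF3 : S_INF3 := p_INF3 m_FPG3
theorem m_REORD3 : S_REORD3 := p_REORD3 FC.t_HEX
theorem m_ADDG3 : S_ADDG3 := p_ADDG3 m_COPH FC.t_HEX
theorem m_ADDV3 : S_ADDV3 := p_ADDV3 m_ADDG3
theorem m_ADDC3 : S_ADDC3 := p_ADDC3 m_ADDG3 m_INF3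
theorem m_ADDF3 : S_ADDF3 := p_ADDF3 m_ADDV3
theorem m_DBL13 : S_DBL13 := p_DBL13 m_ADDV3 FC.t_HEX
theorem m_DBL3 : S_DBL3 := p_DBL3 m_DBL13
theorem m_QF3 : S_QF3 := p_QF3 m_ADDF3
theorem m_QH3 : S_QH3 := p_QH3 m_DBL3 FC.t_ORB
theorem m_QC3 : S_QC3 := p_QC3
theorem m_QR3 : S_QR3 := p_QR3
theorem m_QB3 : S_QB3 := p_QB3 m_INF3 m_ADDC3 m_ADDF3
theorem m_QALL3 : S_QALL3 := p_QALL3 m_QF3 m_QH3 m_QC3 m_QR3 m_QB3 m_BPF3 m_BPIN3 m_BADT FC.t_HNM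
theorem m_NF13 : S_NF13 :=
  p_NF13 FC.t_BGOOD FC.t_STEP FC.t_HDI FC.t_HINJ m_REORD3 FC.t_MOVE FC.t_HEX m_FPG3 m_COPH
theorem m_NF3 : S_NF3 := p_NF3 m_NF13 FC.t_B0
theorem m_MAIN4 : S_MAIN4 := p_MAIN4 m_QALL3 m_VIS3 m_NF3

end Pool.Agent.P.MP_67c9d4_al.MX
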