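import Pool.Agent.P.MP_67c9d4_al.SP.Defs

/-! Cyclic hierarchies whose pieces are free or virtually compact special. -/

namespace Pool.Agent.P.MP_67c9d4_al

/-- Fundamental groups of special complexes with finitely many edges. -/
def CompactSpecial (K : Type) [Group K] : Prop :=
  ∃ (X : SqCx) (v : X.V), Finite X.D ∧ X.Special ∧ X.IsPi1 v K

/-- `Hier2 G χ`: the group `G` is built from finite rank free groups and from virtually compact
special groups without a free abelian subgroup of rank two by finitely many HNN extensions and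
amalgamated products over cyclic subgroups on which `χ` is nontrivial. -/
inductive Hier2 : ∀ (G : Type) [Group G], (G →* Multiplicative ℤ) → Prop
  | free (V : Type) [Finite V] (χ : FreeGroup V →* Multiplicative ℤ) : Hier2 (FreeGroup V) χ
  | base {G : Type} [Group G] (χ : G →* Multiplicative ℤ) : Virtually CompactSpecial G →
      (∀ f : Multiplicative (ℤ × ℤ) →* G, ¬Function.Injective f) → Hier2 G χ
  | hnn {G : Type} [Group G] {A B : Subgroup G} (φ : A ≃* B) (a : G)
      (χ : HNNExtension G A B φ →* Multiplicative ℤ) : A = Subgroup.zpowers a →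
      χ (HNNExtension.of a) ≠ 1 → Hier2 G (χ.comp HNNExtension.of) →
      Hier2 (HNNExtension G A B φ) χ
  | amal {G : Bool → Type} [∀ i, Group (G i)] (φ : ∀ i, Multiplicative ℤ →* G i)
      (χ : Monoid.PushoutI φ →* Multiplicative ℤ) :
      χ (Monoid.PushoutI.base φ (Multiplicative.ofAdd 1)) ≠ 1 →
      (∀ i, Hier2 (G i) (χ.comp (Monoid.PushoutI.of i))) → Hier2 (Monoid.PushoutI φ) χ

end Pool.Agent.P.MP_67c9d4_al
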