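import Pool.Agent.P.MP_67c9d4_al.FR.Iface
import Pool.Agent.P.MP_67c9d4_al.MX.HDefs

/-! Definitions for hierarchies with compact special pieces. -/

set_option autoImplicit false

namespace Pool.Agent.P.MP_67c9d4_al.MX

open Equiv Wr Multiplicative FC FR

section groups

/-- Torsion free. -/
def TFr (G : Type) [Group G] : Prop := ∀ g : G, IsOfFinOrder g → g = 1

/-- No free abelian subgroup of rank two. -/
def NoZ2 (G : Type) [Group G] : Prop :=
  ∀ f : Multiplicative (ℤ × ℤ) →* G, ¬Function.Injective f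

variable {A C H : Type} [Group A] [Group C] [Group H]

/-- `H` is the free product of `A` and `C`. -/
structure IsCop (i : A →* H) (i' : C →* H) : Prop where
  gen : Subgroup.closure (Set.range i ∪ Set.range i') = ⊤
  up : ∀ (W : Type) [Group W] (f : A →* W) (f' : C →* W),
    ∃ F : H →* W, (∀ a, F (i a) = f a) ∧ ∀ c, F (i' c) = f' c

/-- `H` is the free product of copies of `A`. -/
structure IsCoI {O : Type} (ι : O → A →* H) : Prop where
  gen : Subgroup.closure {h | ∃ o a, h = ι o a} = ⊤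
  up : ∀ (W : Type) [Group W] (f : O → A →* W), ∃ F : H →* W, ∀ o a, F (ι o a) = f o a

/-- Conjugate into a factor. -/
def EllF (i : A →* H) (i' : C →* H) (g : H) : Prop :=
  (∃ a, IsConj (i a) g) ∨ ∃ c, IsConj (i' c) g

/-- Inert groups: all elements of height one are generic. -/
structure In (χ : C →* MZ) : Prop where
  mal : ∀ y, χ y = ofAdd 1 → Mal y
  good : Good χ (Empty.elim : Empty → C)

end groups

section raag
variable {T : Type} (Γ : SimpleGraph T)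

/-- Convex sets of vertices of the Salvetti cover. -/
def Cvx (Y : Set (RAAG Γ)) : Prop :=
  ∀ x L₁ L₂, Geo Γ (L₁ ++ L₂) → x ∈ Y → x * wd Γ (L₁ ++ L₂) ∈ Y → x * wd Γ L₁ ∈ Y

/-- `Y` is a convex set on which `A` acts with finitely many orbits. -/
structure Core (A : Subgroup (RAAG Γ)) (Y : Set (RAAG Γ)) : Prop where
  cvx : Cvx Γ Y
  inv : ∀ a ∈ A, ∀ x ∈ Y, a * x ∈ Y
  fin : ∃ F : Set (RAAG Γ), F.Finite ∧ ∀ x ∈ Y, ∃ a ∈ A, ∃ u ∈ F, x = a * u

/-- Convex cocompact subgroups. -/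
def CoC (A : Subgroup (RAAG Γ)) : Prop := ∃ Y : Set (RAAG Γ), Y.Nonempty ∧ Core Γ A Y

/-- Every wall that separates `x` from all of `Y` is close to `Y`. -/
def Near (Y : Set (RAAG Γ)) (r : ℕ) : Set (RAAG Γ) :=
  {x | ∀ W, (∀ c ∈ Y, W ∈ Sp Γ c x) → ∃ c ∈ Y, ∃ v, Sh Γ r v ∧ W ∈ Sp Γ c (c * v)}

end raag

/-- Base pieces. -/
def BP (G : Type) [Group G] : Prop :=
  TFr G ∧ NoZ2 G ∧ ∃ (L : Subgroup G) (_ : L.FiniteIndex) (T : Type) (_ : Finite T)
    (Γ : SimpleGraph T) (f : L →* RAAG Γ), Function.Injective f ∧ CoC Γ f.range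

section tree
variable {C H V E : Type} [Group C] [Group H] (D : TD H V E) (f : C →* H)

/-- Approximate solutions in `C` of finitely many edge conditions are close to solutions. -/
def Apx : Prop := ∀ (ι : Type) [Finite ι] (e : ι → (E × Bool) × H) (q : ι → H) (K : Subgroup C),
  FN K → ∃ N : Subgroup H, FN N ∧ ∀ g : C, (∀ i, (e i).2⁻¹ * f g * q i ∈ D.P (e i).1 ⊔ N) →
    ∃ g' : C, (∀ i, (e i).2⁻¹ * f g' * q i ∈ D.P (e i).1) ∧ g'⁻¹ * g ∈ K

/-- Only the identity of `C` fixes a long segment of the axis of an element of `C`. -/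
def Acy : Prop := ∀ (y : C) (c : ℤ → (E × Bool) × H) (l : ℕ), D.Ax (f y) c l →
  ∃ L : ℕ, ∀ k : C, (∀ j : ℕ, j < L → f k ∈ D.St (c j)) → k = 1

/-- Circles through points of the orbit of `C` whose labels lie on the circle of `u j₀` through
the base point are parallel to it. -/
def Par2 {J : Type} (N : Subgroup H) (H₀ : Subgroup C) (u : J → C)
    (c : J → ℤ → (E × Bool) × H) (j₀ : J) : Prop :=
  ∀ j (a : C), (∀ i, ∃ i', (D.lab (qa N) (c j i) (f a : H ⧸ N)).1 =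
      (D.lab (qa N) (c j₀ i') ((1 : H) : H ⧸ N)).1) →
    j = j₀ ∧ a ∈ Subgroup.zpowers (u j₀) ⊔ H₀ ∧ ∃ d, ∀ i,
      D.lab (qa N) (c j₀ i) ((1 : H) : H ⧸ N) = D.lab (qa N) (c j₀ (i + d)) (f a : H ⧸ N)

end tree

/-- A free product of groups with characters. -/
def CopM {A C B : MG} (k : A.H →* B.H) (k' : C.H →* B.H) : Prop :=
  IsCop k k' ∧ (∀ a, B.χ (k a) = A.χ a) ∧ ∀ c, B.χ (k' c) = C.χ c

/-- Towers over the free product of an inert group and a free group; the elements of `S` are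
among the free letters. -/
def TwS (H : MG) (S : Set H.H) : Prop :=
  ∃ (V : Type) (_ : Finite V) (C B : MG) (k : C.H →* B.H) (τ : V → B.H) (j : B.H →* H.H) (n : ℕ),
    In C.χ ∧ IsFr k τ ∧ (∀ c, B.χ (k c) = C.χ c) ∧ (∀ v, B.χ (τ v) = ofAdd 1) ∧
    PTow B (Set.range τ) H j n ∧ ∀ a ∈ S, ∃ v, j (τ v) = a

/-- Towers over the free product of an inert group and a free group. -/
def Tw2 (H : MG) : Prop := TwS H ∅

/-- The cyclic cover of degree `M` is a free factor of a tower over any given tower. -/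
def QM2 (M : ℕ) {G : Type} [Group G] (χ : G →* MZ) : Prop :=
  ∀ C, Tw2 C → ∃ H, Tw2 H ∧ ∃ (i : C.H →* H.H) (U : G →* Wr (ZMod M) H.H) (Ω : Type)
    (x : Ω → H.H), IsCv M χ C H i U x

section cop
variable {A C H W : Type} [Group A] [Group C] [Group H] [Group W] {i : A →* H} {i' : C →* H}

lemma IsCop.symm (h : IsCop i i') : IsCop i' i :=
  ⟨by rw [Set.union_comm]; exact h.gen, fun W _ f f' =>
    let ⟨F, h1, h2⟩ := h.up W f' f; ⟨F, h2, h1⟩⟩

lemma IsCop.ext (h : IsCop i i') {F F' : H →* W} (h1 : ∀ a, F (i a) = F' (i a))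
    (h2 : ∀ c, F (i' c) = F' (i' c)) : F = F' := by
  refine MonoidHom.eq_of_eqOn_dense h.gen ?_
  rintro _ (⟨a, rfl⟩ | ⟨c, rfl⟩)
  exacts [h1 a, h2 c]

lemma IsCop.retr (h : IsCop i i') : ∃ r : H →* A, (∀ a, r (i a) = a) ∧ ∀ c, r (i' c) = 1 :=
  h.up A (MonoidHom.id A) 1

lemma IsCop.inj (h : IsCop i i') : Function.Injective i :=
  let ⟨_, h1, _⟩ := h.retr; Function.LeftInverse.injective h1

lemma IsCop.conj (h : IsCop i i') {a a' : A} (c : IsConj (i a) (i a')) : IsConj a a' := by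
  obtain ⟨r, h1, -⟩ := h.retr
  have := r.map_isConj c
  rwa [h1, h1] at this

lemma IsCop.conj_one (h : IsCop i i') {a : A} {c : C} (e : IsConj (i a) (i' c)) : a = 1 := by
  obtain ⟨r, h1, h2⟩ := h.retr
  have := r.map_isConj e
  rwa [h1, h2, isConj_one_left] at this

lemma isCop_coprod (A C : Type) [Group A] [Group C] :
    IsCop (Monoid.Coprod.inl : A →* Monoid.Coprod A C) Monoid.Coprod.inr := by
  refine ⟨eq_top_iff.2 fun x _ => ?_, fun W _ f f' => ⟨Monoid.Coprod.lift f f',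
    fun a => Monoid.Coprod.lift_apply_inl .., fun c => Monoid.Coprod.lift_apply_inr ..⟩⟩
  induction x using Monoid.Coprod.induction_on with
  | inl m => exact Subgroup.subset_closure (Or.inl ⟨m, rfl⟩)
  | inr m => exact Subgroup.subset_closure (Or.inr ⟨m, rfl⟩)
  | mul x y hx hy => exact mul_mem (hx trivial) (hy trivial)

/-- Free products of groups with characters exist. -/
lemma exists_cop (A C : MG) : ∃ (B : MG) (k : A.H →* B.H) (k' : C.H →* B.H), CopM k k' :=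
  ⟨⟨Monoid.Coprod A.H C.H, Monoid.Coprod.lift A.χ C.χ⟩, _, _, isCop_coprod _ _,
    fun _ => Monoid.Coprod.lift_apply_inl .., fun _ => Monoid.Coprod.lift_apply_inr ..⟩

lemma EllF.symm {g : H} (h : EllF i i' g) : EllF i' i g := Or.symm h

lemma EllF.left (i : A →* H) (i' : C →* H) (a : A) : EllF i i' (i a) := Or.inl ⟨a, IsConj.refl _⟩

lemma EllF.right (i : A →* H) (i' : C →* H) (c : C) : EllF i i' (i' c) :=
  Or.inr ⟨c, IsConj.refl _⟩

lemma EllF.conj {g g' : H} (h : EllF i i' g) (c : IsConj g g') : EllF i i' g' :=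
  h.imp (fun ⟨a, e⟩ => ⟨a, e.trans c⟩) fun ⟨a, e⟩ => ⟨a, e.trans c⟩

lemma TFr.comap (h : TFr H) (hi : Function.Injective i) : TFr A := fun _ hg =>
  hi ((h _ (i.isOfFinOrder hg)).trans (map_one i).symm)

lemma NoZ2.comap (h : NoZ2 H) (hi : Function.Injective i) : NoZ2 A := fun f hf =>
  h (i.comp f) (hi.comp hf)

lemma TFr.zpow (h : TFr H) {g : H} {n : ℤ} (hn : n ≠ 0) (e : g ^ n = 1) : g = 1 :=
  h g (isOfFinOrder_iff_zpow_eq_one.2 ⟨n, hn, e⟩)

lemma NoZ2.comm (h : NoZ2 H) {a b : H} (c : Commute a b) :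
    ∃ m n : ℤ, (m ≠ 0 ∨ n ≠ 0) ∧ a ^ m * b ^ n = 1 := by
  let f : Multiplicative (ℤ × ℤ) →* H := MonoidHom.mk'
    (fun q => a ^ q.toAdd.1 * b ^ q.toAdd.2) fun q q' => by
      simp only [toAdd_mul, Prod.fst_add, Prod.snd_add, zpow_add]
      exact (c.zpow_zpow q'.toAdd.1 q.toAdd.2).mul_mul_mul_comm _ _
  have := h f
  rw [injective_iff_map_eq_one] at this
  push Not at this
  obtain ⟨q, h1, h2⟩ := this
  refine ⟨q.toAdd.1, q.toAdd.2, ?_, h1⟩
  by_contra h3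
  push Not at h3
  exact h2 (toAdd_eq_zero.1 (Prod.ext h3.1 h3.2))

/-- Dividing a character. -/
lemma exists_div (χ : H →* MZ) (M : ℕ) (K : Subgroup H)
    (h : ∀ k ∈ K, (M : ℤ) ∣ (χ k).toAdd) :
    ∃ χ' : K →* MZ, ∀ k : K, (χ k).toAdd = M * (χ' k).toAdd := by
  refine ⟨MonoidHom.mk' (fun k => ofAdd ((χ k).toAdd / M)) fun a b => ?_, fun k => ?_⟩
  · rw [Subgroup.coe_mul, map_mul, toAdd_mul, Int.add_ediv_of_dvd_left (h a a.2), ofAdd_add]
  · exact (Int.mul_ediv_cancel' (h k k.2)).symm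

lemma in_of_subsingleton [Subsingleton H] (χ : H →* MZ) : In χ := by
  have h : ∀ y, χ y ≠ ofAdd 1 := fun y e => by
    rw [Subsingleton.elim y 1, map_one] at e
    simpa using congrArg toAdd e
  exact ⟨fun y e => absurd e (h y), fun v => v.elim, fun y e => absurd e.1 (h y), fun v => v.elim,
    fun y e => absurd e.1 (h y), ⟨⊤, inferInstance, Empty, inferInstance, ⊥, 1, ∅, fun g =>
      iff_of_true (one_mem _) (Subsingleton.elim _ _)⟩, fun v => v.elim⟩

lemma In.gen {χ : H →* MZ} (h : In χ) {y : H} (hy : χ y = ofAdd 1) :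
    Gen χ (Empty.elim : Empty → H) y := ⟨hy, h.mal y hy, fun v => v.elim⟩

end cop

lemma TwS.mono {H : MG} {S S' : Set H.H} (h : TwS H S) (le : S' ⊆ S) : TwS H S' :=
  let ⟨V, hV, C, B, k, τ, j, n, h1, h2, h3, h4, h5, h6⟩ := h
  ⟨V, hV, C, B, k, τ, j, n, h1, h2, h3, h4, h5, fun a ha => h6 a (le ha)⟩

lemma TwS.tw2 {H : MG} {S : Set H.H} (h : TwS H S) : Tw2 H := h.mono (Set.empty_subset _)

lemma TwS.step {H H' : MG} {S : Set H.H} (h : TwS H S) {i : H.H →* H'.H} {a y : H.H} {s : H'.H}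
    (ha : a ∈ S) (h1 : H.χ a = ofAdd 1) (h2 : H.χ y = ofAdd 1) (h3 : IsHNN i a y s)
    (h4 : ∀ g, H'.χ (i g) = H.χ g) (h5 : H'.χ s = 1) : TwS H' (i '' S) := by
  obtain ⟨V, hV, C, B, k, τ, j, n, e1, e2, e3, e4, e5, e6⟩ := h
  obtain ⟨v, hv⟩ := e6 a ha
  refine ⟨V, hV, C, B, k, τ, i.comp j, n + 1, e1, e2, e3, e4,
    PTow.step i a y s e5 ⟨τ v, ⟨v, rfl⟩, hv ▸ IsConj.refl _⟩ h1 h2 h3 h4 h5, ?_⟩
  rintro _ ⟨b, hb, rfl⟩
  obtain ⟨w, rfl⟩ := e6 b hb
  exact ⟨w, rfl⟩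

end Pool.Agent.P.MP_67c9d4_al.MX
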