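import Pool.Agent.P.MP_67c9d4_al.MX.HDefs

/-! Cyclic hierarchies whose pieces are free or virtually compact special, with marked subsets. -/

namespace Pool.Agent.P.MP_67c9d4_al

/-- `Hier3 G χ E Z`: the group `G` is built from finite rank free groups and from virtually
compact special groups by finitely many HNN extensions and amalgamated products over cyclic
subgroups on which `χ` is nontrivial; `E` is the union of the edge groups and `Z` is the union
of the free abelian subgroups of rank two of the virtually compact special pieces. -/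
inductive Hier3 : ∀ (G : Type) [Group G], (G →* Multiplicative ℤ) → Set G → Set G → Prop
  | free (V : Type) [Finite V] (χ : FreeGroup V →* Multiplicative ℤ) : Hier3 (FreeGroup V) χ ∅ ∅
  | base {G : Type} [Group G] (χ : G →* Multiplicative ℤ) : Virtually CompactSpecial G →
      Hier3 G χ ∅ {g | ∃ f : Multiplicative (ℤ × ℤ) →* G, Function.Injective f ∧ g ∈ f.range}
  | hnn {G : Type} [Group G] {A B : Subgroup G} (φ : A ≃* B) (a : G)
      (χ : HNNExtension G A B φ →* Multiplicative ℤ) (E Z : Set G) : A = Subgroup.zpowers a →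
      χ (HNNExtension.of a) ≠ 1 → Hier3 G (χ.comp HNNExtension.of) E Z →
      Hier3 (HNNExtension G A B φ) χ (HNNExtension.of '' (E ∪ A)) (HNNExtension.of '' Z)
  | amal {G : Bool → Type} [∀ i, Group (G i)] (φ : ∀ i, Multiplicative ℤ →* G i)
      (χ : Monoid.PushoutI φ →* Multiplicative ℤ) (E Z : ∀ i, Set (G i)) :
      χ (Monoid.PushoutI.base φ (Multiplicative.ofAdd 1)) ≠ 1 →
      (∀ i, Hier3 (G i) (χ.comp (Monoid.PushoutI.of i)) (E i) (Z i)) →
      Hier3 (Monoid.PushoutI φ) χ
        (Set.range (Monoid.PushoutI.base φ) ∪ ⋃ i, Monoid.PushoutI.of i '' E i)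
        (⋃ i, Monoid.PushoutI.of i '' Z i)

end Pool.Agent.P.MP_67c9d4_al
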