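import Pool.Agent.P.MP_67c9d4_al.MX.Iface
import Pool.Agent.P.MP_67c9d4_al.MX.HDefs3

/-! Definitions for hierarchies with arbitrary compact special pieces. -/

set_option autoImplicit false

namespace Pool.Agent.P.MP_67c9d4_al.MX

open Equiv Wr Multiplicative FC FR

section groups
variable {G H H' X : Type} [Group G] [Group H] [Group H']

/-- Good groups without marked elements. -/
abbrev Gd (χ : H →* MZ) : Prop := Good χ (Empty.elim : Empty → H)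

/-- Elements of height one with a large centraliser. -/
def Bad (χ : H →* MZ) : Set H := {c | χ c = ofAdd 1 ∧ ¬Mal c}

/-- The conjugates of the elements of a set. -/
def cc (Y : Set H) : Set H := {h | ∃ y ∈ Y, IsConj y h}

/-- The roots of the elements of a set. -/
def Rt (Z : Set H) : Set H := {g | ∃ n : ℤ, n ≠ 0 ∧ g ^ n ∈ Z}

/-- The closed lifts of the elements of a set. -/
def Lf (U : G →* Wr X H) (E : Set G) : Set H :=
  {h | ∃ e ∈ E, ∃ ξ, (U e).p ξ = ξ ∧ h = (U e).c ξ}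

lemma sub_cc (Y : Set H) : Y ⊆ cc Y := fun y hy => ⟨y, hy, IsConj.refl y⟩

lemma cc_sub {Y Y' : Set H} (h : Y ⊆ cc Y') : cc Y ⊆ cc Y' := fun _ ⟨_, hy, c⟩ =>
  let ⟨y', hy', c'⟩ := h hy; ⟨y', hy', c'.trans c⟩

lemma cc_mono {Y Y' : Set H} (h : Y ⊆ Y') : cc Y ⊆ cc Y' := cc_sub (h.trans (sub_cc _))

lemma cc_conj {Y : Set H} {a b : H} (h : a ∈ cc Y) (c : IsConj a b) : b ∈ cc Y :=
  let ⟨y, hy, c'⟩ := h; ⟨y, hy, c'.trans c⟩

lemma cc_map (i : H →* H') {Y : Set H} {x : H} (h : x ∈ cc Y) : i x ∈ cc (i '' Y) :=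
  let ⟨y, hy, c⟩ := h; ⟨i y, ⟨y, hy, rfl⟩, i.map_isConj c⟩

lemma image_cc (i : H →* H') (Y : Set H) : i '' cc Y ⊆ cc (i '' Y) := by
  rintro _ ⟨x, hx, rfl⟩
  exact cc_map i hx

lemma Lf_cc (U : G →* Wr X H) {E E' : Set G} (h : E ⊆ cc E') : Lf U E ⊆ cc (Lf U E') := by
  rintro _ ⟨e, he, ξ, h1, rfl⟩
  obtain ⟨e', he', c⟩ := h he
  obtain ⟨d, rfl⟩ := isConj_iff.1 c
  rw [map_mul, map_mul, map_inv] at h1 ⊢
  have h2 : (U e').p ((U d).p⁻¹ ξ) = (U d).p⁻¹ ξ := by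
    rw [Perm.eq_inv_iff_eq]
    exact h1
  exact ⟨_, ⟨e', he', _, h2, rfl⟩, isConj_iff.2 ⟨_, (c_conj_fix _ _ h2).2.symm⟩⟩

end groups

/-- Base pieces. -/
def BP3 (G : Type) [Group G] : Prop :=
  ∃ (L : Subgroup G) (_ : L.FiniteIndex) (T : Type) (_ : Finite T)
    (Γ : SimpleGraph T) (f : L →* RAAG Γ), Function.Injective f ∧ CoC Γ f.range

/-- Only the identity of `C` fixes a long segment of the axis of `y`. -/
def Acy1 {C H V E : Type} [Group C] [Group H] (D : TD H V E) (f : C →* H) (y : C) : Prop :=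
  ∀ (c : ℤ → (E × Bool) × H) (l : ℕ), D.Ax (f y) c l →
    ∃ L : ℕ, ∀ k : C, (∀ j : ℕ, j < L → f k ∈ D.St (c j)) → k = 1

/-- Towers of HNN extensions whose attached elements lie in a given set. -/
inductive PT3 (B : MG) (S : Set B.H) : (H : MG) → (B.H →* H.H) → ℕ → Set H.H → Prop
  | base (Y : Set B.H) : PT3 B S B (MonoidHom.id _) 0 Y
  | step {H H' : MG} {j : B.H →* H.H} {n : ℕ} {Y : Set H.H} (i : H.H →* H'.H) (a y : H.H)
      (s : H'.H) (Y' : Set H'.H) : PT3 B S H j n Y → (∃ a₀ ∈ S, IsConj (j a₀) a) →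
      H.χ a = ofAdd 1 → H.χ y = ofAdd 1 → IsHNN i a y s → (∀ h, H'.χ (i h) = H.χ h) →
      H'.χ s = 1 → (∀ x ∈ Y, i x ∈ Y') → i y ∈ Y' → PT3 B S H' (i.comp j) (n + 1) Y'

lemma PT3.chi {B H : MG} {S : Set B.H} {j : B.H →* H.H} {n : ℕ} {Y : Set H.H}
    (h : PT3 B S H j n Y) (g : B.H) : H.χ (j g) = B.χ g := by
  induction h with
  | base => rfl
  | step i a y s Y' _ _ _ _ _ h _ _ _ ih => exact (h _).trans ih

lemma PT3.monoS {B H : MG} {S S' : Set B.H} {j : B.H →* H.H} {n : ℕ} {Y : Set H.H}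
    (h : PT3 B S H j n Y) (hS : ∀ a ∈ S, ∃ a' ∈ S', IsConj a a') : PT3 B S' H j n Y := by
  induction h with
  | base => exact .base _
  | @step H H' j n Y i a y s Y' _ h1 h2 h3 h4 h5 h6 h7 h8 ih =>
    obtain ⟨a₀, ha, c⟩ := h1
    obtain ⟨a', ha', c'⟩ := hS a₀ ha
    exact .step i a y s Y' ih ⟨a', ha', (j.map_isConj c').symm.trans c⟩ h2 h3 h4 h5 h6 h7 h8

lemma PT3.monoY {B H : MG} {S : Set B.H} {j : B.H →* H.H} {n : ℕ} {Y Y' : Set H.H}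
    (h : PT3 B S H j n Y) (hY : Y ⊆ Y') : PT3 B S H j n Y' := by
  cases h with
  | base => exact .base _
  | step i a y s _ h0 h1 h2 h3 h4 h5 h6 h7 h8 =>
    exact .step i a y s Y' h0 h1 h2 h3 h4 h5 h6 (fun x hx => hY (h7 x hx)) (hY h8)

/-- Towers over the free product of a good group and a free group; the elements of `S` are among
the free letters, the attached elements are conjugate into `Y`, and the bad elements of the good
group are conjugate into `Z`. -/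
def TwS3 (H : MG) (S Y Z : Set H.H) : Prop :=
  ∃ (V : Type) (_ : Finite V) (C B : MG) (k : C.H →* B.H) (τ : V → B.H) (j : B.H →* H.H) (n : ℕ),
    Gd C.χ ∧ IsFr k τ ∧ (∀ c, B.χ (k c) = C.χ c) ∧ (∀ v, B.χ (τ v) = ofAdd 1) ∧
    PT3 B (Set.range τ) H j n (cc Y) ∧ (∀ a ∈ S, ∃ v, j (τ v) = a) ∧
    ∀ c ∈ Bad C.χ, j (k c) ∈ cc Z

/-- Towers without marked letters. -/
def Tw3 (H : MG) (Y Z : Set H.H) : Prop := TwS3 H ∅ Y Z

lemma TwS3.mono {H : MG} {S S' Y Y' Z Z' : Set H.H} (h : TwS3 H S Y Z) (hS : S' ⊆ S)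
    (hY : Y ⊆ cc Y') (hZ : Z ⊆ cc Z') : TwS3 H S' Y' Z' :=
  let ⟨V, hV, C, B, k, τ, j, n, h1, h2, h3, h4, h5, h6, h7⟩ := h
  ⟨V, hV, C, B, k, τ, j, n, h1, h2, h3, h4, h5.monoY (cc_sub hY), fun a ha => h6 a (hS ha),
    fun c hc => cc_sub hZ (h7 c hc)⟩

lemma TwS3.tw3 {H : MG} {S Y Z : Set H.H} (h : TwS3 H S Y Z) : Tw3 H Y Z :=
  h.mono (Set.empty_subset _) (sub_cc _) (sub_cc _)

lemma Tw3.mono {H : MG} {Y Y' Z Z' : Set H.H} (h : Tw3 H Y Z) (hY : Y ⊆ cc Y') (hZ : Z ⊆ cc Z') :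
    Tw3 H Y' Z' := TwS3.mono h subset_rfl hY hZ

lemma TwS3.step {H H' : MG} {S Y Z : Set H.H} (h : TwS3 H S Y Z) {i : H.H →* H'.H} {a y : H.H}
    {s : H'.H} (ha : a ∈ S) (h1 : H.χ a = ofAdd 1) (h2 : H.χ y = ofAdd 1) (h3 : IsHNN i a y s)
    (h4 : ∀ g, H'.χ (i g) = H.χ g) (h5 : H'.χ s = 1) :
    TwS3 H' (i '' S) (i '' insert y Y) (i '' Z) := by
  obtain ⟨V, hV, C, B, k, τ, j, n, e1, e2, e3, e4, e5, e6, e7⟩ := h
  obtain ⟨v, hv⟩ := e6 a ha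
  refine ⟨V, hV, C, B, k, τ, i.comp j, n + 1, e1, e2, e3, e4,
    PT3.step i a y s _ e5 ⟨τ v, ⟨v, rfl⟩, hv ▸ IsConj.refl _⟩ h1 h2 h3 h4 h5
      (fun x hx => cc_map i (cc_mono (Set.subset_insert _ _) hx))
      (sub_cc _ ⟨y, Set.mem_insert _ _, rfl⟩), ?_, fun c hc => cc_map i (e7 c hc)⟩
  rintro _ ⟨b, hb, rfl⟩
  obtain ⟨w, rfl⟩ := e6 b hb
  exact ⟨w, rfl⟩

/-- The cyclic cover of degree `M` is a free factor of a tower over any given tower; the new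
attached elements are lifts of elements of `E` and the new bad elements are lifts of elements
of `Z`. -/
def QM3 (M : ℕ) {G : Type} [Group G] (χ : G →* MZ) (E Z : Set G) : Prop :=
  ∀ (C : MG) (Y₀ Z₀ : Set C.H), Tw3 C Y₀ Z₀ → ∃ (H : MG) (i : C.H →* H.H)
    (U : G →* Wr (ZMod M) H.H) (Ω : Type) (x : Ω → H.H), IsCv M χ C H i U x ∧
    Tw3 H (i '' Y₀ ∪ Lf U E) (i '' Z₀ ∪ Lf U Z)

lemma QM3.mono {M : ℕ} {G : Type} [Group G] {χ : G →* MZ} {E Z E' Z' : Set G} (h : QM3 M χ E Z)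
    (hE : E ⊆ cc E') (hZ : Z ⊆ cc Z') : QM3 M χ E' Z' := fun C Y₀ Z₀ hC =>
  let ⟨H, i, U, Ω, x, h1, h2⟩ := h C Y₀ Z₀ hC
  ⟨H, i, U, Ω, x, h1, h2.mono
    (Set.union_subset (Set.subset_union_left.trans (sub_cc _))
      ((Lf_cc U hE).trans (cc_mono Set.subset_union_right)))
    (Set.union_subset (Set.subset_union_left.trans (sub_cc _))
      ((Lf_cc U hZ).trans (cc_mono Set.subset_union_right)))⟩

/-- Elements of height one are generic, conjugate into a vertex group of the base, or bad. -/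
def Dich3 {B C H V A K : Type} [Group B] [Group C] [Group H] {χ : B →* MZ} (b : BS χ V A K)
    (χC : C →* MZ) (j : B →* H) (j' : C →* H) (χ' : H →* MZ) : Prop :=
  ∀ y, χ' y = ofAdd 1 → Gen χ' (fun v => j (b.t v)) y ∨
    (∃ v, ∃ w ∈ b.At v, IsConj (j (b.ℓ w * b.t v)) y) ∨ ∃ c ∈ Bad χC, IsConj (j' c) y

end Pool.Agent.P.MP_67c9d4_al.MX
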