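import Pool.Agent.P.MP_67c9d4_al.MX.Iface

/-! Step ADDC. -/

set_option autoImplicit false
set_option linter.unusedSectionVars false

namespace Pool.Agent.P.MP_67c9d4_al.MX

open Equiv Wr Multiplicative FC FR

theorem p_ADDC (hADDG : S_ADDG) (hINF : S_INF) :
    S_ADDC := by
  rintro C C' ⟨V, hV, C₀, B, k, τ, j, n, e1, e2, e3, e4, e5, -⟩ hC'
  obtain ⟨B', k₁, k₂, hB⟩ := exists_cop B C'
  obtain ⟨H', i, i', j', h1, h2, -, -⟩ := hADDG B C' B' _ k₁ k₂ hB C j n e5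
  obtain ⟨D, m₁, m₂, hD⟩ := exists_cop C₀ C'
  obtain ⟨k', a1, a2⟩ := hD.1.up B'.H (k₁.comp k) k₂
  refine ⟨H', ⟨V, hV, D, B', k', k₁ ∘ τ, j', n, hINF.1 _ _ _ _ _ hD e1 hC', ⟨?_, ?_⟩, ?_,
    fun v => (hB.2.1 _).trans (e4 v), by rwa [Set.range_comp], fun _ h => h.elim⟩, i, i', h1⟩
  · set K := Subgroup.closure (Set.range k' ∪ Set.range (k₁ ∘ τ))
    have b : K.comap k₁ = ⊤ := by
      rw [eq_top_iff, ← e2.gen, Subgroup.closure_le]
      rintro _ (⟨a, rfl⟩ | ⟨v, rfl⟩)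
      · exact Subgroup.subset_closure (Or.inl ⟨m₁ a, a1 a⟩)
      · exact Subgroup.subset_closure (Or.inr ⟨v, rfl⟩)
    rw [eq_top_iff, ← hB.1.gen, Subgroup.closure_le]
    rintro _ (⟨a, rfl⟩ | ⟨c, rfl⟩)
    · exact Subgroup.mem_comap.1 (b ▸ Subgroup.mem_top a)
    · exact Subgroup.subset_closure (Or.inl ⟨m₂ c, a2 c⟩)
  · intro W _ f y
    obtain ⟨F₀, b1, b2⟩ := e2.up W (f.comp m₁) y
    obtain ⟨F, c1, c2⟩ := hB.1.up W F₀ (f.comp m₂)
    have := hD.1.ext (F := F.comp k') (F' := f)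
      (fun a => by rw [MonoidHom.comp_apply, a1, MonoidHom.comp_apply, c1, b1]; rfl)
      fun c => by rw [MonoidHom.comp_apply, a2, c2]; rfl
    exact ⟨F, fun c => DFunLike.congr_fun this c, fun v => (c1 _).trans (b2 v)⟩
  · have := hD.1.ext (F := B'.χ.comp k') (F' := D.χ)
      (fun a => by rw [MonoidHom.comp_apply, a1, MonoidHom.comp_apply, hB.2.1, e3, hD.2.1])
      fun c => by rw [MonoidHom.comp_apply, a2, hB.2.2, hD.2.2]
    exact fun c => DFunLike.congr_fun this c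

end Pool.Agent.P.MP_67c9d4_al.MX
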