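import Pool.Agent.P.MP_67c9d4_al.MX.Iface
import Pool.Agent.P.MP_67c9d4_al.FC.CORE1

/-! Step CORE1b. -/

set_option autoImplicit false
set_option linter.unusedSectionVars false

namespace Pool.Agent.P.MP_67c9d4_al.MX

open Equiv Wr Multiplicative FC FR

open TD CORE1x in
theorem p_CORE1b (hNP2 : S_NP2) (hEMB : S_EMB) (hPAR : S_PAR) :
    S_CORE1b := by
  intro C H V E J _ _ _ D f χ u c l j₀ hT hS hX hY hA hχ hM hc H₀ h₀
  choose N₁ a1 a2 using fun j => hNP2 C H V E D f hX hY _ _ _ _ _ _ (hA j₀) (hA j) H₀ h₀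
  choose N₂ b1 b2 using fun j => hNP2 C H V E D f hX hY _ (u j)⁻¹ _ _ _ _ (hA j₀)
    (by rw [map_inv]; exact (hA j).rev) H₀ h₀
  obtain ⟨N, hN, hle, hE⟩ := hEMB H V E J D hT hS (fun j => f (u j)) c l hA _
    ((FN.iInf a1).inf (FN.iInf b1))
  refine ⟨N, hN, hE, fun j a h => ?_⟩
  have hp := (hA j₀).pos
  rcases hPAR H V E D N hN.1 _ _ _ (hA j₀) (hE j₀) (fun i => act (f a)⁻¹ (c j i))
    (fun i => ⟨(lk_act _).2 ((hA j).lk i), by rw [rev_act, same_act]; exact (hE j).1 i⟩)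
    (fun i => (h i).imp fun i' hi => by
      simpa only [inv_one, act_one] using (lab_fst_eq hN.1 _ _).1 hi) with ⟨d, hd⟩ | ⟨d, hd⟩
  · obtain ⟨g, h1, h2⟩ := a2 j a⁻¹ d fun i => by
      rw [map_inv]
      exact (hd i).mono (hle.trans (inf_le_left.trans (iInf_le _ j)))
    have h3 := congrArg χ h1
    rw [chi_conj, chi_pow (hχ j), chi_pow (hχ j₀), ofAdd.injective.eq_iff, Nat.cast_inj] at h3
    have h0 : (l j₀ : ℤ) ≠ 0 := by omega
    rw [← h3, ← conj_pow] at h1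
    have h4 : g * u j * g⁻¹ = u j₀ := hM.eq (hχ j₀) ((chi_conj χ _ _).trans (hχ j)) h0 (by
      rw [zpow_natCast, ← h1]
      exact Commute.self_pow _ _)
    obtain rfl := hc j (isConj_iff.2 ⟨g, h4⟩).symm
    have h5 := hM g 1 one_ne_zero (by
      rw [zpow_one]
      exact mul_inv_eq_iff_eq_mul.1 h4)
    refine ⟨rfl, ?_, d, fun i => (lab_eq hN.1 _ _).2 (by simpa only [inv_one, act_one] using hd i)⟩
    have h6 := inv_mem (mul_mem (Subgroup.mem_sup_left h5 : g ∈ _ ⊔ H₀) (Subgroup.mem_sup_right h2))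
    rwa [mul_inv_cancel_left, inv_inv] at h6
  · obtain ⟨g, h1, -⟩ := b2 j a⁻¹ d fun i => by
      rw [← rev_act, map_inv]
      exact (hd i).mono (hle.trans (inf_le_right.trans (iInf_le _ j)))
    have h3 := congrArg χ h1
    rw [chi_conj, inv_pow, map_inv, chi_pow (hχ j), chi_pow (hχ j₀), ← ofAdd_neg,
      ofAdd.injective.eq_iff] at h3
    omega

end Pool.Agent.P.MP_67c9d4_al.MX
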