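import Pool.Agent.P.MP_67c9d4_al.MX.Iface

/-! Step DCS2. -/

set_option autoImplicit false
set_option linter.unusedSectionVars false

namespace Pool.Agent.P.MP_67c9d4_al.MX

open Equiv Wr Multiplicative FC FR

section
variable {T : Type} {Γ : SimpleGraph T} {A : Subgroup (RAAG Γ)} {Y : Set (RAAG Γ)}

lemma DCS2_pt (hY : Core Γ A Y) {x w : RAAG Γ} (h : x ∈ Y) (e : FR.pt A w = FR.pt A x) : w ∈ Y := by
  simpa using hY.inv _ (FR.pt_eq.1 e) x h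

lemma DCS2_red {a b : T × Bool} (hab : Γ.Adj a.1 b.1) : Red Γ ([b] ++ [(a.1, !a.2)]) := by
  intro L₁ x L₂ L₃ e
  have hl := congrArg List.length e
  simp only [List.length_append, List.length_cons, List.length_nil] at hl
  obtain rfl : L₁ = [] := List.eq_nil_of_length_eq_zero (by omega)
  obtain rfl : L₂ = [] := List.eq_nil_of_length_eq_zero (by omega)
  simp only [List.nil_append, List.cons_append, List.cons.injEq, Prod.mk.injEq] at e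
  exact (hab.ne (by rw [e.2.1.1, e.1])).elim

lemma DCS2_sq (hG1 : S_G1) (hY : Core Γ A Y) {w : RAAG Γ} {a b : T × Bool} (hab : Γ.Adj a.1 b.1)
    (h1 : w * wd Γ [a] ∈ Y) (h2 : w * wd Γ [b] ∈ Y) : w * wd Γ [a] * wd Γ [b] ∈ Y := by
  refine hY.cvx _ [b] [(a.1, !a.2)] ((hG1 T Γ).1 _ (DCS2_red hab)).1 h1 ?_
  rw [wd_append, wd_not, ← mul_assoc, mul_assoc w, (wd_comm hab).eq, ← mul_assoc,
    mul_inv_cancel_right]
  exact h2

variable (A Y)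

/-- The cosets of the elements of the core. -/
def DCS2_Y : Type := {y : RAAG Γ ⧸ A // ∃ x, x ∈ Y ∧ FR.pt A x = y}

/-- The moves between them. -/
def DCS2_Mv (x : T × Bool) (y y' : DCS2_Y A Y) : Prop := (qa A (wd Γ [x]))⁻¹ y.1 = y'.1

variable {A Y}

lemma DCS2_cx (hG1 : S_G1) (hY : Core Γ A Y) : Cx Γ (DCS2_Mv A Y) where
  det := fun _ _ _ _ h1 h2 => Subtype.ext (h1.symm.trans h2)
  inv := fun x y y' h => by
    rw [DCS2_Mv] at h ⊢
    rw [wd_not, map_inv, inv_inv, ← h]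
    simp
  sq := fun a b y y₁ y₂ hab h1 h2 => by
    obtain ⟨w, -, e⟩ := y.2
    obtain ⟨w₁, n1, e1⟩ := y₁.2
    obtain ⟨w₂, n2, e2⟩ := y₂.2
    rw [DCS2_Mv, ← e, qa_pt] at h1 h2
    refine ⟨⟨_, _, DCS2_sq hG1 hY hab (DCS2_pt hY n1 (h1.trans e1.symm))
      (DCS2_pt hY n2 (h2.trans e2.symm)), rfl⟩, ?_, ?_⟩
    · exact (congrArg _ h1.symm).trans (qa_pt _ _ _)
    · refine (congrArg _ h2.symm).trans ((qa_pt _ _ _).trans ?_)
      rw [mul_assoc, ← (wd_comm hab).eq, ← mul_assoc]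

lemma DCS2_walk (L : List (T × Bool)) : ∀ (w : RAAG Γ) (y y' : DCS2_Y A Y),
    (∀ L₁ L₂, L = L₁ ++ L₂ → w * wd Γ L₁ ∈ Y) → FR.pt A w = y.1 →
    FR.pt A (w * wd Γ L) = y'.1 → Walk (DCS2_Mv A Y) L y y' := by
  induction L with
  | nil =>
    intro w y y' _ e e'
    rw [wd_nil, mul_one] at e'
    obtain rfl : y = y' := Subtype.ext (e.symm.trans e')
    exact Walk.nil y
  | cons x L ih =>
    intro w y y' h e e'
    refine Walk.cons (y' := ⟨_, _, h [x] L rfl, rfl⟩) ((congrArg _ e.symm).trans (qa_pt _ _ _))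
      (ih (w * wd Γ [x]) _ _ (fun L₁ L₂ e₁ => ?_) rfl (by rw [mul_assoc, ← wd_cons, e']))
    rw [mul_assoc, ← wd_cons]
    exact h _ L₂ (by rw [e₁]; rfl)

lemma DCS2_end {L : List (T × Bool)} {y y' : DCS2_Y A Y} (h : Walk (DCS2_Mv A Y) L y y') :
    (qa A (wd Γ L))⁻¹ y.1 = y'.1 := by
  induction h with
  | nil => simp [wd_nil]
  | cons hm _ ih => rw [wd_cons, inv_mul_apply, hm, ih]

end

theorem p_DCS2 (hG2 : S_G2) (hG1 : S_G1) (hACT : S_ACT) (hTHK : S_THK) :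
    S_DCS2 := by
  intro T _ Γ A S g h hA hn
  obtain ⟨r1, h1⟩ := sh_exists g
  obtain ⟨r2, h2⟩ := sh_exists h
  replace h1 := h1.mono (Nat.le_add_right r1 r2)
  replace h2 := h2.mono (Nat.le_add_left r2 r1)
  generalize r1 + r2 = ρ at h1 h2
  obtain ⟨Y, hY, hs⟩ := hTHK T Γ A hA ρ
  have : Finite (DCS2_Y A Y) := by
    obtain ⟨F, hF, hF'⟩ := hY.fin
    refine ((hF.image (FR.pt A)).subset ?_).to_subtype
    rintro _ ⟨x, hx, rfl⟩
    obtain ⟨z, hz, u, hu, rfl⟩ := hF' x hx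
    exact ⟨u, hu, FR.pt_eq.2 (by simpa using hz)⟩
  obtain ⟨a, a1, a2⟩ := hACT T _ Γ _ (DCS2_cx hG1 hY)
  have h0 : (1 : RAAG Γ) ∈ Y := hs 1 ⟨[], rfl, Nat.zero_le _⟩
  let y0 : DCS2_Y A Y := ⟨_, 1, h0, rfl⟩
  have k1 : ∀ u (hu : Sh Γ ρ u), (a u)⁻¹ (y0, fun _ => false) =
      (⟨_, u, hs u hu, rfl⟩, fun _ => false) := by
    rintro _ ⟨L, rfl, hL⟩
    refine a1 L _ _ (DCS2_walk L 1 _ _ (fun L₁ L₂ e => hs _ ⟨L₁, (one_mul _).symm, ?_⟩) rfl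
      (by rw [one_mul]))
    rw [e, List.length_append] at hL
    omega
  have k2 : ∀ p ∈ A, (a p)⁻¹ (y0, fun _ => false) = (y0, fun _ => false) := by
    intro p hp
    obtain ⟨L, hL, rfl⟩ := (hG2 T Γ).1 p
    refine a1 L _ _ (DCS2_walk L 1 _ _ (fun L₁ L₂ e => ?_) rfl (FR.pt_eq.2 (by simpa using hp)))
    subst e
    refine hY.cvx 1 L₁ L₂ hL h0 ?_
    simpa using hY.inv _ hp 1 h0
  refine ⟨a.ker, FN.ker a, ?_⟩
  rintro n hN ⟨p', hp', p, hp, e⟩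
  have k3 := k1 h h2
  rw [show a h = a (h * n) by rw [map_mul, MonoidHom.mem_ker.1 hN, mul_one], e, inv_mul_apply,
    inv_mul_apply, k2 p' hp', k1 g h1] at k3
  obtain ⟨L, hL, hw⟩ := a2 S p hp (⟨_, g, hs g h1, rfl⟩, fun _ => false)
  have k4 := DCS2_end hw
  rw [k3, qa_pt] at k4
  exact hn ⟨h * (g * wd Γ L)⁻¹, FR.pt_eq.1 k4.symm, wd Γ L, wd_mem hL, by group⟩

end Pool.Agent.P.MP_67c9d4_al.MX
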