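import Pool.Agent.P.MP_67c9d4_al.MX.Iface

/-! Step FMAL. -/

set_option autoImplicit false
set_option linter.unusedSectionVars false

namespace Pool.Agent.P.MP_67c9d4_al.MX

open Equiv Wr Multiplicative FC FR

theorem p_FMAL (hFTD : S_FTD) (hFIX : S_FIX) :
    S_FMAL := by
  intro A C H _ _ _ i i' h a ha hm g m m0 c
  obtain ⟨D, t, g1, -, p1, -⟩ := hFTD A C H i i' h
  have hi := h.inj
  have e1 : i a ^ m ∈ D.G true := g1 ▸ ⟨a ^ m, map_zpow i _ _⟩
  rcases hFIX H Bool Unit D t true true g _ e1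
    (by rwa [mul_assoc, ← c.eq, inv_mul_cancel_left]) with ⟨-, e⟩ | ⟨k, p, -, -, e⟩
  · rw [g1] at e
    obtain ⟨g, rfl⟩ := e
    rw [← i.map_zpowers, Subgroup.mem_map_iff_mem hi]
    refine hm g m m0 (hi ?_)
    rw [map_mul, map_mul, map_zpow]
    exact c.eq
  · rw [mem_cj, p1, Subgroup.mem_bot] at e
    refine absurd (hi ?_) (ha m m0)
    rw [map_zpow, map_one]
    calc i a ^ m = p * (p⁻¹ * i a ^ m * p) * p⁻¹ := by group
      _ = 1 := by rw [e]; group

end Pool.Agent.P.MP_67c9d4_al.MX
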