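import Pool.Agent.P.MP_67c9d4_al.MX.Iface
import Pool.Agent.P.MP_67c9d4_al.FC.NF1

/-! Step NF12. -/

set_option autoImplicit false
set_option linter.unusedSectionVars false

namespace Pool.Agent.P.MP_67c9d4_al.MX

open Equiv Wr Multiplicative FC FR

open NF1x in
theorem p_NF12 (hBGOOD : S_BGOOD) (hSTEP : S_STEP) (hHDI : S_HDI) (hHINJ : S_HINJ) (hPTW : S_PTW) (hREORD : S_REORD) (hMOVE : S_MOVE) (hHEX : S_HEX) (hFPG : S_FPG) (hCOPH : S_COPH) :
    S_NF12 := by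
  intro B₀ C B V A K b U k k' hC hk hU H j n hT
  induction hT with
  | base =>
    intro hA
    obtain ⟨hG, hD⟩ := hBGOOD B₀.H V A K B₀.χ b fun q => by
      obtain ⟨a, ha⟩ := b.exists_vx q
      exact Amb.comap hk.1.inj hk.2.1 (hA (b.vt q) (ha ▸ hU a)) _ (b.rel.comm (b.z_mem q))
        (b.ne q) (b.cl _)
    obtain ⟨hG', hD'⟩ := hFPG _ _ _ V k k' B.χ B₀.χ C.χ b.t hk.1 hk.2.1 hk.2.2 hG hC
    refine Or.inl ⟨hG', fun y hy => ?_⟩
    rcases hD' y hy with g | ⟨y₀, c, ng⟩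
    · exact Or.inl g
    · obtain ⟨v, w, hw, c'⟩ := (hD y₀ (by rw [← hk.2.1, chi_conj c, hy])).resolve_left ng
      exact Or.inr ⟨v, w, hw, (k.map_isConj c').trans c⟩
  | @step H H' j n i a y s hT ha hχa hχy hH hχi hχs ih =>
    intro hA
    have hi := hHINJ _ _ H.χ i a y s hH hχa hχy
    obtain ⟨_, ⟨o, ho, rfl⟩, hc⟩ := ha
    rcases ih fun v hv => Amb.comap hi hχi (hA v hv) with
      ⟨hG, hD⟩ | ⟨B₀', B', A', K', b', U', k₁, k₁', j', m, hm, hk', hU', hT', h1, h2⟩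
    · by_cases hg : Gen H.χ (fun v => j (k (b.t v))) y
      · obtain ⟨s', hs', -⟩ := norm hH hc (IsConj.refl y) (hG.chi o) hχy hχi hχs
        have hS : Step H.χ (fun v => j (k (b.t v))) o y i s' H'.χ := ⟨b.finV, hG, hg, hs', hχi⟩
        have hG' := hSTEP _ _ _ _ _ _ _ _ _ _ hS
        refine Or.inl ⟨hG', fun y' hy' => ?_⟩
        rcases hHDI _ _ _ _ _ _ _ _ _ _ hS y' hy' with g | c | ⟨y₀, c, ng⟩
        · exact Or.inl g
        · exact Or.inr ⟨o, 1, one_mem _, by simpa using c⟩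
        · obtain ⟨v, w, hw, c'⟩ :=
            (hD y₀ (by rw [← hχi, chi_conj c, hy'])).resolve_left ng
          exact Or.inr ⟨v, w, hw, (i.map_isConj c').trans c⟩
      · obtain ⟨v, w, hw, c'⟩ := (hD y hχy).resolve_left hg
        obtain ⟨s', hs', hχs'⟩ :=
          norm hH hc c' (hG.chi o) ((chi_conj c').trans hχy) hχi hχs
        have e : B₀.χ (b.ℓ w * b.t v) = ofAdd 1 := by rw [map_mul, b.cl, b.ct, one_mul]
        obtain ⟨B₁, i₁, s₁, j₁, g1, g2, g3, g4, g5⟩ :=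
          hREORD B _ H j n hT (k (b.t o)) (k (b.ℓ w * b.t v))
            (by rw [hk.2.1, hk.2.1, b.ct, e]) H' i s' hs' hχi hχs'
        obtain ⟨B₂, k₀, s₀, f1, f2, f3⟩ := hHEX B₀ (b.t o) (b.ℓ w * b.t v) ((b.ct o).trans e.symm)
        obtain ⟨j₀, p1, p2, p3⟩ := hCOPH _ _ _ _ _ k k' k₀ i₁ _ _ s₀ s₁ hk.1 f1 g1
        have p4 : B₁.χ.comp j₀ = B₂.χ := f1.ext
          (fun g => by rw [MonoidHom.comp_apply, p1, g2, hk.2.1, f2])
          (by rw [MonoidHom.comp_apply, p2, g3, f3])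
        obtain ⟨A', K', b', U', hU', m1, m2⟩ := hMOVE B₀.H B₂.H V A K B₀.χ b U o k₀ s₀ B₂.χ hU ho
          (hHINJ _ _ B₀.χ k₀ _ _ s₀ f1 (b.ct o) e) f2 f3 v w hw f1
        have key : ∀ u u', IsConj (k₀ (b.t u)) (b'.t u') →
            IsConj ((i.comp j) (k (b.t u))) (j₁ (j₀ (b'.t u'))) := fun u u' c => by
          have := j₁.map_isConj (j₀.map_isConj c)
          rwa [p1, g5] at this
        refine Or.inr ⟨B₂, B₁, A', K', b', U', j₀, i₁.comp k', j₁, n, n.lt_succ_self,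
          ⟨p3, fun x => DFunLike.congr_fun p4 x, fun x => (g2 _).trans (hk.2.2 x)⟩, hU',
          (hPTW B₁ _ H' j₁ n g4).2 _ ?_, fun u hu => ?_, fun u' hu' => ?_⟩
        · rintro _ ⟨_, ⟨u, hu, rfl⟩, rfl⟩
          obtain ⟨u', hu', c⟩ := m1 u hu
          exact ⟨_, ⟨u', hu', rfl⟩, p1 _ ▸ j₀.map_isConj c⟩
        · obtain ⟨u', hu', c⟩ := m1 u hu
          exact ⟨u', hu', key u u' c⟩
        · obtain ⟨u, hu, c⟩ := m2 u' hu'
          exact ⟨u, hu, key u u' c⟩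
    · obtain ⟨o', ho', c⟩ := h1 o ho
      refine Or.inr ⟨B₀', B', A', K', b', U', k₁, k₁', i.comp j', m + 1, Nat.succ_lt_succ hm, hk',
        hU', PTow.step i a y s hT' ⟨_, ⟨o', ho', rfl⟩, c.symm.trans hc⟩ hχa hχy hH hχi hχs,
        fun u hu => ?_, fun u' hu' => ?_⟩
      · obtain ⟨u', hu', c⟩ := h1 u hu
        exact ⟨u', hu', i.map_isConj c⟩
      · obtain ⟨u, hu, c⟩ := h2 u' hu'
        exact ⟨u, hu, i.map_isConj c⟩

end Pool.Agent.P.MP_67c9d4_al.MX
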